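import Pool.Agent.Helper79.GL4.Lib

/-!
# GL4: Sylow subgroups and orbits (MP_27a5f8_al)
-/

set_option linter.unusedVariables false

namespace GL4

open Module Submodule

/-- the (left) action of linear automorphisms on subspaces.  Use
`attribute [local instance] GL4.subAct` where needed. -/
@[reducible] def subAct {F : Type} [Field F] {V : Type} [AddCommGroup V] [Module F V] :
    MulAction (V ≃ₗ[F] V) (Submodule F V) where
  smul g P := im g P
  one_smul P := im_one P
  mul_smul g h P := im_mul g h P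

/-- `S` is a Sylow `p`-subgroup of `G` (both are subgroups of the same ambient group). -/
def IsSyl (p : ℕ) {A : Type} [Group A] (S G : Subgroup A) : Prop :=
  S ≤ G ∧ IsPGroup p S ∧ ¬ p ∣ S.relIndex G

section
variable {A : Type} [Group A] [Finite A] {p : ℕ} [hp : Fact p.Prime]

theorem exists_isSyl (G : Subgroup A) : ∃ S, IsSyl p S G := by
  obtain ⟨P⟩ : Nonempty (Sylow p G) := inferInstance
  refine ⟨(P : Subgroup G).map G.subtype, Subgroup.map_subtype_le _, ?_, ?_⟩
  · exact P.isPGroup'.map G.subtype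
  · have h := P.not_dvd_index
    have h2 : ((P : Subgroup G).map G.subtype).relIndex G = (P : Subgroup G).index := by
      rw [Subgroup.relIndex, Subgroup.subgroupOf,
        Subgroup.comap_map_eq_self_of_injective G.subtype_injective]
    rw [h2]; exact h

/-- a `p`-subgroup of `G` is contained in a Sylow subgroup. -/
theorem exists_isSyl_ge {G Q : Subgroup A} (hQ : Q ≤ G) (hp' : IsPGroup p Q) :
    ∃ S, IsSyl p S G ∧ Q ≤ S := by
  have h1 : IsPGroup p (Q.subgroupOf G) := hp'.comap_subtype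
  obtain ⟨P, hP⟩ := h1.exists_le_sylow
  refine ⟨(P : Subgroup G).map G.subtype, ⟨Subgroup.map_subtype_le _, ?_, ?_⟩, ?_⟩
  · exact P.isPGroup'.map G.subtype
  · have h := P.not_dvd_index
    have h2 : ((P : Subgroup G).map G.subtype).relIndex G = (P : Subgroup G).index := by
      rw [Subgroup.relIndex, Subgroup.subgroupOf,
        Subgroup.comap_map_eq_self_of_injective G.subtype_injective]
    rw [h2]; exact h
  · intro x hx
    exact ⟨⟨x, hQ hx⟩, hP hx, rfl⟩

theorem IsSyl.mono {S R G : Subgroup A} (h : IsSyl p S G) (hSR : S ≤ R) (hRG : R ≤ G) :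
    IsSyl p S R := by
  refine ⟨hSR, h.2.1, fun hd => h.2.2 ?_⟩
  rw [← Subgroup.relIndex_mul_relIndex S R G hSR hRG]
  exact Dvd.dvd.mul_right hd _

theorem IsSyl.not_dvd {S R G : Subgroup A} (h : IsSyl p S G) (hSR : S ≤ R) (hRG : R ≤ G) :
    ¬ p ∣ R.relIndex G := by
  intro hd
  apply h.2.2
  rw [← Subgroup.relIndex_mul_relIndex S R G hSR hRG]
  exact Dvd.dvd.mul_left hd _

theorem IsSyl.trans {S R G : Subgroup A} (h : IsSyl p S R) (hRG : R ≤ G)
    (hd : ¬ p ∣ R.relIndex G) : IsSyl p S G := by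
  refine ⟨h.1.trans hRG, h.2.1, fun hc => ?_⟩
  rw [← Subgroup.relIndex_mul_relIndex S R G h.1 hRG] at hc
  rcases hp.out.dvd_mul.1 hc with h1 | h1
  · exact h.2.2 h1
  · exact hd h1

/-- Sylow subgroups of `G` are conjugate in `G`. -/
theorem IsSyl.conj {S T G : Subgroup A} (hS : IsSyl p S G) (hT : IsSyl p T G) :
    ∃ g ∈ G, ∀ x, x ∈ S ↔ g * x * g⁻¹ ∈ T := by
  have mk : ∀ {Q : Subgroup A}, IsSyl p Q G → ∃ P : Sylow p G, (P : Subgroup G) = Q.subgroupOf G := by
    intro Q hQ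
    have h1 : IsPGroup p (Q.subgroupOf G) := hQ.2.1.comap_subtype
    exact ⟨h1.toSylow hQ.2.2, rfl⟩
  obtain ⟨P, hP⟩ := mk hS
  obtain ⟨P', hP'⟩ := mk hT
  obtain ⟨g, hg⟩ := MulAction.exists_smul_eq G P P'
  refine ⟨g, g.2, fun x => ?_⟩
  have h2 : ((g • P : Sylow p G) : Subgroup G) = T.subgroupOf G := by rw [hg, hP']
  constructor
  · intro hx
    have hxG : x ∈ G := hS.1 hx
    have h3 : (⟨x, hxG⟩ : G) ∈ (P : Subgroup G) := by rw [hP]; exact hx
    have h4 : g * ⟨x, hxG⟩ * g⁻¹ ∈ ((g • P : Sylow p G) : Subgroup G) := by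
      rw [Sylow.coe_subgroup_smul]
      exact ⟨⟨x, hxG⟩, h3, rfl⟩
    rw [h2] at h4
    exact h4
  · intro hx
    have hxG : (g : A) * x * (g : A)⁻¹ ∈ G := hT.1 hx
    have hxG' : x ∈ G := by
      have := G.mul_mem (G.mul_mem (G.inv_mem g.2) hxG) g.2
      simpa [mul_assoc] using this
    have h3 : g * ⟨x, hxG'⟩ * g⁻¹ ∈ ((g • P : Sylow p G) : Subgroup G) := by
      rw [h2]; exact hx
    rw [Sylow.coe_subgroup_smul] at h3
    obtain ⟨y, hy, hy2⟩ := h3
    have hy3 : g * y * g⁻¹ = g * ⟨x, hxG'⟩ * g⁻¹ := hy2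
    have : y = ⟨x, hxG'⟩ := by simpa using hy3
    rw [this, hP] at hy
    exact hy

end

section act
variable {A : Type} [Group A] [Finite A] {α : Type*} [MulAction A α]

/-- the size of an orbit is the index of the stabiliser -/
theorem ncard_orbit (G : Subgroup A) (x : α) :
    Set.ncard {y | ∃ g ∈ G, g • x = y} = (G ⊓ MulAction.stabilizer A x).relIndex G := by
  have h1 : {y | ∃ g ∈ G, g • x = y} = MulAction.orbit G x := by
    ext y
    constructor
    · rintro ⟨g, hg, rfl⟩; exact ⟨⟨g, hg⟩, rfl⟩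
    · rintro ⟨⟨g, hg⟩, rfl⟩; exact ⟨g, hg, rfl⟩
  rw [h1, ← Nat.card_coe_set_eq, Nat.card_congr (MulAction.orbitEquivQuotientStabilizer G x),
    Subgroup.relIndex, Subgroup.index]
  have : MulAction.stabilizer G x = (G ⊓ MulAction.stabilizer A x).subgroupOf G := by
    ext ⟨g, hg⟩
    simp [Subgroup.mem_subgroupOf, hg]
  rw [this]

variable {p : ℕ} [hp : Fact p.Prime]

/-- If `R ≤ G` has index prime to `p`, the `R`-orbits inside a `G`-orbit of size divisible by `p^a`
have size divisible by `p^a`. -/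
theorem pow_dvd_orbit {R G : Subgroup A} (hRG : R ≤ G) (hd : ¬ p ∣ R.relIndex G) (x : α) {a : ℕ}
    (h : p ^ a ∣ Set.ncard {y | ∃ g ∈ G, g • x = y}) :
    p ^ a ∣ Set.ncard {y | ∃ g ∈ R, g • x = y} := by
  rw [ncard_orbit] at h ⊢
  have h1 : (R ⊓ MulAction.stabilizer A x).relIndex R * R.relIndex G =
      (R ⊓ MulAction.stabilizer A x).relIndex (G ⊓ MulAction.stabilizer A x) *
        (G ⊓ MulAction.stabilizer A x).relIndex G := by
    rw [Subgroup.relIndex_mul_relIndex _ _ _ inf_le_left hRG,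
      Subgroup.relIndex_mul_relIndex _ _ _ (inf_le_inf_right _ hRG) inf_le_left]
  have h2 : p ^ a ∣ (R ⊓ MulAction.stabilizer A x).relIndex R * R.relIndex G := by
    rw [h1]; exact Dvd.dvd.mul_left h _
  exact (Nat.Coprime.pow_left a ((Nat.Prime.coprime_iff_not_dvd hp.out).2 hd)).dvd_of_dvd_mul_right h2

/-- If `G` is transitive on a finite set `X` of size `p^a` and `R ≤ G` has index prime to `p`
(e.g. `R` is a Sylow `p`-subgroup), then `R` is transitive on `X`. -/
theorem trans_of_pow {R G : Subgroup A} (hRG : R ≤ G) (hd : ¬ p ∣ R.relIndex G) {X : Set α}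
    (hXf : X.Finite) (hX : ∀ g ∈ G, ∀ x ∈ X, g • x ∈ X)
    (htr : ∀ x ∈ X, ∀ y ∈ X, ∃ g ∈ G, g • x = y) {a : ℕ} (hc : X.ncard = p ^ a) :
    ∀ x ∈ X, ∀ y ∈ X, ∃ g ∈ R, g • x = y := by
  intro x hx y hy
  have h1 : {y | ∃ g ∈ G, g • x = y} = X := by
    ext z
    constructor
    · rintro ⟨g, hg, rfl⟩; exact hX g hg x hx
    · intro hz; exact htr x hx z hz
  have h2 : p ^ a ∣ Set.ncard {y | ∃ g ∈ R, g • x = y} := by
    apply pow_dvd_orbit hRG hd
    rw [h1, hc]
  have h3 : {y | ∃ g ∈ R, g • x = y} ⊆ X := by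
    rintro z ⟨g, hg, rfl⟩; exact hX g (hRG hg) x hx
  have h4 : {y | ∃ g ∈ R, g • x = y} = X := by
    apply Set.eq_of_subset_of_ncard_le h3 _ hXf
    rw [hc]
    apply Nat.le_of_dvd _ h2
    rw [Set.ncard_pos (hXf.subset h3)]
    exact ⟨x, 1, R.one_mem, one_smul _ _⟩
  have : y ∈ {y | ∃ g ∈ R, g • x = y} := by rw [h4]; exact hy
  exact this

/-- A `p`-group acting on a finite set of size prime to `p` has a fixed point. -/
theorem exists_fixed {S : Subgroup A} (hS : IsPGroup p S) {X : Set α} (hXf : X.Finite)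
    (hX : ∀ g ∈ S, ∀ x ∈ X, g • x ∈ X) (hc : ¬ p ∣ X.ncard) : ∃ x ∈ X, ∀ g ∈ S, g • x = x := by
  letI : MulAction S X :=
    { smul := fun g x => ⟨(g : A) • (x : α), hX g g.2 x x.2⟩
      one_smul := fun x => Subtype.ext (one_smul A (x : α))
      mul_smul := fun g h x => Subtype.ext (mul_smul (g : A) (h : A) (x : α)) }
  haveI : Finite X := hXf
  haveI : Fintype X := Fintype.ofFinite X
  have hc' : ¬ p ∣ Nat.card X := by rwa [Nat.card_coe_set_eq]
  obtain ⟨x, hx⟩ := hS.nonempty_fixed_point_of_prime_not_dvd_card X hc'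
  exact ⟨x, x.2, fun g hg => congrArg Subtype.val (hx ⟨g, hg⟩)⟩

end act

end GL4
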