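import Pool.Agent.Helper79.GL4.Lib2

/-!
# GL4: goals, part A (MP_27a5f8_al)
-/

set_option linter.unusedVariables false

namespace GL4

open Module Submodule

/-- BR1 (Brauer): transitivity on points and on hyperplanes are equivalent. -/
def BR1 : Prop :=
  ∀ (F : Type) [Field F] [Finite F] (V : Type) [AddCommGroup V] [Module F V]
    [FiniteDimensional F V] (G : Subgroup (V ≃ₗ[F] V)), PtTrans G ↔ HyTrans G

/-- BR2: a group that is 2-transitive on points is 2-transitive on hyperplanes and has exactly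
two orbits on point-hyperplane pairs. -/
def BR2 : Prop :=
  ∀ (F : Type) [Field F] [Finite F] (V : Type) [AddCommGroup V] [Module F V]
    [FiniteDimensional F V] (K : Subgroup (V ≃ₗ[F] V)), 2 ≤ finrank F V → TwoTrans K →
    TwoTransHy K ∧ FlagPH K ∧ AntiTrans K

/-- SLG: the transvections generate the special linear group. -/
def SLG : Prop :=
  ∀ (F : Type) [Field F] (V : Type) [AddCommGroup V] [Module F V]
    [FiniteDimensional F V] (K : Subgroup (V ≃ₗ[F] V)),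
    (∀ g : V ≃ₗ[F] V, IsTransv g → g ∈ K) → HasSL K

/-- TRV: a flag-transitive group (points, hyperplanes) containing a transvection contains SL. -/
def TRV : Prop :=
  ∀ (F : Type) [Field F] [Finite F] (V : Type) [AddCommGroup V] [Module F V]
    [FiniteDimensional F V] (K : Subgroup (V ≃ₗ[F] V)), 3 ≤ finrank F V → FlagPH K →
    (∃ g ∈ K, IsTransv g) → ∀ g : V ≃ₗ[F] V, IsTransv g → g ∈ K

/-- MT2 -/
def MT2 : Prop := ∀ (F : Type) [Field F] [Finite F], MT F 2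

/-- TRA (translation property): if the stabiliser of the point `x` is transitive on the hyperplanes
not through `x`, then it is transitive on `L ∖ {x}` for every line `L` through `x`. -/
def TRA : Prop :=
  ∀ (F : Type) [Field F] [Finite F] (V : Type) [AddCommGroup V] [Module F V]
    [FiniteDimensional F V] (G : Subgroup (V ≃ₗ[F] V)) (x : Submodule F V), Pt x →
    (∀ H H' : Submodule F V, Hy H → Hy H' → ¬ x ≤ H → ¬ x ≤ H' →
      ∃ g ∈ G, im g x = x ∧ im g H = H') →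
    ∀ y z : Submodule F V, Pt y → Pt z → y ≠ x → z ≠ x → z ≤ x ⊔ y →
      ∃ g ∈ G, im g x = x ∧ im g y = z

/-- ANT: a group 2-transitive on points induces antiflag-transitive groups on `V/P` and on `H`. -/
def ANT : Prop :=
  ∀ (F : Type) [Field F] [Finite F] (V : Type) [AddCommGroup V] [Module F V]
    [FiniteDimensional F V] (K : Subgroup (V ≃ₗ[F] V)), 3 ≤ finrank F V → TwoTrans K →
    (∀ P, Pt P → AntiTrans (qGrp K P)) ∧ (∀ H, Hy H → AntiTrans (sGrp K H))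

/-- MT3 -/
def MT3 : Prop := ∀ (F : Type) [Field F] [Finite F], MT F 3

/-- TT: if `K` is 2-transitive on points then the group induced on every plane contains SL. -/
def TT : Prop :=
  ∀ (F : Type) [Field F] [Finite F] (V : Type) [AddCommGroup V] [Module F V]
    [FiniteDimensional F V] (K : Subgroup (V ≃ₗ[F] V)), 3 ≤ finrank F V → TwoTrans K →
    ∀ E, Pl E → HasSL (sGrp K E)

/-- SLT: if the group induced on `U` contains SL(U), it is transitive on the triples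
(point `P`, two distinct lines through `P`) in `U`. -/
def SLT : Prop :=
  ∀ (F : Type) [Field F] [Finite F] (V : Type) [AddCommGroup V] [Module F V]
    [FiniteDimensional F V] (K : Subgroup (V ≃ₗ[F] V)) (U : Submodule F V), HasSL (sGrp K U) →
    ∀ P L M P' L' M' : Submodule F V, Pt P → Ln L → Ln M → Pt P' → Ln L' → Ln M' →
      P ≤ L → P ≤ M → L ≠ M → P' ≤ L' → P' ≤ M' → L' ≠ M' →
      L ≤ U → M ≤ U → L' ≤ U → M' ≤ U →
      ∃ k ∈ K, im k P = P' ∧ im k L = L' ∧ im k M = M'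

/-- TRZ: for a `K`-equivariant assignment `Z` of subspaces to flags (point, line), whether a plane
lies in `Z P L` depends only on the plane. -/
def TRZ : Prop :=
  ∀ (F : Type) [Field F] [Finite F] (V : Type) [AddCommGroup V] [Module F V]
    [FiniteDimensional F V] (K : Subgroup (V ≃ₗ[F] V)), 3 ≤ finrank F V → TwoTrans K →
    ∀ Z : Submodule F V → Submodule F V → Submodule F V,
      (∀ k ∈ K, ∀ P L, Pt P → Ln L → P ≤ L → Z (im k P) (im k L) = im k (Z P L)) →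
      (∀ P L, Pt P → Ln L → P ≤ L → L ≤ Z P L) →
      (∀ P L P' L' E, Pt P → Ln L → P ≤ L → Pt P' → Ln L' → P' ≤ L' → Pl E → L ≤ E → L' ≤ E →
        (E ≤ Z P L ↔ E ≤ Z P' L')) ∧
      (∀ P P' L, Pt P → Pt P' → Ln L → P ≤ L → P' ≤ L → Z P L = Z P' L)

/-- PEL (elimination of groups of order prime to `p`). -/
def PEL : Prop :=
  ∀ (F : Type) [Field F] [Finite F] (V : Type) [AddCommGroup V] [Module F V]
    [FiniteDimensional F V] (K : Subgroup (V ≃ₗ[F] V)), 3 ≤ finrank F V → FlagPL K →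
    ¬ ringChar F ∣ Nat.card K →
    (∃ P L Q : Submodule F V, ∃ k ∈ K, Pt P ∧ Ln L ∧ Pt Q ∧ P ≤ L ∧ Q ≤ L ∧ im k P = P ∧
      im k L = L ∧ im k Q ≠ Q) → False

/-- JB: if `p` divides the order of a group transitive on lines, it divides the order of the
group induced on each line. -/
def JB : Prop :=
  ∀ (F : Type) [Field F] [Finite F] (V : Type) [AddCommGroup V] [Module F V]
    [FiniteDimensional F V] (K : Subgroup (V ≃ₗ[F] V)),
    (∀ L L' : Submodule F V, Ln L → Ln L' → ∃ k ∈ K, im k L = L') →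
    ringChar F ∣ Nat.card K → ∀ L, Ln L → ringChar F ∣ Nat.card (sGrp K L)

/-! ### 2-dimensional groups -/

/-- `r` is the ratio (eigenvalue on `P`)/(eigenvalue on `V/P`) of an element of `K` fixing the
point `P` of the 2-dimensional space `V`. -/
def IsRatio {F : Type} [Field F] {V : Type} [AddCommGroup V] [Module F V]
    (K : Subgroup (V ≃ₗ[F] V)) (P : Submodule F V) (r : F) : Prop :=
  ∃ k ∈ K, ∃ a b : F, b ≠ 0 ∧ (∀ v ∈ P, k v = a • v) ∧ (∀ v, k v - b • v ∈ P) ∧ r = a / b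

/-- LGEO: the class equation of a group `K ≤ GL₂(q)` transitive on the `q+1` points. -/
def LGEO : Prop :=
  ∀ (F : Type) [Field F] [Finite F] (V : Type) [AddCommGroup V] [Module F V]
    (K : Subgroup (V ≃ₗ[F] V)), finrank F V = 2 → PtTrans K →
    ∃ (w c : ℕ) (D : Multiset (ℕ × ℕ)), 1 ≤ w ∧ 1 ≤ c ∧ (∃ s, w = ringChar F ^ s) ∧
      w ∣ Nat.card F ∧ (w = 1 → ¬ ringChar F ∣ Nat.card K) ∧ (w ≠ 1 → ringChar F ∣ Nat.card K) ∧
      (w = Nat.card F → TwoTrans K) ∧ (w ≠ 1 → c ∣ w - 1) ∧ c ∣ Nat.card F - 1 ∧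
      (∀ P : Submodule F V, Pt P → ∀ r, IsRatio K P r → r ^ c = 1) ∧
      (∀ d ∈ D, 2 ≤ d.1 ∧ d.1 ∣ Nat.card F + 1 ∧ (d.2 = 1 ∨ d.2 = 2) ∧
        (d.2 = 2 → 2 ∣ (Nat.card F + 1) * w * c)) ∧
      (1 : ℚ) - 1 / ((Nat.card F + 1) * w * c) =
        (w - 1) / (w * c) + (c - 1) / (2 * c) + (D.map fun d => (1 - 1 / (d.1 : ℚ)) / d.2).sum

/-- LNUM1: numerics for `w > 1`. -/
def LNUM1 : Prop :=
  ∀ (p q w c : ℕ) (D : Multiset (ℕ × ℕ)) (hp : p.Prime), (∃ e, q = p ^ e) → (∃ s, w = p ^ s) →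
    w ∣ q → 1 < w → 2 ≤ c → c ∣ w - 1 → c ∣ q - 1 →
    (∀ d ∈ D, 2 ≤ d.1 ∧ d.1 ∣ q + 1 ∧ (d.2 = 1 ∨ d.2 = 2)) →
    (1 : ℚ) - 1 / ((q + 1) * w * c) =
        (w - 1) / (w * c) + (c - 1) / (2 * c) + (D.map fun d => (1 - 1 / (d.1 : ℚ)) / d.2).sum →
    w = q ∨ (q = 9 ∧ w = 3 ∧ c = 2)

/-- LNUM2: numerics for `w = 1`, `q` odd, `q ≥ 7`. -/
def LNUM2 : Prop :=
  ∀ (q c : ℕ) (D : Multiset (ℕ × ℕ)), 7 ≤ q → 1 ≤ c → c ∣ q - 1 →
    (∀ d ∈ D, 2 ≤ d.1 ∧ d.1 ∣ q + 1 ∧ (d.2 = 1 ∨ d.2 = 2)) →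
    (1 : ℚ) - 1 / ((q + 1) * c) =
        (c - 1) / (2 * c) + (D.map fun d => (1 - 1 / (d.1 : ℚ)) / d.2).sum →
    c = 1 ∨ c = 2 ∨ c = 3 ∨ c = 5

/-- LNUM3: numerics for `w = 1`, `q` even. -/
def LNUM3 : Prop :=
  ∀ (q c : ℕ) (D : Multiset (ℕ × ℕ)), 2 ≤ q → 2 ∣ q → 1 ≤ c → c ∣ q - 1 →
    (∀ d ∈ D, 2 ≤ d.1 ∧ d.1 ∣ q + 1 ∧ d.2 = 1) →
    (1 : ℚ) - 1 / ((q + 1) * c) =
        (c - 1) / (2 * c) + (D.map fun d => (1 - 1 / (d.1 : ℚ)) / d.2).sum →
    c = 1

/-! ### Step 5: the case where the group induced on `V/P` contains SL -/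

/-- `K_P` acts faithfully on `V/P`. -/
def FaithQ {F : Type} [Field F] {V : Type} [AddCommGroup V] [Module F V]
    (K : Subgroup (V ≃ₗ[F] V)) (P : Submodule F V) : Prop :=
  ∀ k ∈ K, im k P = P → (∀ v, P.mkQ (k v) = P.mkQ v) → k = 1

/-- S5A: if `K` is antiflag-transitive and contains no transvection, then `K_P` acts faithfully on
`V/P`. -/
def S5A : Prop :=
  ∀ (F : Type) [Field F] [Finite F] (V : Type) [AddCommGroup V] [Module F V]
    [FiniteDimensional F V] (K : Subgroup (V ≃ₗ[F] V)), 2 ≤ finrank F V → AntiTrans K →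
    (∀ g ∈ K, ¬ IsTransv g) → ∀ P, Pt P → FaithQ K P

/-- lifts of the transvections `v ↦ v + f(v) u` of `V/P`, `P = ⟨p⟩`. -/
def LiftData {F : Type} [Field F] {V : Type} [AddCommGroup V] [Module F V]
    (K : Subgroup (V ≃ₗ[F] V)) (P : Submodule F V) (p : V) : Prop :=
  ∀ (f : Module.Dual F (V ⧸ P)) (u : V ⧸ P), f u = 0 →
    ∃ t ∈ K, ∃ (u' : V) (ψ : Module.Dual F (V ⧸ P)), P.mkQ u' = u ∧
      ∀ v, t v = v + f (P.mkQ v) • u' + ψ (P.mkQ v) • p

/-- S5B1 -/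
def S5B1 : Prop :=
  ∀ (F : Type) [Field F] [Finite F] (V : Type) [AddCommGroup V] [Module F V]
    [FiniteDimensional F V] (K : Subgroup (V ≃ₗ[F] V)) (p : V), p ≠ 0 →
    HasSL (qGrp K (F ∙ p)) → FaithQ K (F ∙ p) → LiftData K (F ∙ p) p

/-- S5B2: cocycle argument, dimension at least 5. -/
def S5B2 : Prop :=
  ∀ (F : Type) [Field F] [Finite F] (V : Type) [AddCommGroup V] [Module F V]
    [FiniteDimensional F V] (K : Subgroup (V ≃ₗ[F] V)) (p : V), p ≠ 0 →
    FaithQ K (F ∙ p) → LiftData K (F ∙ p) p → 5 ≤ finrank F V →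
    ∃ g ∈ K, IsTransv g

/-- S5B3: cocycle argument, dimension 4, `q ≥ 3`. -/
def S5B3 : Prop :=
  ∀ (F : Type) [Field F] [Finite F] (V : Type) [AddCommGroup V] [Module F V]
    [FiniteDimensional F V] (K : Subgroup (V ≃ₗ[F] V)) (p : V), p ≠ 0 →
    FaithQ K (F ∙ p) → LiftData K (F ∙ p) p → finrank F V = 4 → 3 ≤ Nat.card F →
    ∃ g ∈ K, IsTransv g

/-- S5C: orders. -/
def S5C : Prop :=
  ∀ (F : Type) [Field F] [Finite F] (V : Type) [AddCommGroup V] [Module F V]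
    [FiniteDimensional F V] (K : Subgroup (V ≃ₗ[F] V)) (P : Submodule F V), Pt P →
    Nat.card F = 2 → TwoTrans K → FaithQ K P →
    (finrank F V = 4 → HasSL (qGrp K P) → Nat.card K = 2520) ∧
    (finrank F V = 5 → Nat.card (qGrp K P) ≠ 2520)

end GL4
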