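import Pool.Agent.Helper79.GL4.DefsB

/-!
# GL4: goals, part B (MP_27a5f8_al)
-/

set_option linter.unusedVariables false

namespace GL4

open Module Submodule

/-- M2: structure of antiflag-transitive groups. -/
def M2 : Prop :=
  ∀ (F : Type) [Field F] [Finite F] (W : Type) [AddCommGroup W] [Module F W]
    [FiniteDimensional F W] (G : Subgroup (W ≃ₗ[F] W)), 2 ≤ finrank F W → AntiTrans G →
    ∃ c B C, BC G c B C

/-- CANB: the structure is canonical. -/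
def CANB : Prop :=
  ∀ (F : Type) [Field F] [Finite F] (W : Type) [AddCommGroup W] [Module F W]
    [FiniteDimensional F W] (G : Subgroup (W ≃ₗ[F] W)) (c : ℕ) (B C), BC G c B C →
    (∀ x, Pt x → Bc G x = B x) ∧ (∀ H, Hy H → Cc G H = C H) ∧ BC G c (Bc G) (Cc G)

/-- M7: special lines of antiflag-transitive groups. -/
def M7 : Prop :=
  ∀ (F : Type) [Field F] [Finite F] (W : Type) [AddCommGroup W] [Module F W]
    [FiniteDimensional F W] (G : Subgroup (W ≃ₗ[F] W)), 2 ≤ finrank F W → AntiTrans G →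
    ∃ n N, NN G n N

/-- CANN: `N` is canonical and minimal. -/
def CANN : Prop :=
  ∀ (F : Type) [Field F] [Finite F] (W : Type) [AddCommGroup W] [Module F W]
    [FiniteDimensional F W] (G : Subgroup (W ≃ₗ[F] W)) (n : ℕ) (N), NN G n N →
    (∀ x, Pt x → Nc G x = N x) ∧ NN G n (Nc G) ∧
    (∀ x Z, Pt x → x < Z → (∀ g ∈ G, im g x = x → im g Z = Z) → N x ≤ Z)

/-- NAT: naturality of the canonical constructions. -/
def NAT : Prop :=
  ∀ (F : Type) [Field F] (W W' : Type) [AddCommGroup W] [Module F W] [AddCommGroup W']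
    [Module F W'] (φ : W ≃ₗ[F] W') (G : Subgroup (W ≃ₗ[F] W)) (G' : Subgroup (W' ≃ₗ[F] W')),
    Conj φ G G' → ∀ x : Submodule F W,
      Bc G' (x.map (φ : W →ₗ[F] W')) = (Bc G x).map (φ : W →ₗ[F] W') ∧
      Cc G' (x.map (φ : W →ₗ[F] W')) = (Cc G x).map (φ : W →ₗ[F] W') ∧
      Nc G' (x.map (φ : W →ₗ[F] W')) = (Nc G x).map (φ : W →ₗ[F] W') ∧
      ∀ i, Be (Bc G') (Nc G') i (x.map (φ : W →ₗ[F] W')) =
        (Be (Bc G) (Nc G) i x).map (φ : W →ₗ[F] W')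

/-- a natural construction -/
def Natl (F : Type) [Field F]
    (D : ∀ (W : Type) [AddCommGroup W] [Module F W], Subgroup (W ≃ₗ[F] W) → Submodule F W →
      Submodule F W) : Prop :=
  ∀ (W W' : Type) [AddCommGroup W] [Module F W] [AddCommGroup W'] [Module F W']
    (φ : W ≃ₗ[F] W') (G : Subgroup (W ≃ₗ[F] W)) (G' : Subgroup (W' ≃ₗ[F] W')), Conj φ G G' →
    ∀ x, D W' G' (x.map (φ : W →ₗ[F] W')) = (D W G x).map (φ : W →ₗ[F] W')

/-- lift of a natural construction on the quotients `V/P` to `V` -/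
def lft {F : Type} [Field F]
    (D : ∀ (W : Type) [AddCommGroup W] [Module F W], Subgroup (W ≃ₗ[F] W) → Submodule F W →
      Submodule F W) {V : Type} [AddCommGroup V] [Module F V] (K : Subgroup (V ≃ₗ[F] V))
    (P L : Submodule F V) : Submodule F V :=
  (D (V ⧸ P) (qGrp K P) (L.map P.mkQ)).comap P.mkQ

/-- LFT: the lift of a natural construction is `K`-equivariant. -/
def LFT : Prop :=
  ∀ (F : Type) [Field F]
    (D : ∀ (W : Type) [AddCommGroup W] [Module F W], Subgroup (W ≃ₗ[F] W) → Submodule F W →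
      Submodule F W), Natl F D →
    ∀ (V : Type) [AddCommGroup V] [Module F V] (K : Subgroup (V ≃ₗ[F] V)), ∀ k ∈ K,
      (∀ P L : Submodule F V, lft D K (im k P) (im k L) = im k (lft D K P L)) ∧
      (∀ P P' : Submodule F V, im k P = P' → ∃ φ : (V ⧸ P) ≃ₗ[F] (V ⧸ P'),
        (∀ v, φ (P.mkQ v) = P'.mkQ (k v)) ∧ Conj φ (qGrp K P) (qGrp K P')) ∧
      (∀ H H' : Submodule F V, im k H = H' → ∃ φ : H ≃ₗ[F] H',
        (∀ v : H, (φ v : V) = k v) ∧ Conj φ (sGrp K H) (sGrp K H'))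

/-- LINK: from the structures on `V/P` and on the hyperplanes to the full structure. -/
def LINK : Prop :=
  ∀ (F : Type) [Field F] [Finite F] (V : Type) [AddCommGroup V] [Module F V]
    [FiniteDimensional F V] (K : Subgroup (V ≃ₗ[F] V)) (P : Submodule F V) (c n c' : ℕ) (B C N),
    3 ≤ finrank F V → TwoTrans K → Pt P → BC (qGrp K P) c B C → NN (qGrp K P) n N →
    (∀ H, Hy H → ∃ B' C', BC (sGrp K H) c' B' C') →
    n = c' ∧ ∃ L, WS (qGrp K P) c n B C N L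

/-- LTW -/
def LTW : Prop :=
  ∀ (F : Type) [Field F] [Finite F] (V : Type) [AddCommGroup V] [Module F V]
    [FiniteDimensional F V] (K : Subgroup (V ≃ₗ[F] V)) (P H : Submodule F V) (c c' : ℕ) (B C B' C'),
    3 ≤ finrank F V → Pt P → Hy H → P ≤ H → BC (qGrp K P) c B C →
    BC (sGrp K H) c' B' C' → c + 3 ≤ finrank F V → c + c' + 2 ≤ finrank F V

/-- E1: comparability. -/
def E1 : Prop :=
  ∀ (F : Type) [Field F] [Finite F] (W : Type) [AddCommGroup W] [Module F W]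
    [FiniteDimensional F W] (G : Subgroup (W ≃ₗ[F] W)) (c n : ℕ) (B C N L),
    WS G c n B C N L → c ≤ n → c + n + 1 ≤ finrank F W →
    (∀ x, Pt x → N x ≤ B x) ∧
    (∀ x H, Pt x → Hy H → x ≤ C H → L H ≤ B x ∧ C H ≤ N x)

/-- E2: counting special lines. -/
def E2 : Prop :=
  ∀ (F : Type) [Field F] [Finite F] (W : Type) [AddCommGroup W] [Module F W]
    [FiniteDimensional F W] (G : Subgroup (W ≃ₗ[F] W)) (c n : ℕ) (B C N L),
    WS G c n B C N L → 2 ≤ c → c ≤ n → c + n + 1 ≤ finrank F W →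
    (∀ x H, Pt x → Hy H → x ≤ C H → L H ≤ B x ∧ C H ≤ N x) →
    n = c ∧ ∀ x y, Pt x → Pt y → y ≤ N x → y ≠ x → finrank F ↥(B x ⊔ B y) + c = finrank F W + 1

/-- E3: hyperplanes through `B x` and hyperplanes of `N x`; injectivity of `B`; the case `c ≥ 3`. -/
def E3 : Prop :=
  ∀ (F : Type) [Field F] [Finite F] (W : Type) [AddCommGroup W] [Module F W]
    [FiniteDimensional F W] (G : Subgroup (W ≃ₗ[F] W)) (c : ℕ) (B C N L),
    WS G c c B C N L → 2 ≤ c → 2 * c + 1 ≤ finrank F W →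
    (∀ x H, Pt x → Hy H → x ≤ C H → L H ≤ B x ∧ C H ≤ N x) →
    (∀ x y, Pt x → Pt y → y ≤ N x → y ≠ x → finrank F ↥(B x ⊔ B y) + c = finrank F W + 1) →
    (∀ x Y, Pt x → x ≤ Y → Y ≤ N x → finrank F Y = c → ∃! H, Hy H ∧ B x ≤ H ∧ C H = Y) ∧
    (∀ x y, Pt x → Pt y → B x = B y → x = y) ∧
    (3 ≤ c → ∀ x y, Pt x → Pt y → y ≤ N x → N y = N x)

/-! ### polygon -/

/-- PGF: in the non-spread case with `c = 2` we get a polygon geometry. -/
def PGF : Prop :=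
  ∀ (F : Type) [Field F] [Finite F] (W : Type) [AddCommGroup W] [Module F W]
    [FiniteDimensional F W] (G : Subgroup (W ≃ₗ[F] W)) (B C N L),
    WS G 2 2 B C N L → 5 ≤ finrank F W →
    (∀ x, Pt x → N x ≤ B x) →
    (∀ x H, Pt x → Hy H → x ≤ C H → L H ≤ B x ∧ C H ≤ N x) →
    (∀ x y, Pt x → Pt y → y ≤ N x → y ≠ x → finrank F ↥(B x ⊔ B y) + 2 = finrank F W + 1) →
    (∀ x Y, Pt x → x ≤ Y → Y ≤ N x → finrank F Y = 2 → ∃! H, Hy H ∧ B x ≤ H ∧ C H = Y) →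
    (¬ ∀ x y, Pt x → Pt y → y ≤ N x → N y = N x) → PG B N

/-- SYMC: the chain `β_i`. -/
def SYMC : Prop :=
  ∀ (F : Type) [Field F] (W : Type) [AddCommGroup W] [Module F W]
    [FiniteDimensional F W] (B N : Submodule F W → Submodule F W), PG B N →
    (∀ i x y, Pt x → Pt y → y ≤ Be B N i x → x ≤ Be B N i y) ∧
    (∀ i x, Pt x → Be B N (i + 1) x ≤ Be B N i x) ∧
    (∀ i x y, 1 ≤ i → Pt x → Pt y → (y ≤ Be B N (i + 1) x ↔ N y ≤ Be B N i x))

/-- POL: the counting induction. -/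
def POL : Prop :=
  ∀ (F : Type) [Field F] [Finite F] (W : Type) [AddCommGroup W] [Module F W]
    [FiniteDimensional F W] (G : Subgroup (W ≃ₗ[F] W)) (B N : Submodule F W → Submodule F W),
    PG B N → NN G 2 N → PtTrans G → (∀ g ∈ G, ∀ x, Pt x → B (im g x) = im g (B x)) →
    5 ≤ finrank F W →
    (∀ i, 1 ≤ i → (∀ x, Pt x → Be B N (i + 1) x = Be B N i x) → ∀ x, Pt x → Be B N i x = ⊥) →
    (∀ i, 2 * i ≤ finrank F W → ∀ x, Pt x → finrank F (Be B N i x) + 2 * i = finrank F W) ∧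
    (∀ i, 1 ≤ i → 2 * i + 2 ≤ finrank F W → Ai B N i)

/-- POL1: the counting argument, first step. -/
def POL1 : Prop :=
  ∀ (F : Type) [Field F] [Finite F] (W : Type) [AddCommGroup W] [Module F W]
    [FiniteDimensional F W] (G : Subgroup (W ≃ₗ[F] W)) (B N : Submodule F W → Submodule F W),
    PG B N → NN G 2 N → PtTrans G → (∀ g ∈ G, ∀ x, Pt x → B (im g x) = im g (B x)) →
    5 ≤ finrank F W →
    (∀ i, 1 ≤ i → (∀ x, Pt x → Be B N (i + 1) x = Be B N i x) → ∀ x, Pt x → Be B N i x = ⊥) →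
    (∀ x, Pt x → finrank F (Be B N 2 x) + 4 = finrank F W) ∧ Ai B N 1

/-- POL2: the counting argument, induction step. -/
def POL2 : Prop :=
  ∀ (F : Type) [Field F] [Finite F] (W : Type) [AddCommGroup W] [Module F W]
    [FiniteDimensional F W] (G : Subgroup (W ≃ₗ[F] W)) (B N : Submodule F W → Submodule F W),
    PG B N → NN G 2 N → PtTrans G → (∀ g ∈ G, ∀ x, Pt x → B (im g x) = im g (B x)) →
    (∀ i, 1 ≤ i → (∀ x, Pt x → Be B N (i + 1) x = Be B N i x) → ∀ x, Pt x → Be B N i x = ⊥) →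
    ∀ i, 1 ≤ i → 2 * i + 4 ≤ finrank F W →
    (∀ x, Pt x → finrank F (Be B N i x) + 2 * i = finrank F W) →
    (∀ x, Pt x → finrank F (Be B N (i + 1) x) + 2 * (i + 1) = finrank F W) → Ai B N i →
    (∀ x, Pt x → finrank F (Be B N (i + 2) x) + 2 * (i + 2) = finrank F W) ∧ Ai B N (i + 1)

/-- SPEC: the spectral contradiction. -/
def SPEC : Prop :=
  ∀ (q k : ℕ), 2 ≤ q → 2 ≤ k → ∀ (Om : Type) [Fintype Om] [DecidableEq Om]
    (M : ℕ → Matrix Om Om ℝ), Fintype.card Om = br q (2 * k + 1) →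
    (∀ i, (M i).IsSymm) → (M 0 = Matrix.of fun _ _ => 1) → M k = 1 →
    (∀ i ≤ k, ∀ x, M i x x = 1) →
    (∀ i, 1 ≤ i → i + 1 ≤ k → M i * M (k - 1) = M (i - 1) + (q : ℝ) • M i + (q ^ 2 : ℝ) • M (i + 1)) →
    (M (k - 1) * M 0 = (br q 3 : ℝ) • M 0) → False

/-- the polynomials `f₀ = 1`, `f₁ = t`, `f_{j+2} = (t - q) f_{j+1} - q² f_j` -/
noncomputable def ff (q t : ℝ) : ℕ → ℝ
  | 0 => 1
  | 1 => t
  | (j + 2) => (t - q) * ff q t (j + 1) - q ^ 2 * ff q t j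

/-- SPEC1: multiplicity formula. -/
def SPEC1 : Prop :=
  ∀ (q k : ℕ), 2 ≤ q → 2 ≤ k → ∀ (Om : Type) [Fintype Om] [DecidableEq Om]
    (M : ℕ → Matrix Om Om ℝ), Fintype.card Om = br q (2 * k + 1) →
    (∀ i, (M i).IsSymm) → (M 0 = Matrix.of fun _ _ => 1) → M k = 1 →
    (∀ i ≤ k, ∀ x, M i x x = 1) →
    (∀ i, 1 ≤ i → i + 1 ≤ k → M i * M (k - 1) = M (i - 1) + (q : ℝ) • M i + (q ^ 2 : ℝ) • M (i + 1)) →
    (M (k - 1) * M 0 = (br q 3 : ℝ) • M 0) →
    ∀ a : ℝ, ff q a k = 0 → a ≠ br q 3 →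
      ∃ mu : ℕ, (∑ j ∈ Finset.range k, ((q : ℝ)⁻¹) ^ (2 * j) * (ff q a j) ^ 2) * mu =
        br q (2 * k + 1) * (∑ j ∈ Finset.range k, ((q : ℝ)⁻¹) ^ (2 * j) * ff q a j -
          ((q : ℝ)⁻¹) ^ (2 * (k - 1)) * ff q a (k - 1) / (br q 3 - a))

/-- SPEC2: the multiplicity formula is impossible (Niven). -/
def SPEC2 : Prop :=
  ∀ (q k : ℕ), 2 ≤ q → 2 ≤ k → ∀ a : ℝ, a = q + 2 * q * Real.cos (2 * Real.pi / (2 * k + 1)) →
    ff q a k = 0 ∧ a ≠ br q 3 ∧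
    ∀ mu : ℕ, (∑ j ∈ Finset.range k, ((q : ℝ)⁻¹) ^ (2 * j) * (ff q a j) ^ 2) * mu ≠
        br q (2 * k + 1) * (∑ j ∈ Finset.range k, ((q : ℝ)⁻¹) ^ (2 * j) * ff q a j -
          ((q : ℝ)⁻¹) ^ (2 * (k - 1)) * ff q a (k - 1) / (br q 3 - a))

/-- PFIN: end of the polygon case. -/
def PFIN : Prop :=
  ∀ (F : Type) [Field F] [Finite F] (W : Type) [AddCommGroup W] [Module F W]
    [FiniteDimensional F W] (G : Subgroup (W ≃ₗ[F] W)) (B N : Submodule F W → Submodule F W),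
    PG B N → NN G 2 N → PtTrans G → (∀ g ∈ G, ∀ x, Pt x → B (im g x) = im g (B x)) →
    5 ≤ finrank F W →
    (∀ i, 2 * i ≤ finrank F W → ∀ x, Pt x → finrank F (Be B N i x) + 2 * i = finrank F W) →
    (∀ i, 1 ≤ i → 2 * i + 2 ≤ finrank F W → Ai B N i) → False

/-! ### blocks -/

/-- BLK: the block lemma. -/
def BLK : Prop :=
  ∀ (F : Type) [Field F] [Finite F] (V : Type) [AddCommGroup V] [Module F V]
    [FiniteDimensional F V] (K : Subgroup (V ≃ₗ[F] V)), 3 ≤ finrank F V → TwoTrans K →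
    ∀ (Z : Submodule F V → Submodule F V → Submodule F V) (e : ℕ), 2 ≤ e → e + 1 < finrank F V →
      (∀ k ∈ K, ∀ P L, Pt P → Ln L → P ≤ L → Z (im k P) (im k L) = im k (Z P L)) →
      (∀ P L, Pt P → Ln L → P ≤ L → L ≤ Z P L ∧ finrank F (Z P L) = e + 1) →
      (∀ P L M, Pt P → Ln L → Ln M → P ≤ L → P ≤ M → M ≤ Z P L → Z P M = Z P L) →
      (∀ P L P' M, Pt P → Ln L → P ≤ L → Pt P' → Ln M → P' ≤ M → M ≤ Z P L → Z P' M = Z P L) ∧
      (∀ P L, Pt P → Ln L → P ≤ L → TwoTrans (sGrp K (Z P L))) ∧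
      br (Nat.card F) (e + 1) * br (Nat.card F) e ≤ br (Nat.card F) (finrank F V - 1)

/-- STB: a stable term of the chain vanishes (polygon case, uses the induction hypothesis). -/
def STB : Prop :=
  ∀ (F : Type) [Field F] [Finite F] (V : Type) [AddCommGroup V] [Module F V]
    [FiniteDimensional F V] (K : Subgroup (V ≃ₗ[F] V)), 4 ≤ finrank F V → TwoTrans K →
    (∀ j, 2 ≤ j → j < finrank F V → MT F j) →
    (∀ P, Pt P → PG (Bc (qGrp K P)) (Nc (qGrp K P)) ∧ NN (qGrp K P) 2 (Nc (qGrp K P)) ∧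
      BC (qGrp K P) 2 (Bc (qGrp K P)) (Cc (qGrp K P))) →
    ∀ P, Pt P → ∀ i, 1 ≤ i →
      (∀ x, Pt x → Be (Bc (qGrp K P)) (Nc (qGrp K P)) (i + 1) x =
        Be (Bc (qGrp K P)) (Nc (qGrp K P)) i x) →
      ∀ x, Pt x → Be (Bc (qGrp K P)) (Nc (qGrp K P)) i x = ⊥

/-! ### spread case -/

/-- SP1: spread geometry. -/
def SP1 : Prop :=
  ∀ (F : Type) [Field F] [Finite F] (W : Type) [AddCommGroup W] [Module F W]
    [FiniteDimensional F W] (G : Subgroup (W ≃ₗ[F] W)) (c : ℕ) (B C N L),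
    WS G c c B C N L → 2 ≤ c → 2 * c + 1 ≤ finrank F W →
    (∀ x, Pt x → N x ≤ B x) →
    (∀ x H, Pt x → Hy H → x ≤ C H → L H ≤ B x ∧ C H ≤ N x) →
    (∀ x y, Pt x → Pt y → y ≤ N x → y ≠ x → finrank F ↥(B x ⊔ B y) + c = finrank F W + 1) →
    (∀ x Y, Pt x → x ≤ Y → Y ≤ N x → finrank F Y = c → ∃! H, Hy H ∧ B x ≤ H ∧ C H = Y) →
    (∀ x y, Pt x → Pt y → y ≤ N x → N y = N x) →
    ∃ D, SG (c + 1) B N D

/-- SP2: the spread is geometric, and `a` divides the dimension. -/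
def SP2 : Prop :=
  ∀ (F : Type) [Field F] [Finite F] (W : Type) [AddCommGroup W] [Module F W]
    [FiniteDimensional F W] (a : ℕ) (B N D : Submodule F W → Submodule F W), SG a B N D →
    (∀ x y z, Pt x → Pt y → Pt z → z ≤ N x ⊔ N y → N z ≤ N x ⊔ N y) ∧
    (1 ≤ finrank F W → a ∣ finrank F W)

/-- the linear isomorphism `φ : N₁ ≃ N₂` has a spread element as graph -/
def IsSpr {F : Type} [Field F] {W : Type} [AddCommGroup W] [Module F W]
    (N : Submodule F W → Submodule F W) (U U' : Submodule F W) (φ : U →ₗ[F] U') : Prop :=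
  ∀ u : U, u ≠ 0 → ∀ w : W, w ∈ N (F ∙ ((u : W) + (φ u : W))) ↔ ∃ u' : U, w = u' + (φ u' : W)

/-- SP3: a geometric spread in dimension at least `3a` comes from a field. -/
def SP3 : Prop :=
  ∀ (F : Type) [Field F] [Finite F] (W : Type) [AddCommGroup W] [Module F W]
    [FiniteDimensional F W] (a : ℕ) (N : Submodule F W → Submodule F W), 1 ≤ a →
    3 * a ≤ finrank F W →
    (∀ x, Pt x → finrank F (N x) = a) → (∀ x, Pt x → x ≤ N x) →
    (∀ x y, Pt x → Pt y → y ≤ N x → N y = N x) →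
    (∀ x y z, Pt x → Pt y → Pt z → z ≤ N x ⊔ N y → N z ≤ N x ⊔ N y) →
    ∀ x y, Pt x → Pt y → N x ≠ N y →
      ∃ (Th : Subalgebra F (Module.End F (N x))) (φ₀ : N x ≃ₗ[F] N y),
        finrank F Th = a ∧ (∀ s ∈ Th, ∀ t ∈ Th, s * t = t * s) ∧
        (∀ t ∈ Th, t ≠ 0 → ∃ s ∈ Th, s * t = 1) ∧
        (∀ t ∈ Th, t ≠ 0 → IsSpr N (N x) (N y) ((φ₀ : N x →ₗ[F] N y) ∘ₗ t)) ∧
        (∀ u v : N x, u ≠ 0 → ∃ t ∈ Th, t u = v)

/-- SP4: the spread case with `m ≥ 3a` is impossible. -/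
def SP4 : Prop :=
  ∀ (F : Type) [Field F] [Finite F] (W : Type) [AddCommGroup W] [Module F W]
    [FiniteDimensional F W] (a : ℕ) (B N D : Submodule F W → Submodule F W), SG a B N D →
    (∀ x y z, Pt x → Pt y → Pt z → z ≤ N x ⊔ N y → N z ≤ N x ⊔ N y) →
    3 * a ≤ finrank F W → False

/-! ### the case `c = 1` -/

/-- NPOL: null polarities come from alternating forms. -/
def NPOL : Prop :=
  ∀ (F : Type) [Field F] (V : Type) [AddCommGroup V] [Module F V]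
    [FiniteDimensional F V] (B : Submodule F V → Submodule F V),
    (∀ x, Pt x → Hy (B x) ∧ x ≤ B x) → (∀ x y, Pt x → Pt y → y ≤ B x → x ≤ B y) →
    ∃ w : V →ₗ[F] V →ₗ[F] F, (∀ x, w x x = 0) ∧
      ∀ x, x ≠ 0 → LinearMap.ker (w x) = B (F ∙ x)

/-- GLUE: gluing the forms on the quotients `V/P`. -/
def GLUE : Prop :=
  ∀ (F : Type) [Field F] [Finite F] (V : Type) [AddCommGroup V] [Module F V]
    [FiniteDimensional F V] (Z : Submodule F V → Submodule F V), 3 ≤ finrank F V →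
    (∀ L, Ln L → L ≤ Z L ∧ Hy (Z L)) →
    (∀ L M E, Ln L → Ln M → Pl E → L ≤ E → M ≤ E → E ≤ Z L → E ≤ Z M) →
    ∃ t : V →ₗ[F] V →ₗ[F] V →ₗ[F] F, (∀ p x, t p x x = 0) ∧ (∀ p x, t p p x = 0) ∧
      ∀ p x, p ≠ 0 → (t p x = 0 ↔ x ∈ F ∙ p)

/-- NTRI: no such trilinear form in dimension at least 4. -/
def NTRI : Prop :=
  ∀ (F : Type) [Field F] [Finite F] (V : Type) [AddCommGroup V] [Module F V]
    [FiniteDimensional F V], 4 ≤ finrank F V →
    ∀ t : V →ₗ[F] V →ₗ[F] V →ₗ[F] F, (∀ p x, t p x x = 0) → (∀ p x, t p p x = 0) →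
      (∀ p x, p ≠ 0 → (t p x = 0 ↔ x ∈ F ∙ p)) → False

/-! ### duality -/

/-- D1 -/
def D1 : Prop :=
  ∀ (F : Type) [Field F] (V : Type) [AddCommGroup V] [Module F V]
    [FiniteDimensional F V] (K : Subgroup (V ≃ₗ[F] V)), TwoTransHy K → TwoTrans (dGrp K)

/-- D2 -/
def D2 : Prop :=
  ∀ (F : Type) [Field F] (V : Type) [AddCommGroup V] [Module F V]
    [FiniteDimensional F V] (K : Subgroup (V ≃ₗ[F] V)) (c : ℕ), 1 ≤ finrank F V →
    (ParC K c → ParB (dGrp K) c) ∧ (ParB K c → ParC (dGrp K) c)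

/-- PCB -/
def PCB : Prop :=
  ∀ (F : Type) [Field F] [Finite F] (V : Type) [AddCommGroup V] [Module F V]
    [FiniteDimensional F V] (K : Subgroup (V ≃ₗ[F] V)) (c : ℕ), 3 ≤ finrank F V →
    ((∀ P, Pt P → ∃ B C, BC (qGrp K P) c B C) → ParC K c) ∧
    ((∀ H, Hy H → ∃ B C, BC (sGrp K H) c B C) → ParB K c)

/-- PUN -/
def PUN : Prop :=
  ∀ (F : Type) [Field F] [Finite F] (V : Type) [AddCommGroup V] [Module F V]
    [FiniteDimensional F V] (K : Subgroup (V ≃ₗ[F] V)) (c c' : ℕ), 3 ≤ finrank F V → 1 ≤ c →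
    (ParC K c → ∀ P, Pt P → ∀ B C, BC (qGrp K P) c' B C → c = c') ∧
    (ParB K c → ∀ H, Hy H → ∀ B C, BC (sGrp K H) c' B C → c = c')

/-- CST: the parameter `c` does not depend on the point (hyperplane). -/
def CST : Prop :=
  ∀ (F : Type) [Field F] [Finite F] (V : Type) [AddCommGroup V] [Module F V]
    [FiniteDimensional F V] (K : Subgroup (V ≃ₗ[F] V)), 3 ≤ finrank F V → PtTrans K →
    HyTrans K →
    (∀ P P' c c' B C B' C', Pt P → Pt P' → BC (qGrp K P) c B C → BC (qGrp K P') c' B' C' →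
      c = c') ∧
    (∀ H H' c c' B C B' C', Hy H → Hy H' → BC (sGrp K H) c B C → BC (sGrp K H') c' B' C' →
      c = c')

end GL4
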