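import Pool.Agent.Helper79.GL4.Lib2

/-!
# GL4: goals, part R (representation theory) (MP_27a5f8_al)
-/

set_option linter.unusedVariables false

namespace GL4

open Module Submodule
open scoped ComplexOrder

/-- `χ` is the character of an irreducible (finite-dimensional, complex) representation of `G`. -/
def IsIrr {G : Type} [Group G] (χ : G → ℂ) : Prop :=
  ∃ (V : Type) (_ : AddCommGroup V) (_ : Module ℂ V) (_ : FiniteDimensional ℂ V)
    (ρ : Representation ℂ G V), ρ.IsIrreducible ∧ χ = ρ.character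

/-- the inner product `⟨f₁, f₂⟩_K = 1/|K| ∑_{g ∈ K} f₁(g) conj(f₂(g))` -/
noncomputable def ip {G : Type} [Group G] (K : Subgroup G) (f₁ f₂ : G → ℂ) : ℂ :=
  (Nat.card K : ℂ)⁻¹ * ∑ᶠ g : K, f₁ (g : G) * (starRingEnd ℂ) (f₂ (g : G))

/-- `χ` marks `K`: the restriction of `χ` to `K` contains the trivial character. -/
def Marks {G : Type} [Group G] (χ : G → ℂ) (K : Subgroup G) : Prop := 0 < ip K χ 1

/-- permutation character -/
noncomputable def pc (G X : Type) [Group G] [MulAction G X] (g : G) : ℂ :=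
  (Nat.card (MulAction.fixedBy X g) : ℂ)

/-- number of orbits -/
noncomputable def orb (G X : Type) [Group G] [MulAction G X] : ℕ :=
  Nat.card (MulAction.orbitRel.Quotient G X)

open Classical in
/-- CH: the irreducible characters of a finite group. -/
def CH : Prop :=
  ∀ (G : Type) [Group G] [Finite G], ∃ I : Finset (G → ℂ),
    (∀ χ, χ ∈ I ↔ IsIrr χ) ∧
    (∀ χ ∈ I, ∀ K : Subgroup G, ∃ m : ℕ, ip K χ 1 = m) ∧
    (∀ χ ∈ I, ∀ χ' ∈ I, ip ⊤ χ χ' = if χ = χ' then 1 else 0) ∧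
    (∀ (V : Type) [AddCommGroup V] [Module ℂ V] [FiniteDimensional ℂ V]
      (ρ : Representation ℂ G V), ∃ m : (G → ℂ) → ℕ, ρ.character = ∑ χ ∈ I, (m χ : ℂ) • χ)

/-- PCH: permutation characters. -/
def PCH : Prop :=
  ∀ (G : Type) [Group G] [Finite G] (X : Type) [Finite X] [MulAction G X],
    (∃ (V : Type) (_ : AddCommGroup V) (_ : Module ℂ V) (_ : FiniteDimensional ℂ V)
      (ρ : Representation ℂ G V), ρ.character = pc G X) ∧
    (∀ K : Subgroup G, ip K (pc G X) 1 = orb K X) ∧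
    (∀ (Y : Type) [Finite Y] [MulAction G Y], ip ⊤ (pc G X) (pc G Y) = orb G (X × Y))

/-- the set of nontrivial irreducible constituents of the permutation character of `X` -/
def Con (G X : Type) [Group G] [MulAction G X] : Set (G → ℂ) :=
  {χ | IsIrr χ ∧ χ ≠ 1 ∧ ip ⊤ (pc G X) χ ≠ 0}

/-- SC: constituents of permutation characters. -/
def SC : Prop :=
  ∀ (G : Type) [Group G] [Finite G],
    (∀ (X : Type) [Finite X] [MulAction G X], (Con G X).Finite) ∧
    (∀ (X : Type) [Finite X] [MulAction G X], orb G X = 1 →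
      ∀ K : Subgroup G, (∀ χ ∈ Con G X, ¬ Marks χ K) → orb K X = 1) ∧
    (∀ (X Y : Type) [Finite X] [MulAction G X] [Finite Y] [MulAction G Y], orb G X = 1 →
      orb G Y = 1 → orb G (Y × Y) = 2 → 2 ≤ orb G (X × Y) → Con G Y ⊆ Con G X) ∧
    (∀ (X Y : Type) [Finite X] [MulAction G X] [Finite Y] [MulAction G Y], orb G X = 1 →
      orb G Y = 1 → orb G (Y × Y) = 2 → 3 ≤ orb G (X × Y) → orb G (X × X) ≤ 7 →
      (Con G X).ncard ≤ 3) ∧
    (∀ (X : Type) [Finite X] [MulAction G X], orb G X = 1 → orb G (X × X) ≤ 2 →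
      (Con G X).ncard ≤ 1) ∧
    (∀ (X Y : Type) [Finite X] [MulAction G X] [Finite Y] [MulAction G Y], orb G X = 1 →
      orb G Y = 1 → orb G (X × X) ≤ 3 → orb G (Y × Y) ≤ 3 → 2 ≤ orb G (X × Y) →
      (Con G X ∪ Con G Y).ncard ≤ 3)

/-- ML (monomial representations).  `T` acts freely on `X` and commutes with `G`; `lam` is a linear
character of `T`. -/
def ML : Prop :=
  ∀ (G T X : Type) [Group G] [Finite G] [Group T] [Finite T] [Finite X] [Nonempty X]
    [MulAction G X] [MulAction T X] [SMulCommClass G T X] (lam : T →* ℂˣ),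
    (∀ (t : T) (x : X), t • x = x → t = 1) →
    (∀ x y : X, ∃ (g : G) (t : T), g • x = t • y) →
    (∀ x y : X, (¬ ∃ t : T, t • x = y) →
      ∃ (g : G) (s t : T), g • x = s • x ∧ g • y = t • y ∧ lam s ≠ lam t) →
    (∃ (x : X) (g : G) (s : T), g • x = s • x ∧ lam s ≠ 1) →
    ∃ χ : G → ℂ, IsIrr χ ∧ χ ≠ 1 ∧
      ∀ K : Subgroup G, ¬ Marks χ K → ∀ x : X, ∃ k ∈ K, ∃ t : T, k • x = t • x ∧ lam t ≠ 1

/-- AL: existence of a suitable linear character of the multiplicative group. -/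
def AL : Prop :=
  ∀ (F : Type) [Field F] [Finite F], 4 ≤ Nat.card F →
    ∃ al : Fˣ →* ℂˣ, (∃ t, al (t ^ 2) ≠ 1) ∧ (7 ≤ Nat.card F → al (-1) = 1)

/-- EA: the principal series character. -/
def EA : Prop :=
  ∀ (F : Type) [Field F] [Finite F] (V : Type) [AddCommGroup V] [Module F V]
    [FiniteDimensional F V], 2 ≤ finrank F V → ∀ al : Fˣ →* ℂˣ, (∃ t, al (t ^ 2) ≠ 1) →
    ∃ χ : (V ≃ₗ[F] V) → ℂ, IsIrr χ ∧ χ ≠ 1 ∧
      ∀ K : Subgroup (V ≃ₗ[F] V), ¬ Marks χ K →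
        ∀ P L : Submodule F V, Pt P → Ln L → P ≤ L →
          ∃ k ∈ K, ∃ a b : Fˣ, (∀ v ∈ P, k v = (a : F) • v) ∧
            (∀ v ∈ L, k v ∈ L ∧ k v - (b : F) • v ∈ P) ∧ al (a / b) ≠ 1

/-- ES2: the sign character of the lines over the field with two elements. -/
def ES2 : Prop :=
  ∀ (F : Type) [Field F] [Finite F] (V : Type) [AddCommGroup V] [Module F V]
    [FiniteDimensional F V], 2 ≤ finrank F V → Nat.card F = 2 →
    ∃ χ : (V ≃ₗ[F] V) → ℂ, IsIrr χ ∧ χ ≠ 1 ∧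
      ∀ K : Subgroup (V ≃ₗ[F] V), ¬ Marks χ K → ∀ L : Submodule F V, Ln L →
        ∃ k ∈ K, im k L = L ∧ ∃ P Q : Submodule F V, Pt P ∧ Pt Q ∧ P ≤ L ∧ Q ≤ L ∧
          im k P = P ∧ im k Q ≠ Q

/-- ES3: the cubic character of the lines over the field with three elements. -/
def ES3 : Prop :=
  ∀ (F : Type) [Field F] [Finite F] (V : Type) [AddCommGroup V] [Module F V]
    [FiniteDimensional F V], 2 ≤ finrank F V → Nat.card F = 3 →
    ∃ χ : (V ≃ₗ[F] V) → ℂ, IsIrr χ ∧ χ ≠ 1 ∧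
      ∀ K : Subgroup (V ≃ₗ[F] V), ¬ Marks χ K → ∀ L : Submodule F V, Ln L →
        ∃ k ∈ K, im k L = L ∧ ∃ P Q : Submodule F V, Pt P ∧ Pt Q ∧ P ≤ L ∧ Q ≤ L ∧
          im k P = P ∧ im k Q ≠ Q ∧ im k (im k Q) ≠ Q

/-- N2: twisting by the quadratic character of the determinant (dimension 2, `q` odd). -/
def N2 : Prop :=
  ∀ (F : Type) [Field F] [Finite F] (V : Type) [AddCommGroup V] [Module F V]
    [FiniteDimensional F V], finrank F V = 2 → ringChar F ≠ 2 →
    ∃ S : Set ((V ≃ₗ[F] V) → ℂ), S.Finite ∧ S.ncard ≤ 2 ∧ (∀ χ ∈ S, IsIrr χ ∧ χ ≠ 1) ∧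
      ∀ K : Subgroup (V ≃ₗ[F] V), PtTrans K → (∀ χ ∈ S, ¬ Marks χ K) →
        ∀ P : Submodule F V, Pt P → ∃ k ∈ K, im k P = P ∧
          ¬ IsSquare (LinearMap.det (k : V →ₗ[F] V))

/-- Q5: the character of degree 4 of `GL₂(5)`. -/
def Q5 : Prop :=
  ∀ (F : Type) [Field F] [Finite F] (V : Type) [AddCommGroup V] [Module F V]
    [FiniteDimensional F V], finrank F V = 2 → Nat.card F = 5 →
    ∃ χ : (V ≃ₗ[F] V) → ℂ, IsIrr χ ∧ χ ≠ 1 ∧
      ∀ K : Subgroup (V ≃ₗ[F] V), ¬ Marks χ K → 5 ∣ Nat.card K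

/-! ### the sets of points, lines and flags -/

section sets
variable (F : Type) [Field F] (V : Type) [AddCommGroup V] [Module F V]

/-- the set of points -/
def Pts : Type := {x : Submodule F V // Pt x}
/-- the set of lines -/
def Lns : Type := {x : Submodule F V // Ln x}
/-- the set of incident point-line pairs -/
def Flg : Type := {f : Submodule F V × Submodule F V // Pt f.1 ∧ Ln f.2 ∧ f.1 ≤ f.2}

instance : MulAction (V ≃ₗ[F] V) (Pts F V) where
  smul g x := ⟨im g x.1, Pt.im x.2⟩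
  one_smul x := Subtype.ext (im_one x.1)
  mul_smul g h x := Subtype.ext (im_mul g h x.1)

instance : MulAction (V ≃ₗ[F] V) (Lns F V) where
  smul g x := ⟨im g x.1, Ln.im x.2⟩
  one_smul x := Subtype.ext (im_one x.1)
  mul_smul g h x := Subtype.ext (im_mul g h x.1)

instance : MulAction (V ≃ₗ[F] V) (Flg F V) where
  smul g x := ⟨(im g x.1.1, im g x.1.2), Pt.im x.2.1, Ln.im x.2.2.1, im_mono g x.2.2.2⟩
  one_smul x := Subtype.ext (Prod.ext (im_one x.1.1) (im_one x.1.2))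
  mul_smul g h x := Subtype.ext (Prod.ext (im_mul g h x.1.1) (im_mul g h x.1.2))

instance [Finite F] [FiniteDimensional F V] : Finite (Pts F V) := inferInstanceAs (Finite {x : Submodule F V // Pt x})
instance [Finite F] [FiniteDimensional F V] : Finite (Lns F V) := inferInstanceAs (Finite {x : Submodule F V // Ln x})
instance [Finite F] [FiniteDimensional F V] : Finite (Flg F V) :=
  inferInstanceAs (Finite {f : Submodule F V × Submodule F V // Pt f.1 ∧ Ln f.2 ∧ f.1 ≤ f.2})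

end sets

/-- GLO: orbits of the full linear group on points, lines and flags. -/
def GLO : Prop :=
  ∀ (F : Type) [Field F] [Finite F] (V : Type) [AddCommGroup V] [Module F V]
    [FiniteDimensional F V], 2 ≤ finrank F V →
    orb (V ≃ₗ[F] V) (Pts F V) = 1 ∧ orb (V ≃ₗ[F] V) (Pts F V × Pts F V) = 2 ∧
    orb (V ≃ₗ[F] V) (Lns F V) = 1 ∧ orb (V ≃ₗ[F] V) (Flg F V) = 1 ∧
    orb (V ≃ₗ[F] V) (Flg F V × Flg F V) ≤ 7 ∧ orb (V ≃ₗ[F] V) (Lns F V × Lns F V) ≤ 3 ∧
    (3 ≤ finrank F V → 3 ≤ orb (V ≃ₗ[F] V) (Flg F V × Pts F V) ∧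
      2 ≤ orb (V ≃ₗ[F] V) (Lns F V × Pts F V))

/-- OB: from orbit numbers of a subgroup to transitivity. -/
def OB : Prop :=
  ∀ (F : Type) [Field F] [Finite F] (V : Type) [AddCommGroup V] [Module F V]
    [FiniteDimensional F V] (K : Subgroup (V ≃ₗ[F] V)),
    (orb K (Pts F V) = 1 → PtTrans K) ∧
    (orb K (Lns F V) = 1 → ∀ L L' : Submodule F V, Ln L → Ln L' → ∃ k ∈ K, im k L = L') ∧
    (orb K (Flg F V) = 1 → FlagPL K)

/-! ### GL₄(2) -/

/-- F28: the set of the 28 nondegenerate alternating forms on `F₂⁴`. -/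
def F28 : Prop :=
  ∀ (F : Type) [Field F] [Finite F] (V : Type) [AddCommGroup V] [Module F V]
    [FiniteDimensional F V], finrank F V = 4 → Nat.card F = 2 →
    ∃ (Z : Type) (_ : Finite Z) (_ : MulAction (V ≃ₗ[F] V) Z), Nat.card Z = 28 ∧
      orb (V ≃ₗ[F] V) Z = 1 ∧ orb (V ≃ₗ[F] V) (Z × Z) ≤ 3 ∧ 2 ≤ orb (V ≃ₗ[F] V) (Lns F V × Z)

/-- N45: `GL₄(2)` has no subgroup of order 45 and no subgroup of order 90. -/
def N45 : Prop :=
  ∀ (F : Type) [Field F] [Finite F] (V : Type) [AddCommGroup V] [Module F V]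
    [FiniteDimensional F V], finrank F V = 4 → Nat.card F = 2 →
    ∀ T : Subgroup (V ≃ₗ[F] V), Nat.card T ≠ 45 ∧ Nat.card T ≠ 90

end GL4
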