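import Pool.Agent.Helper79.GL4.GoalsA
import Pool.Agent.Helper79.GL4.GoalsB

/-!
# GL4: assembly, part 1 (MP_27a5f8_al)
-/

set_option linter.unusedVariables false

namespace GL4

open Module Submodule

theorem exists_pt {F : Type} [Field F] {V : Type} [AddCommGroup V] [Module F V]
    (h : 1 ≤ finrank F V) : ∃ x : Submodule F V, Pt x := by
  have : (⊤ : Submodule F V) ≠ ⊥ := by
    intro hc
    rw [← finrank_top F V, hc, finrank_bot] at h
    omega
  obtain ⟨x, hx, _⟩ := exists_pt_le this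
  exact ⟨x, hx⟩

theorem two_le_card {F : Type} [Field F] [Finite F] : 2 ≤ Nat.card F := Finite.one_lt_card

section step5
variable (hBR2 : BR2) (hSLG : SLG) (hTRV : TRV) (hS5A : S5A) (hB1 : S5B1) (hB2 : S5B2)
  (hB3 : S5B3) (hC : S5C)

include hBR2 hSLG hTRV hS5A hB1 hB2 hB3 hC in
theorem step5 {F : Type} [Field F] [Finite F] {V : Type} [AddCommGroup V] [Module F V]
    [FiniteDimensional F V] (K : Subgroup (V ≃ₗ[F] V)) (hn : 4 ≤ finrank F V) (hK : TwoTrans K)
    (P : Submodule F V) (hP : Pt P) (hq : TwoTrans (qGrp K P)) (hMT : MT F (finrank F V - 1)) :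
    HasSL K ∨ (finrank F V = 4 ∧ Nat.card F = 2 ∧ Nat.card K = 2520) := by
  obtain ⟨-, hFl, hAn⟩ := hBR2 F V K (by omega) hK
  by_cases hT : ∃ g ∈ K, IsTransv g
  · left
    exact hSLG F V K (hTRV F V K (by omega) hFl hT)
  · have hT' : ∀ g ∈ K, ¬ IsTransv g := fun g hg h => hT ⟨g, hg, h⟩
    have hFa : FaithQ K P := hS5A F V K (by omega) hAn hT' P hP
    have hd : finrank F (V ⧸ P) = finrank F V - 1 := by
      have := Submodule.finrank_quotient_add_finrank P
      rw [Pt] at hP
      omega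
    obtain ⟨p, hp0, rfl⟩ := hP.exists_span
    rcases hMT (V ⧸ (F ∙ p)) hd (qGrp K (F ∙ p)) hq with hSL | ⟨h4, h2, h25⟩
    · have hL : LiftData K (F ∙ p) p := hB1 F V K p hp0 hSL hFa
      rcases Nat.lt_or_ge (finrank F V) 5 with h5 | h5
      · have h4 : finrank F V = 4 := by omega
        rcases Nat.lt_or_ge (Nat.card F) 3 with h3 | h3
        · right
          have h2 : Nat.card F = 2 := by
            have := two_le_card (F := F); omega
          exact ⟨h4, h2, (hC F V K (F ∙ p) hP h2 hK hFa).1 h4 hSL⟩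
        · exact absurd (hB3 F V K p hp0 hFa hL h4 h3) hT
      · exact absurd (hB2 F V K p hp0 hFa hL h5) hT
    · exact absurd h25 ((hC F V K (F ∙ p) hP h2 hK hFa).2 (by omega))

end step5

/-- parameter `c = m - 1`: 2-transitive. -/
theorem twoTrans_of_BC {F : Type} [Field F] {W : Type} [AddCommGroup W] [Module F W]
    [FiniteDimensional F W] (G : Subgroup (W ≃ₗ[F] W)) (c : ℕ) (B C) (h : BC G c B C)
    (hc : c + 1 = finrank F W) : TwoTrans G := by
  have hB : ∀ x, Pt x → B x = x := by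
    intro x hx
    have h1 := h.dimB x hx
    have h2 : Pt (B x) := by rw [Pt]; omega
    exact (hx.eq_of_le h2 (h.selfB x hx)).symm
  intro x y x' y' hx hy hx' hy' hxy hxy'
  obtain ⟨g, hg, hgx⟩ := h.ptT x x' hx hx'
  have hgy : im g y ≠ x' := by
    intro he
    apply hxy
    have : im g y = im g x := by rw [he, hgx]
    exact ((im_inj g).1 this).symm
  obtain ⟨k, hk, hkx, hky⟩ := h.trB x' (im g y) y' hx' hy.im hy'
    (by rw [hB x' hx']; intro hle; exact hgy (hy.im.eq_of_le hx' hle))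
    (by rw [hB x' hx']; intro hle; exact hxy' (hy'.eq_of_le hx' hle).symm)
  refine ⟨k * g, G.mul_mem hk hg, ?_, ?_⟩
  · rw [im_mul, hgx, hkx]
  · rw [im_mul, hky]

section cone
variable (hTRZ : TRZ) (hLFT : LFT) (hNAT : NAT) (hGLUE : GLUE) (hNTRI : NTRI)

include hNAT in
theorem natl_Bc (F : Type) [Field F] : Natl F (fun W _ _ G x => Bc G x) := by
  intro W W' _ _ _ _ φ G G' h x
  exact (hNAT F W W' φ G G' h x).1

include hNAT in
theorem natl_Nc (F : Type) [Field F] : Natl F (fun W _ _ G x => Nc G x) := by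
  intro W W' _ _ _ _ φ G G' h x
  exact (hNAT F W W' φ G G' h x).2.2.1

include hTRZ hLFT hNAT hGLUE hNTRI in
theorem cone {F : Type} [Field F] [Finite F] {V : Type} [AddCommGroup V] [Module F V]
    [FiniteDimensional F V] (K : Subgroup (V ≃ₗ[F] V)) (hn : 4 ≤ finrank F V) (hK : TwoTrans K)
    (hBC : ∀ P, Pt P → BC (qGrp K P) 1 (Bc (qGrp K P)) (Cc (qGrp K P))) : False := by
  let D : ∀ (W : Type) [AddCommGroup W] [Module F W], Subgroup (W ≃ₗ[F] W) → Submodule F W →
    Submodule F W := fun W _ _ G x => Bc G x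
  have hD : Natl F D := natl_Bc hNAT F
  let Z : Submodule F V → Submodule F V → Submodule F V := fun P L => lft D K P L
  have hZeq : ∀ k ∈ K, ∀ P L, Pt P → Ln L → P ≤ L → Z (im k P) (im k L) = im k (Z P L) :=
    fun k hk P L _ _ _ => (hLFT F D hD V K k hk).1 P L
  have hZL : ∀ P L, Pt P → Ln L → P ≤ L → L ≤ Z P L := by
    intro P L hP hL hPL
    have hx : Pt (L.map P.mkQ) := hL.down hPL hP
    have := (hBC P hP).selfB _ hx
    exact down_le_iff.1 this
  have hZH : ∀ P L, Pt P → Ln L → P ≤ L → Hy (Z P L) := by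
    intro P L hP hL hPL
    have hx : Pt (L.map P.mkQ) := hL.down hPL hP
    have h1 := (hBC P hP).dimB _ hx
    have : Hy (Bc (qGrp K P) (L.map P.mkQ)) := by rw [Hy]; omega
    exact this.up
  obtain ⟨h1, h2⟩ := hTRZ F V K (by omega) hK Z hZeq hZL
  have hex : ∀ L : Submodule F V, Ln L → ∃ P, Pt P ∧ P ≤ L := by
    intro L hL
    apply exists_pt_le
    rintro rfl
    rw [Ln, finrank_bot] at hL
    omega
  let Z' : Submodule F V → Submodule F V := fun L =>
    open Classical in if h : Ln L then Z (hex L h).choose L else ⊤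
  have hZ' : ∀ L (h : Ln L), Z' L = Z (hex L h).choose L := by
    intro L h
    simp only [Z', dif_pos h]
  obtain ⟨t, ht1, ht2, ht3⟩ := hGLUE F V Z' (by omega)
    (by
      intro L hL
      obtain ⟨hP, hPL⟩ := (hex L hL).choose_spec
      rw [hZ' L hL]
      exact ⟨hZL _ _ hP hL hPL, hZH _ _ hP hL hPL⟩)
    (by
      intro L M E hL hM hE hLE hME h
      obtain ⟨hP, hPL⟩ := (hex L hL).choose_spec
      obtain ⟨hP', hPM⟩ := (hex M hM).choose_spec
      rw [hZ' L hL] at h
      rw [hZ' M hM]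
      exact (h1 _ _ _ _ E hP hL hPL hP' hM hPM hE hLE hME).1 h)
  exact hNTRI F V hn t ht1 ht2 ht3

end cone

end GL4
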