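import Pool.Agent.Helper79.GL4.Asm1

/-!
# GL4: assembly, part 2 (MP_27a5f8_al): the main theorem on 2-transitive linear groups
-/

set_option linter.unusedVariables false

namespace GL4

open Module Submodule

/-- all ingredients -/
structure AllH : Prop where
  br1 : BR1
  br2 : BR2
  slg : SLG
  trv : TRV
  mt2 : MT2
  ant : ANT
  mt3 : MT3
  trz : TRZ
  s5a : S5A
  s5b1 : S5B1
  s5b2 : S5B2
  s5b3 : S5B3
  s5c : S5C
  m2 : M2
  canb : CANB
  m7 : M7
  cann : CANN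
  nat : NAT
  lft : LFT
  link : LINK
  ltw : LTW
  e1 : E1
  e2 : E2
  e3 : E3
  pgf : PGF
  symc : SYMC
  pol1 : POL1
  pol2 : POL2
  pfin : PFIN
  blk : BLK
  stb : STB
  sp1 : SP1
  sp2 : SP2
  sp4 : SP4
  glue : GLUE
  ntri : NTRI
  d1 : D1
  d2 : D2
  pcb : PCB
  pun : PUN
  cst : CST

theorem pol_of (h1 : POL1) (h2 : POL2) : POL := by
  intro F _ _ W _ _ _ G B N hPG hNN hPt hB hm hst
  obtain ⟨hd2, hA1⟩ := h1 F W G B N hPG hNN hPt hB hm hst
  have key : ∀ i, 1 ≤ i → 2 * i + 2 ≤ finrank F W →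
      (∀ x, Pt x → finrank F (Be B N i x) + 2 * i = finrank F W) ∧
      (∀ x, Pt x → finrank F (Be B N (i + 1) x) + 2 * (i + 1) = finrank F W) ∧ Ai B N i := by
    intro i hi
    induction i, hi using Nat.le_induction with
    | base =>
      intro _
      refine ⟨fun x hx => ?_, fun x hx => ?_, hA1⟩
      · have := hPG.dimB x hx
        have e : Be B N 1 x = B x := rfl
        rw [e, mul_one]
        exact this
      · have := hd2 x hx
        simpa using this
    | succ i hi ih =>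
      intro h4
      obtain ⟨a1, a2, a3⟩ := ih (by omega)
      obtain ⟨b1, b2⟩ := h2 F W G B N hPG hNN hPt hB hst i hi (by omega) a1 a2 a3
      exact ⟨a2, b1, b2⟩
  refine ⟨fun i hi x hx => ?_, fun i hi hi2 => (key i hi hi2).2.2⟩
  match i with
  | 0 =>
    have e : Be B N 0 x = ⊤ := rfl
    rw [e, finrank_top, mul_zero, add_zero]
  | 1 =>
    have := hPG.dimB x hx
    have e : Be B N 1 x = B x := rfl
    rw [e, mul_one]
    exact this
  | (j + 2) =>
    have := (key (j + 1) (by omega) (by omega)).2.1 x hx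
    exact this

/-- the spread property at the point `P` -/
def SpreadAt {F : Type} [Field F] {V : Type} [AddCommGroup V] [Module F V]
    (K : Subgroup (V ≃ₗ[F] V)) (P : Submodule F V) : Prop :=
  ∀ x y : Submodule F (V ⧸ P), Pt x → Pt y → y ≤ Nc (qGrp K P) x →
    Nc (qGrp K P) y = Nc (qGrp K P) x

theorem pt_map {F : Type} [Field F] {W W' : Type} [AddCommGroup W] [Module F W]
    [AddCommGroup W'] [Module F W'] (φ : W ≃ₗ[F] W') {x : Submodule F W} :
    Pt (x.map (φ : W →ₗ[F] W')) ↔ Pt x := by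
  rw [Pt, Pt, LinearEquiv.finrank_map_eq]

theorem spread_transport (hN : NAT) (hL : LFT) {F : Type} [Field F] {V : Type} [AddCommGroup V]
    [Module F V] (K : Subgroup (V ≃ₗ[F] V)) (P P' : Submodule F V) (k : V ≃ₗ[F] V) (hk : k ∈ K)
    (hPP : im k P = P') (h : SpreadAt K P) : SpreadAt K P' := by
  obtain ⟨φ, -, hφ⟩ := (hL F (fun W _ _ G x => Bc G x) (natl_Bc hN F) V K k hk).2.1 P P' hPP
  intro x y hx hy hxy
  have e1 : ∀ z : Submodule F (V ⧸ P'), (z.map (φ.symm : (V ⧸ P') →ₗ[F] (V ⧸ P))).map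
      (φ : (V ⧸ P) →ₗ[F] (V ⧸ P')) = z := by
    intro z
    rw [← Submodule.map_comp]
    simp
  have hn : ∀ z : Submodule F (V ⧸ P), Nc (qGrp K P') (z.map (φ : (V ⧸ P) →ₗ[F] (V ⧸ P'))) =
      (Nc (qGrp K P) z).map (φ : (V ⧸ P) →ₗ[F] (V ⧸ P')) := fun z =>
    (hN F _ _ φ _ _ hφ z).2.2.1
  set x₀ := x.map (φ.symm : (V ⧸ P') →ₗ[F] (V ⧸ P)) with hx₀
  set y₀ := y.map (φ.symm : (V ⧸ P') →ₗ[F] (V ⧸ P)) with hy₀
  have hx1 : x₀.map (φ : (V ⧸ P) →ₗ[F] (V ⧸ P')) = x := e1 x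
  have hy1 : y₀.map (φ : (V ⧸ P) →ₗ[F] (V ⧸ P')) = y := e1 y
  have hxp : Pt x₀ := (pt_map φ.symm).2 hx
  have hyp : Pt y₀ := (pt_map φ.symm).2 hy
  rw [← hx1, ← hy1, hn] at hxy
  have hxy' : y₀ ≤ Nc (qGrp K P) x₀ :=
    (Submodule.map_le_map_iff_of_injective (f := (φ : (V ⧸ P) →ₗ[F] (V ⧸ P'))) φ.injective _ _).1 hxy
  rw [← hx1, ← hy1, hn, hn, h x₀ y₀ hxp hyp hxy']

theorem PtTrans_of_two {F : Type} [Field F] {V : Type} [AddCommGroup V] [Module F V]
    [FiniteDimensional F V] (K : Subgroup (V ≃ₗ[F] V)) (hn : 2 ≤ finrank F V) (hK : TwoTrans K) :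
    PtTrans K := by
  intro x y hx hy
  have ex : ∀ x : Submodule F V, Pt x → ∃ z, Pt z ∧ x ≠ z := by
    intro x hx
    have h1 : ¬ (⊤ : Submodule F V) ≤ x := by
      intro hc
      have : x = ⊤ := top_le_iff.1 hc
      rw [Pt, this, finrank_top] at hx
      omega
    obtain ⟨z, hz, -, hzx⟩ := exists_pt_not_le h1
    exact ⟨z, hz, fun he => hzx (he ▸ le_rfl)⟩
  obtain ⟨z, hz, hxz⟩ := ex x hx
  obtain ⟨w, hw, hyw⟩ := ex y hy
  obtain ⟨k, hk, h1, h2⟩ := hK x z y w hx hz hy hw hxz hyw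
  exact ⟨k, hk, h1⟩

theorem nobad (h : AllH) {F : Type} [Field F] [Finite F] {V : Type} [AddCommGroup V] [Module F V]
    [FiniteDimensional F V] (K : Subgroup (V ≃ₗ[F] V)) (hn : 4 ≤ finrank F V) (hK : TwoTrans K)
    (IH : ∀ j, 2 ≤ j → j < finrank F V → MT F j) (c c' : ℕ)
    (hP : ∀ P, Pt P → ∃ B C, BC (qGrp K P) c B C) (hH : ∀ H, Hy H → ∃ B C, BC (sGrp K H) c' B C)
    (hcc : c ≤ c') (hcn : c + 3 ≤ finrank F V) : False := by
  have hBC : ∀ P, Pt P → BC (qGrp K P) c (Bc (qGrp K P)) (Cc (qGrp K P)) := by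
    intro P h1
    obtain ⟨B, C, h2⟩ := hP P h1
    exact (h.canb F _ _ c B C h2).2.2
  have hm : ∀ P : Submodule F V, Pt P → finrank F (V ⧸ P) + 1 = finrank F V := by
    intro P h1
    have := Submodule.finrank_quotient_add_finrank P
    rw [Pt] at h1
    omega
  have hNN : ∀ P, Pt P → c' = c' ∧ NN (qGrp K P) c' (Nc (qGrp K P)) ∧
      ∃ L, WS (qGrp K P) c c' (Bc (qGrp K P)) (Cc (qGrp K P)) (Nc (qGrp K P)) L := by
    intro P h1
    have hm1 := hm P h1
    have hA := (h.ant F V K (by omega) hK).1 P h1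
    obtain ⟨n, N, h2⟩ := h.m7 F _ _ (by omega) hA
    have h3 := (h.cann F _ _ n N h2).2.1
    obtain ⟨h4, L, h5⟩ := h.link F V K P c n c' _ _ _ (by omega) hK h1 (hBC P h1) h3 hH
    subst h4
    exact ⟨rfl, h3, L, h5⟩
  obtain ⟨P₀, hP₀⟩ := exists_pt (F := F) (V := V) (by omega)
  -- a hyperplane through P₀
  obtain ⟨H₀, hH₀, hPH₀⟩ : ∃ H, Hy H ∧ P₀ ≤ H := by
    have h1 : ¬ (⊤ : Submodule F V) ≤ P₀ := by
      intro hc
      have : P₀ = ⊤ := top_le_iff.1 hc
      rw [Pt, this, finrank_top] at hP₀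
      omega
    obtain ⟨H, h2, h3, -⟩ := exists_hy_not_ge h1
    exact ⟨H, h2, h3⟩
  obtain ⟨B', C', hBC'⟩ := hH H₀ hH₀
  have hsum : c + c' + 2 ≤ finrank F V :=
    h.ltw F V K P₀ H₀ c c' _ _ _ _ (by omega) hP₀ hH₀ hPH₀ (hBC P₀ hP₀) hBC' hcn
  have hc1 := (hBC P₀ hP₀).c1
  rcases Nat.lt_or_ge c 2 with hc2 | hc2
  · have : c = 1 := by omega
    subst this
    exact cone h.trz h.lft h.nat h.glue h.ntri K hn hK hBC
  -- c ≥ 2
  have hE1 : ∀ P (hP1 : Pt P), (∀ x, Pt x → Nc (qGrp K P) x ≤ Bc (qGrp K P) x) ∧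
      ∃ L, WS (qGrp K P) c c' (Bc (qGrp K P)) (Cc (qGrp K P)) (Nc (qGrp K P)) L ∧
      (∀ x H, Pt x → Hy H → x ≤ Cc (qGrp K P) H → L H ≤ Bc (qGrp K P) x ∧
        Cc (qGrp K P) H ≤ Nc (qGrp K P) x) ∧ c' = c ∧
      (∀ x y, Pt x → Pt y → y ≤ Nc (qGrp K P) x → y ≠ x →
        finrank F ↥(Bc (qGrp K P) x ⊔ Bc (qGrp K P) y) + c = finrank F (V ⧸ P) + 1) := by
    intro P hP1
    have hm1 := hm P hP1
    obtain ⟨-, -, L, hWS⟩ := hNN P hP1
    obtain ⟨a1, a2⟩ := h.e1 F _ _ c c' _ _ _ L hWS hcc (by omega)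
    obtain ⟨b1, b2⟩ := h.e2 F _ _ c c' _ _ _ L hWS hc2 hcc (by omega) a2
    exact ⟨a1, L, hWS, a2, b1, b2⟩
  have hcc' : c' = c := (hE1 P₀ hP₀).2.choose_spec.2.2.1
  subst hcc'
  have hE3 : ∀ P (hP1 : Pt P), ∃ L,
      WS (qGrp K P) c' c' (Bc (qGrp K P)) (Cc (qGrp K P)) (Nc (qGrp K P)) L ∧
      (∀ x, Pt x → Nc (qGrp K P) x ≤ Bc (qGrp K P) x) ∧
      (∀ x H, Pt x → Hy H → x ≤ Cc (qGrp K P) H → L H ≤ Bc (qGrp K P) x ∧
        Cc (qGrp K P) H ≤ Nc (qGrp K P) x) ∧
      (∀ x y, Pt x → Pt y → y ≤ Nc (qGrp K P) x → y ≠ x →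
        finrank F ↥(Bc (qGrp K P) x ⊔ Bc (qGrp K P) y) + c' = finrank F (V ⧸ P) + 1) ∧
      (∀ x Y, Pt x → x ≤ Y → Y ≤ Nc (qGrp K P) x → finrank F Y = c' →
        ∃! H, Hy H ∧ Bc (qGrp K P) x ≤ H ∧ Cc (qGrp K P) H = Y) ∧
      (3 ≤ c' → SpreadAt K P) := by
    intro P hP1
    have hm1 := hm P hP1
    obtain ⟨a1, L, hWS, a2, -, a3⟩ := hE1 P hP1
    obtain ⟨b1, b2, b3⟩ := h.e3 F _ _ c' _ _ _ L hWS hc2 (by omega) a2 a3
    exact ⟨L, hWS, a1, a2, a3, b1, b3⟩
  have hPtT : PtTrans K := PtTrans_of_two K (by omega) hK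
  by_cases hsp : SpreadAt K P₀
  · -- spread case
    have hspA : ∀ P, Pt P → SpreadAt K P := by
      intro P hP1
      obtain ⟨k, hk, hkP⟩ := hPtT P₀ P hP₀ hP1
      exact spread_transport h.nat h.lft K P₀ P k hk hkP hsp
    obtain ⟨L, hWS, a1, a2, a3, a4, -⟩ := hE3 P₀ hP₀
    have hm1 := hm P₀ hP₀
    obtain ⟨D, hSG⟩ := h.sp1 F _ _ c' _ _ _ L hWS hc2 (by omega) a1 a2 a3 a4 hsp
    obtain ⟨hgeo, hdvd⟩ := h.sp2 F _ (c' + 1) _ _ D hSG
    have hd := hdvd (by omega)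
    obtain ⟨x₀, hx₀⟩ := exists_pt (F := F) (V := V ⧸ P₀) (by omega)
    have h2a : 2 * (c' + 1) ≤ finrank F (V ⧸ P₀) := by
      have e1 := hSG.dimD x₀ hx₀
      have e2 := hSG.dimN x₀ hx₀
      have e3 := Submodule.finrank_mono (hSG.ND x₀ hx₀)
      omega
    by_cases hm2 : finrank F (V ⧸ P₀) = 2 * (c' + 1)
    · -- m = 2a: block counting
      let D : ∀ (W : Type) [AddCommGroup W] [Module F W], Subgroup (W ≃ₗ[F] W) → Submodule F W →
        Submodule F W := fun W _ _ G x => Nc G x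
      have hD : Natl F D := natl_Nc h.nat F
      obtain ⟨-, -, hcount⟩ := h.blk F V K (by omega) hK (fun P L => lft D K P L) (c' + 1)
        (by omega) (by omega)
        (fun k hk P L _ _ _ => (h.lft F D hD V K k hk).1 P L)
        (by
          intro P L hP1 hL hPL
          have hx : Pt (L.map P.mkQ) := hL.down hPL hP1
          have hN := (hNN P hP1).2.1
          refine ⟨down_le_iff.1 (hN.selfN _ hx), ?_⟩
          have e1 := hN.dimN _ hx
          have e2 := finrank_up (P := P) (Nc (qGrp K P) (L.map P.mkQ))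
          rw [Pt] at hP1
          change finrank F ((Nc (qGrp K P) (L.map P.mkQ)).comap P.mkQ) = _
          omega)
        (by
          intro P L M hP1 hL hM hPL hPM hMZ
          have hx : Pt (L.map P.mkQ) := hL.down hPL hP1
          have hy : Pt (M.map P.mkQ) := hM.down hPM hP1
          have hle : M.map P.mkQ ≤ Nc (qGrp K P) (L.map P.mkQ) := down_le_iff.2 hMZ
          have := hspA P hP1 _ _ hx hy hle
          change (Nc (qGrp K P) (M.map P.mkQ)).comap P.mkQ =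
            (Nc (qGrp K P) (L.map P.mkQ)).comap P.mkQ
          rw [this])
      have hq : 2 ≤ Nat.card F := two_le_card
      have e1 : finrank F V - 1 = (c' + 1) + (c' + 1) := by omega
      rw [e1, br_add _ (c' + 1) (c' + 1)] at hcount
      have hpos : 1 ≤ br (Nat.card F) (c' + 1) := br_pos (by omega)
      have e2 : br (Nat.card F) (c' + 1 + 1) ≤ 1 + Nat.card F ^ (c' + 1) := by
        have e3 : br (Nat.card F) (c' + 1 + 1) * br (Nat.card F) (c' + 1) ≤
            (1 + Nat.card F ^ (c' + 1)) * br (Nat.card F) (c' + 1) := by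
          refine hcount.trans (le_of_eq ?_)
          ring
        exact Nat.le_of_mul_le_mul_right e3 hpos
      rw [br_succ, br_succ'] at e2
      have hpos' : 1 ≤ br (Nat.card F) c' := br_pos (by omega)
      have : 1 ≤ Nat.card F * br (Nat.card F) c' := Nat.mul_pos (by omega) hpos'
      omega
    · obtain ⟨s, hs⟩ := hd
      have h3a : 3 * (c' + 1) ≤ finrank F (V ⧸ P₀) := by
        have : 2 < s := by
          by_contra hc
          push Not at hc
          interval_cases s <;> omega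
        nlinarith
      exact h.sp4 F _ (c' + 1) _ _ D hSG hgeo h3a
  · -- polygon case
    have hspA : ∀ P, Pt P → ¬ SpreadAt K P := by
      intro P hP1 hs
      obtain ⟨k, hk, hkP⟩ := hPtT P P₀ hP1 hP₀
      exact hsp (spread_transport h.nat h.lft K P P₀ k hk hkP hs)
    have hc : c' = 2 := by
      by_contra hc
      exact hsp ((hE3 P₀ hP₀).choose_spec.2.2.2.2.2 (by omega))
    subst hc
    have hPG : ∀ P, Pt P → PG (Bc (qGrp K P)) (Nc (qGrp K P)) := by
      intro P hP1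
      have hm1 := hm P hP1
      obtain ⟨L, hWS, a1, a2, a3, a4, -⟩ := hE3 P hP1
      exact h.pgf F _ _ _ _ _ L hWS (by omega) a1 a2 a3 a4 (hspA P hP1)
    have hst := h.stb F V K hn hK IH
      (fun P hP1 => ⟨hPG P hP1, (hNN P hP1).2.1, hBC P hP1⟩) P₀ hP₀
    have hm1 := hm P₀ hP₀
    have hB := hBC P₀ hP₀
    have hN := (hNN P₀ hP₀).2.1
    obtain ⟨p1, p2⟩ := pol_of h.pol1 h.pol2 F _ (qGrp K P₀) _ _ (hPG P₀ hP₀) hN hB.ptT hB.eqB
      (by omega) hst
    exact h.pfin F _ (qGrp K P₀) _ _ (hPG P₀ hP₀) hN hB.ptT hB.eqB (by omega) p1 p2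

theorem mt_all (h : AllH) (F : Type) [Field F] [Finite F] : ∀ n, 2 ≤ n → MT F n := by
  intro n
  induction n using Nat.strong_induction_on with
  | _ n ih =>
    intro hn2
    rcases Nat.lt_or_ge n 4 with hn4 | hn4
    · rcases Nat.lt_or_ge n 3 with hn3 | hn3
      · have : n = 2 := by omega
        subst this; exact h.mt2 F
      · have : n = 3 := by omega
        subst this; exact h.mt3 F
    intro V _ _ _ hV K hK
    subst hV
    have IH : ∀ j, 2 ≤ j → j < finrank F V → MT F j := fun j hj hjn => ih j hjn hj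
    -- parameters of a 2-transitive group in this dimension
    have par : ∀ (U : Type) [AddCommGroup U] [Module F U] [FiniteDimensional F U]
        (K : Subgroup (U ≃ₗ[F] U)), 4 ≤ finrank F U → TwoTrans K → ∃ c c',
        (∀ P, Pt P → ∃ B C, BC (qGrp K P) c B C) ∧
        (∀ H, Hy H → ∃ B C, BC (sGrp K H) c' B C) := by
      intro U _ _ _ K hU hK
      obtain ⟨hHy, hFl, hAn⟩ := h.br2 F U K (by omega) hK
      have hPtT := PtTrans_of_two K (by omega) hK
      have hHyT : HyTrans K := (h.br1 F U K).1 hPtT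
      obtain ⟨hA1, hA2⟩ := h.ant F U K (by omega) hK
      have hdq : ∀ P : Submodule F U, Pt P → 2 ≤ finrank F (U ⧸ P) := by
        intro P h1
        have := Submodule.finrank_quotient_add_finrank P
        rw [Pt] at h1
        omega
      have hdh : ∀ H : Submodule F U, Hy H → 2 ≤ finrank F H := by
        intro H h1
        rw [Hy] at h1
        omega
      obtain ⟨P₀, hP₀⟩ := exists_pt (F := F) (V := U) (by omega)
      obtain ⟨H₀, hH₀⟩ : ∃ H : Submodule F U, Hy H := by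
        obtain ⟨v, hv0, hv⟩ := hP₀.exists_span
        obtain ⟨H, hH, -⟩ := exists_hy_of_notMem (T := (⊥ : Submodule F U)) (v := v)
          (by rwa [Submodule.mem_bot])
        exact ⟨H, hH⟩
      obtain ⟨c, B, C, hc⟩ := h.m2 F _ _ (hdq P₀ hP₀) (hA1 P₀ hP₀)
      obtain ⟨c', B', C', hc'⟩ := h.m2 F _ _ (hdh H₀ hH₀) (hA2 H₀ hH₀)
      obtain ⟨k1, k2⟩ := h.cst F U K (by omega) hPtT hHyT
      refine ⟨c, c', fun P hP => ?_, fun H hH => ?_⟩
      · obtain ⟨d, B2, C2, hd⟩ := h.m2 F _ _ (hdq P hP) (hA1 P hP)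
        have := k1 P₀ P c d B C B2 C2 hP₀ hP hc hd
        subst this
        exact ⟨B2, C2, hd⟩
      · obtain ⟨d, B2, C2, hd⟩ := h.m2 F _ _ (hdh H hH) (hA2 H hH)
        have := k2 H₀ H c' d B' C' B2 C2 hH₀ hH hc' hd
        subst this
        exact ⟨B2, C2, hd⟩
    obtain ⟨c, c', hP, hH⟩ := par V K hn4 hK
    obtain ⟨P₀, hP₀⟩ := exists_pt (F := F) (V := V) (by omega)
    have hm : finrank F (V ⧸ P₀) + 1 = finrank F V := by
      have := Submodule.finrank_quotient_add_finrank P₀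
      rw [Pt] at hP₀
      omega
    obtain ⟨B, C, hBC⟩ := hP P₀ hP₀
    by_cases hc : c + 1 = finrank F (V ⧸ P₀)
    · have h2 := twoTrans_of_BC _ c B C hBC hc
      exact step5 h.br2 h.slg h.trv h.s5a h.s5b1 h.s5b2 h.s5b3 h.s5c K hn4 hK P₀ hP₀ h2
        (IH _ (by omega) (by omega))
    · exfalso
      have hcm := hBC.cm
      have hc1 := hBC.c1
      rcases Nat.lt_or_ge c' c with hlt | hle
      · -- dual
        have hn1 : finrank F (Module.Dual F V) = finrank F V := Subspace.dual_finrank_eq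
        have hHy := (h.br2 F V K (by omega) hK).1
        have hK' : TwoTrans (dGrp K) := h.d1 F V K hHy
        obtain ⟨d, d', hd, hd'⟩ := par (Module.Dual F V) (dGrp K) (by omega) hK'
        have hParC : ParC K c := (h.pcb F V K c (by omega)).1 hP
        have hParB : ParB K c' := (h.pcb F V K c' (by omega)).2 hH
        have hB2 : ParB (dGrp K) c := (h.d2 F V K c (by omega)).1 hParC
        have hC2 : ParC (dGrp K) c' := (h.d2 F V K c' (by omega)).2 hParB
        obtain ⟨P₁, hP₁⟩ := exists_pt (F := F) (V := Module.Dual F V) (by omega)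
        obtain ⟨H₁, hH₁⟩ : ∃ H : Submodule F (Module.Dual F V), Hy H := by
          obtain ⟨v, hv0, hv⟩ := hP₁.exists_span
          obtain ⟨H, hH, -⟩ := exists_hy_of_notMem (T := (⊥ : Submodule F (Module.Dual F V)))
            (v := v) (by rwa [Submodule.mem_bot])
          exact ⟨H, hH⟩
        obtain ⟨H₀, hH₀⟩ : ∃ H : Submodule F V, Hy H := by
          obtain ⟨v, hv0, hv⟩ := hP₀.exists_span
          obtain ⟨H, hH, -⟩ := exists_hy_of_notMem (T := (⊥ : Submodule F V)) (v := v)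
            (by rwa [Submodule.mem_bot])
          exact ⟨H, hH⟩
        have hc1' : 1 ≤ c' := by
          obtain ⟨B', C', hBC'⟩ := hH H₀ hH₀
          exact hBC'.c1
        have e1 : c' = d := by
          obtain ⟨B', C', hB'⟩ := hd P₁ hP₁
          exact (h.pun F _ (dGrp K) c' d (by omega) hc1').1 hC2 P₁ hP₁ B' C' hB'
        have e2 : c = d' := by
          obtain ⟨B', C', hB'⟩ := hd' H₁ hH₁
          exact (h.pun F _ (dGrp K) c d' (by omega) hc1).2 hB2 H₁ hH₁ B' C' hB'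
        subst e1
        subst e2
        refine nobad h (dGrp K) (by omega) hK' ?_ c' c hd hd' (by omega) (by omega)
        intro j hj hjn
        exact IH j hj (by omega)
      · exact nobad h K hn4 hK IH c c' hP hH hle (by omega)

end GL4
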