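import Pool.Agent.Helper79.GL4.GoalsA
import Pool.Agent.Helper79.GL4.GoalsR

/-!
# GL4: assembly, part 3 (MP_27a5f8_al): from transitivity to 2-transitivity
-/

set_option linter.unusedVariables false

namespace GL4

open Module Submodule

section
variable {F : Type} [Field F] {V : Type} [AddCommGroup V] [Module F V]

theorem twoTrans_of_stab [FiniteDimensional F V] {K : Subgroup (V ≃ₗ[F] V)} (hPt : PtTrans K)
    {P : Submodule F V} (hP : Pt P)
    (h : ∀ y z, Pt y → Pt z → y ≠ P → z ≠ P → ∃ g ∈ K, im g P = P ∧ im g y = z) :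
    TwoTrans K := by
  intro x y x' y' hx hy hx' hy' hxy hxy'
  obtain ⟨g, hg, hgx⟩ := hPt x P hx hP
  obtain ⟨g', hg', hgx'⟩ := hPt P x' hP hx'
  have h1 : im g y ≠ P := by
    intro he
    exact hxy ((im_inj g).1 (by rw [he, hgx]))
  have h2 : im g'⁻¹ y' ≠ P := by
    intro he
    apply hxy'
    rw [← hgx', ← he, im_im_inv]
  obtain ⟨k, hk, hkP, hky⟩ := h (im g y) (im g'⁻¹ y') hy.im hy'.im h1 h2
  refine ⟨g' * (k * g), K.mul_mem hg' (K.mul_mem hk hg), ?_, ?_⟩
  · rw [im_mul, im_mul, hgx, hkP, hgx']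
  · rw [im_mul, im_mul, hky, im_im_inv]

/-- a group transitive on lines and 2-transitive on the points of each line is 2-transitive. -/
theorem twoTrans_of_lines [FiniteDimensional F V] {K : Subgroup (V ≃ₗ[F] V)}
    (hL : ∀ L L' : Submodule F V, Ln L → Ln L' → ∃ k ∈ K, im k L = L')
    (h2 : ∀ L, Ln L → TwoTrans (sGrp K L)) : TwoTrans K := by
  intro x y x' y' hx hy hx' hy' hxy hxy'
  have hl := ln_sup hx hy hxy
  have hl' := ln_sup hx' hy' hxy'
  obtain ⟨k, hk, hkL⟩ := hL _ _ hl hl'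
  have e1 : im k x ≤ x' ⊔ y' := by rw [← hkL]; exact im_mono k le_sup_left
  have e2 : im k y ≤ x' ⊔ y' := by rw [← hkL]; exact im_mono k le_sup_right
  have hne : im k x ≠ im k y := fun he => hxy ((im_inj k).1 he)
  have key : ∀ z : Submodule F V, z ≤ x' ⊔ y' → Pt z →
      Pt (z.comap (x' ⊔ y').subtype) := by
    intro z hz h1
    rw [Pt, finrank_restr hz]; exact h1
  have inj : ∀ z w : Submodule F V, z ≤ x' ⊔ y' → w ≤ x' ⊔ y' →
      z.comap (x' ⊔ y').subtype = w.comap (x' ⊔ y').subtype → z = w := by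
    intro z w hz hw he
    rw [← incl_restr hz, ← incl_restr hw, he]
  obtain ⟨g, ⟨k', hk', hU, hg⟩, hg1, hg2⟩ := h2 _ hl' _ _ _ _ (key _ e1 hx.im) (key _ e2 hy.im)
    (key _ le_sup_left hx') (key _ le_sup_right hy') (fun he => hne (inj _ _ e1 e2 he))
    (fun he => hxy' (inj _ _ le_sup_left le_sup_right he))
  refine ⟨k' * k, K.mul_mem hk' hk, ?_, ?_⟩
  · rw [im_mul, ← incl_restr e1, ← im_incl hg, hg1, incl_restr le_sup_left]
  · rw [im_mul, ← incl_restr e2, ← im_incl hg, hg2, incl_restr le_sup_right]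

theorem lines_of_flag [FiniteDimensional F V] {K : Subgroup (V ≃ₗ[F] V)} (h : FlagPL K) :
    ∀ L L' : Submodule F V, Ln L → Ln L' → ∃ k ∈ K, im k L = L' := by
  intro L L' hL hL'
  have ne : ∀ L : Submodule F V, Ln L → L ≠ ⊥ := by
    rintro L hL rfl
    rw [Ln, finrank_bot] at hL
    omega
  obtain ⟨x, hx, hxL⟩ := exists_pt_le (ne L hL)
  obtain ⟨x', hx', hxL'⟩ := exists_pt_le (ne L' hL')
  obtain ⟨k, hk, -, h2⟩ := h x L x' L' hx hL hx' hL' hxL hxL'
  exact ⟨k, hk, h2⟩

theorem ptTrans_sGrp_of_flag [FiniteDimensional F V] {K : Subgroup (V ≃ₗ[F] V)} (h : FlagPL K)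
    {L : Submodule F V} (hL : Ln L) : PtTrans (sGrp K L) := by
  intro x y hx hy
  have hx' : Pt (x.map L.subtype) := by rw [Pt, finrank_incl]; exact hx
  have hy' : Pt (y.map L.subtype) := by rw [Pt, finrank_incl]; exact hy
  obtain ⟨k, hk, h1, h2⟩ := h _ L _ L hx' hL hy' hL (incl_le x) (incl_le y)
  obtain ⟨g, hg, hgk⟩ := exists_sGrp hk h2
  refine ⟨g, hg, ?_⟩
  have := im_incl hgk x
  rw [h1] at this
  exact Submodule.map_injective_of_injective L.subtype_injective this

theorem flag_of_ptTrans [FiniteDimensional F V] {K : Subgroup (V ≃ₗ[F] V)}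
    (h2 : finrank F V = 2) (h : PtTrans K) : FlagPL K := by
  intro x L x' L' hx hL hx' hL' _ _
  obtain ⟨g, hg, hgx⟩ := h x x' hx hx'
  have e : ∀ L : Submodule F V, Ln L → L = ⊤ := by
    intro L hL
    exact Submodule.eq_top_of_finrank_eq (by rw [h2]; exact hL)
  refine ⟨g, hg, hgx, ?_⟩
  rw [e L hL, e L' hL', im_top]

/-- points of a plane of order two -/
theorem pt_cases2 [Finite F] [FiniteDimensional F V] (h2 : finrank F V = 2) (hq : Nat.card F = 2)
    {A B C D : Submodule F V} (hA : Pt A) (hB : Pt B) (hC : Pt C) (hD : Pt D) (hAB : A ≠ B)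
    (hAC : A ≠ C) (hBC : B ≠ C) : D = A ∨ D = B ∨ D = C := by
  classical
  by_contra hcon
  push Not at hcon
  obtain ⟨h1, h2', h3⟩ := hcon
  have hc := card_pts (F := F) (V := V)
  rw [h2, hq] at hc
  have : Finite {x : Submodule F V // Pt x} := Nat.finite_of_card_ne_zero (by rw [hc]; decide)
  have := Fintype.ofFinite {x : Submodule F V // Pt x}
  rw [Nat.card_eq_fintype_card] at hc
  have hle := Finset.card_le_univ ({⟨A, hA⟩, ⟨B, hB⟩, ⟨C, hC⟩, ⟨D, hD⟩} :
    Finset {x : Submodule F V // Pt x})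
  rw [hc, Finset.card_insert_of_notMem, Finset.card_insert_of_notMem,
    Finset.card_insert_of_notMem, Finset.card_singleton] at hle
  · simp [br, Finset.sum_range_succ] at hle
  · simp only [Finset.mem_singleton, Subtype.mk.injEq]; exact fun h => h3 h.symm
  · simp only [Finset.mem_insert, Finset.mem_singleton, Subtype.mk.injEq]
    rintro (h | h)
    · exact hBC h
    · exact h2' h.symm
  · simp only [Finset.mem_insert, Finset.mem_singleton, Subtype.mk.injEq]
    rintro (h | h | h)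
    · exact hAB h
    · exact hAC h
    · exact h1 h.symm

theorem pt_cases3 [Finite F] [FiniteDimensional F V] (h2 : finrank F V = 2) (hq : Nat.card F = 3)
    {A B C E D : Submodule F V} (hA : Pt A) (hB : Pt B) (hC : Pt C) (hE : Pt E) (hD : Pt D)
    (hAB : A ≠ B) (hAC : A ≠ C) (hAE : A ≠ E) (hBC : B ≠ C) (hBE : B ≠ E) (hCE : C ≠ E) :
    D = A ∨ D = B ∨ D = C ∨ D = E := by
  classical
  by_contra hcon
  push Not at hcon
  obtain ⟨h1, h2', h3, h4⟩ := hcon
  have hc := card_pts (F := F) (V := V)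
  rw [h2, hq] at hc
  have : Finite {x : Submodule F V // Pt x} := Nat.finite_of_card_ne_zero (by rw [hc]; decide)
  have := Fintype.ofFinite {x : Submodule F V // Pt x}
  rw [Nat.card_eq_fintype_card] at hc
  have hle := Finset.card_le_univ ({⟨A, hA⟩, ⟨B, hB⟩, ⟨C, hC⟩, ⟨E, hE⟩, ⟨D, hD⟩} :
    Finset {x : Submodule F V // Pt x})
  rw [hc, Finset.card_insert_of_notMem, Finset.card_insert_of_notMem,
    Finset.card_insert_of_notMem, Finset.card_insert_of_notMem, Finset.card_singleton] at hle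
  · simp [br, Finset.sum_range_succ] at hle
  · simp only [Finset.mem_singleton, Subtype.mk.injEq]; exact fun h => h4 h.symm
  · simp only [Finset.mem_insert, Finset.mem_singleton, Subtype.mk.injEq]
    rintro (h | h)
    · exact hCE h
    · exact h3 h.symm
  · simp only [Finset.mem_insert, Finset.mem_singleton, Subtype.mk.injEq]
    rintro (h | h | h)
    · exact hBC h
    · exact hBE h
    · exact h2' h.symm
  · simp only [Finset.mem_insert, Finset.mem_singleton, Subtype.mk.injEq]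
    rintro (h | h | h | h)
    · exact hAB h
    · exact hAC h
    · exact hAE h
    · exact h1 h.symm

theorem twoTrans_q2 [Finite F] [FiniteDimensional F V] (h2 : finrank F V = 2)
    (hq : Nat.card F = 2) {K : Subgroup (V ≃ₗ[F] V)} (hPt : PtTrans K)
    {k : V ≃ₗ[F] V} (hk : k ∈ K) {P Q : Submodule F V} (hP : Pt P) (hQ : Pt Q)
    (hkP : im k P = P) (hkQ : im k Q ≠ Q) : TwoTrans K := by
  have hPQ : P ≠ Q := by rintro rfl; exact hkQ hkP
  have hPkQ : P ≠ im k Q := by
    intro he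
    exact hPQ ((im_inj k).1 (by rw [hkP]; exact he))
  have hc : ∀ D, Pt D → D = P ∨ D = Q ∨ D = im k Q := fun D hD =>
    pt_cases2 h2 hq hP hQ hQ.im hD hPQ hPkQ hkQ.symm
  have hkk : im k (im k Q) = Q := by
    rcases hc (im k (im k Q)) hQ.im.im with h | h | h
    · exfalso
      apply hPkQ
      refine (im_inj k).1 ?_
      rw [h, hkP]
    · exact h
    · exact absurd ((im_inj k).1 h) hkQ
  refine twoTrans_of_stab hPt hP fun y z hy hz hyP hzP => ?_
  rcases hc y hy with h | h | h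
  · exact absurd h hyP
  · rcases hc z hz with h' | h' | h'
    · exact absurd h' hzP
    · exact ⟨1, K.one_mem, im_one _, by rw [h, h', im_one]⟩
    · exact ⟨k, hk, hkP, by rw [h, h']⟩
  · rcases hc z hz with h' | h' | h'
    · exact absurd h' hzP
    · exact ⟨k, hk, hkP, by rw [h, h', hkk]⟩
    · exact ⟨1, K.one_mem, im_one _, by rw [h, h', im_one]⟩

theorem twoTrans_q3 [Finite F] [FiniteDimensional F V] (h2 : finrank F V = 2)
    (hq : Nat.card F = 3) {K : Subgroup (V ≃ₗ[F] V)} (hPt : PtTrans K)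
    {k : V ≃ₗ[F] V} (hk : k ∈ K) {P Q : Submodule F V} (hP : Pt P) (hQ : Pt Q)
    (hkP : im k P = P) (hkQ : im k Q ≠ Q) (hkkQ : im k (im k Q) ≠ Q) : TwoTrans K := by
  have hPQ : P ≠ Q := by rintro rfl; exact hkQ hkP
  have hPkQ : P ≠ im k Q := by
    intro he
    exact hPQ ((im_inj k).1 (by rw [hkP]; exact he))
  have hPkkQ : P ≠ im k (im k Q) := by
    intro he
    exact hPkQ ((im_inj k).1 (by rw [hkP]; exact he))
  have hkk : im k (im k Q) ≠ im k Q := fun he => hkQ ((im_inj k).1 he)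
  have hc : ∀ D, Pt D → D = P ∨ D = Q ∨ D = im k Q ∨ D = im k (im k Q) := fun D hD =>
    pt_cases3 h2 hq hP hQ hQ.im hQ.im.im hD hPQ hPkQ hPkkQ hkQ.symm hkkQ.symm hkk.symm
  have hkkk : im k (im k (im k Q)) = Q := by
    rcases hc (im k (im k (im k Q))) hQ.im.im.im with h | h | h | h
    · exfalso
      apply hPkkQ
      refine (im_inj k).1 ?_
      rw [h, hkP]
    · exact h
    · exact absurd ((im_inj k).1 h) hkkQ
    · exact absurd ((im_inj k).1 h) hkk
  have hP2 : im (k * k) P = P := by rw [im_mul, hkP, hkP]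
  have hk2 : k * k ∈ K := K.mul_mem hk hk
  refine twoTrans_of_stab hPt hP fun y z hy hz hyP hzP => ?_
  rcases hc y hy with h | h | h | h
  · exact absurd h hyP
  · rcases hc z hz with h' | h' | h' | h'
    · exact absurd h' hzP
    · exact ⟨1, K.one_mem, im_one _, by rw [h, h', im_one]⟩
    · exact ⟨k, hk, hkP, by rw [h, h']⟩
    · exact ⟨k * k, hk2, hP2, by rw [h, h', im_mul]⟩
  · rcases hc z hz with h' | h' | h' | h'
    · exact absurd h' hzP
    · exact ⟨k * k, hk2, hP2, by rw [h, h', im_mul, hkkk]⟩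
    · exact ⟨1, K.one_mem, im_one _, by rw [h, h', im_one]⟩
    · exact ⟨k, hk, hkP, by rw [h, h']⟩
  · rcases hc z hz with h' | h' | h' | h'
    · exact absurd h' hzP
    · exact ⟨k, hk, hkP, by rw [h, h', hkkk]⟩
    · exact ⟨k * k, hk2, hP2, by rw [h, h', im_mul, hkkk]⟩
    · exact ⟨1, K.one_mem, im_one _, by rw [h, h', im_one]⟩

/-- restriction of an element fixing a line and points of it -/
theorem restr_data [FiniteDimensional F V] {K : Subgroup (V ≃ₗ[F] V)} {L : Submodule F V}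
    {k : V ≃ₗ[F] V} (hk : k ∈ K) (hL : im k L = L) : ∃ g ∈ sGrp K L,
      ∀ Z Y : Submodule F V, Z ≤ L → Y ≤ L →
        (im g (Z.comap L.subtype) = Y.comap L.subtype ↔ im k Z = Y) := by
  obtain ⟨g, hg, hgk⟩ := exists_sGrp hk hL
  refine ⟨g, hg, fun Z Y hZ hY => ?_⟩
  have hkZ : im k Z ≤ L := by rw [← hL]; exact im_mono k hZ
  rw [im_restr hL hgk hZ]
  constructor
  · intro h
    rw [← incl_restr hkZ, ← incl_restr hY, h]
  · intro h; rw [h]

theorem restr_pt [FiniteDimensional F V] {L Z : Submodule F V} (hZ : Z ≤ L) (h : Pt Z) :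
    Pt (Z.comap L.subtype) := by
  rw [Pt, finrank_restr hZ]; exact h

/-- `q = 2`: flag-transitive plus the sign character data. -/
theorem two_q2 [Finite F] [FiniteDimensional F V] (hq : Nat.card F = 2)
    {K : Subgroup (V ≃ₗ[F] V)}
    (hL : ∀ L L' : Submodule F V, Ln L → Ln L' → ∃ k ∈ K, im k L = L')
    (hP : ∀ L, Ln L → PtTrans (sGrp K L))
    (h : ∀ L : Submodule F V, Ln L →
        ∃ k ∈ K, im k L = L ∧ ∃ P Q : Submodule F V, Pt P ∧ Pt Q ∧ P ≤ L ∧ Q ≤ L ∧
          im k P = P ∧ im k Q ≠ Q) : TwoTrans K := by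
  refine twoTrans_of_lines hL fun L hL1 => ?_
  obtain ⟨k, hk, hkL, P, Q, hP1, hQ1, hPL, hQL, hkP, hkQ⟩ := h L hL1
  obtain ⟨g, hg, hgk⟩ := restr_data hk hkL
  exact twoTrans_q2 hL1 hq (hP L hL1) hg (restr_pt hPL hP1) (restr_pt hQL hQ1)
    ((hgk P P hPL hPL).2 hkP) (fun he => hkQ ((hgk Q Q hQL hQL).1 he))

/-- `q = 3`: flag-transitive plus the cubic character data. -/
theorem two_q3 [Finite F] [FiniteDimensional F V] (hq : Nat.card F = 3)
    {K : Subgroup (V ≃ₗ[F] V)}
    (hL : ∀ L L' : Submodule F V, Ln L → Ln L' → ∃ k ∈ K, im k L = L')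
    (hP : ∀ L, Ln L → PtTrans (sGrp K L))
    (h : ∀ L : Submodule F V, Ln L →
        ∃ k ∈ K, im k L = L ∧ ∃ P Q : Submodule F V, Pt P ∧ Pt Q ∧ P ≤ L ∧ Q ≤ L ∧
          im k P = P ∧ im k Q ≠ Q ∧ im k (im k Q) ≠ Q) : TwoTrans K := by
  refine twoTrans_of_lines hL fun L hL1 => ?_
  obtain ⟨k, hk, hkL, P, Q, hP1, hQ1, hPL, hQL, hkP, hkQ, hkkQ⟩ := h L hL1
  obtain ⟨g, hg, hgk⟩ := restr_data hk hkL
  have hkQL : im k Q ≤ L := by rw [← hkL]; exact im_mono k hQL
  refine twoTrans_q3 hL1 hq (hP L hL1) hg (restr_pt hPL hP1) (restr_pt hQL hQ1)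
    ((hgk P P hPL hPL).2 hkP) (fun he => hkQ ((hgk Q Q hQL hQL).1 he)) ?_
  rw [(hgk Q _ hQL hkQL).2 rfl]
  exact fun he => hkkQ ((hgk _ Q hkQL hQL).1 he)

end

end GL4
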