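import Pool.Agent.Helper79.GL4.Asm3

/-!
# GL4: assembly, part 4 (MP_27a5f8_al): lines, `q ≥ 4`
-/

set_option linter.unusedVariables false

namespace GL4

open Module Submodule

section
variable {F : Type} [Field F] {V : Type} [AddCommGroup V] [Module F V]

theorem prime_pow_card (F : Type) [Field F] [Finite F] :
    (ringChar F).Prime ∧ ∃ e, Nat.card F = ringChar F ^ e := by
  have := Fintype.ofFinite F
  have : CharP F (ringChar F) := ringChar.charP F
  obtain ⟨n, hp, hn⟩ := FiniteField.card F (ringChar F)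
  exact ⟨hp, n, by rw [Nat.card_eq_fintype_card, hn]⟩

theorem sq_one {F : Type} [Field F] {r : F} (h : r ^ 2 = 1) : r = 1 ∨ r = -1 := by
  have : (r - 1) * (r + 1) = 0 := by
    have : (r - 1) * (r + 1) = r ^ 2 - 1 := by ring
    rw [this, h, sub_self]
  rcases mul_eq_zero.1 this with h | h
  · exact Or.inl (sub_eq_zero.1 h)
  · exact Or.inr (eq_neg_of_add_eq_zero_left h)

/-- 2-transitivity on the points of a plane of order `q ≥ 4`. -/
theorem two_of_ratio (hLG : LGEO) (hN1 : LNUM1) [Finite F] {K : Subgroup (V ≃ₗ[F] V)}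
    (h2 : finrank F V = 2) (hPt : PtTrans K) (al : Fˣ →* ℂˣ)
    (hal : 7 ≤ Nat.card F → al (-1) = 1)
    (P : Submodule F V) (hP : Pt P)
    (hr : ∃ a b : Fˣ, IsRatio K P (a / b) ∧ al (a / b) ≠ 1)
    (hp : ringChar F ∣ Nat.card K) : TwoTrans K := by
  obtain ⟨w, c, D, hw1, hc1, hws, hwq, hw, -, hwT, hcw, hcq, hrat, hD, hsum⟩ :=
    hLG F V K h2 hPt
  obtain ⟨a, b, hab, halr⟩ := hr
  have hwne : w ≠ 1 := fun he => hw he hp
  have hrc := hrat P hP _ hab
  have hcne : c ≠ 1 := by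
    rintro rfl
    apply halr
    have : (a / b : Fˣ) = 1 := by
      apply Units.ext
      rw [pow_one] at hrc
      rw [Units.val_div_eq_div_val]
      exact hrc
    rw [this, map_one]
  have hpp := prime_pow_card F
  have := hN1 (ringChar F) (Nat.card F) w c D hpp.1 hpp.2 hws hwq (by omega) (by omega)
    (hcw hwne) hcq (fun d hd => ⟨(hD d hd).1, (hD d hd).2.1, (hD d hd).2.2.1⟩) hsum
  rcases this with h | ⟨hq9, -, hc2⟩
  · exact hwT h
  · exfalso
    apply halr
    rw [hc2] at hrc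
    rcases sq_one hrc with h | h
    · have : (a / b : Fˣ) = 1 := by
        apply Units.ext
        rw [Units.val_div_eq_div_val]
        exact h
      rw [this, map_one]
    · have : (a / b : Fˣ) = -1 := by
        apply Units.ext
        rw [Units.val_div_eq_div_val]
        exact h
      rw [this]
      exact hal (by omega)

/-- `im k L = L` for a line mapped into itself. -/
theorem im_eq_of_maps [FiniteDimensional F V] {k : V ≃ₗ[F] V} {L : Submodule F V}
    (h : ∀ v ∈ L, k v ∈ L) : im k L = L := by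
  refine im_eq_of_le ?_
  rintro _ ⟨v, hv, rfl⟩
  exact h v hv

/-- a nontrivial ratio moves a point of the line. -/
theorem moves_of_ratio [FiniteDimensional F V] {k : V ≃ₗ[F] V} {P L : Submodule F V} (hP : Pt P)
    (hL : Ln L) (hPL : P ≤ L) {a b : F} (hab : a ≠ b) (h1 : ∀ v ∈ P, k v = a • v)
    (h2 : ∀ v ∈ L, k v ∈ L ∧ k v - b • v ∈ P) : ∃ Q, Pt Q ∧ Q ≤ L ∧ im k Q ≠ Q := by
  obtain ⟨p, hp0, rfl⟩ := hP.exists_span
  have hpP : p ∈ F ∙ p := mem_span_singleton_self p
  have hne : ¬ L ≤ F ∙ p := by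
    intro hc
    have := Submodule.finrank_mono hc
    rw [hL, hP] at this
    omega
  obtain ⟨w, hwL, hwP⟩ := SetLike.not_le_iff_exists.1 hne
  have hw0 : ∀ c : F, w + c • p ≠ 0 := by
    intro c he
    apply hwP
    have : w = (-c) • p := by rw [neg_smul]; exact eq_neg_of_add_eq_zero_left he
    rw [this]
    exact Submodule.smul_mem _ _ hpP
  have hpL : p ∈ L := hPL hpP
  by_contra hcon
  push Not at hcon
  have fix : ∀ c : F, k (w + c • p) = b • (w + c • p) := by
    intro c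
    have hmem : w + c • p ∈ L := L.add_mem hwL (L.smul_mem c hpL)
    have h3 := hcon (F ∙ (w + c • p)) (pt_span (hw0 c))
      (by rw [span_singleton_le_iff_mem]; exact hmem)
    rw [im_span_singleton] at h3
    have h4 : k (w + c • p) ∈ F ∙ (w + c • p) := by
      rw [← h3]; exact mem_span_singleton_self _
    obtain ⟨mu, hmu⟩ := mem_span_singleton.1 h4
    have h5 := (h2 _ hmem).2
    rw [← hmu, ← sub_smul] at h5
    by_cases hb : mu = b
    · rw [← hmu, hb]
    · exfalso
      apply hwP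
      have h6 : w + c • p ∈ F ∙ p := by
        have := Submodule.smul_mem _ (mu - b)⁻¹ h5
        rwa [smul_smul, inv_mul_cancel₀ (sub_ne_zero.2 hb), one_smul] at this
      have : w = (w + c • p) - c • p := by abel
      rw [this]
      exact Submodule.sub_mem _ h6 (Submodule.smul_mem _ _ hpP)
  have f0 := fix 0
  have f1 := fix 1
  rw [zero_smul, add_zero] at f0
  rw [one_smul, map_add, f0, smul_add, h1 p hpP] at f1
  have : a • p = b • p := add_left_cancel f1
  apply hab
  have h7 : (a - b) • p = 0 := by rw [sub_smul, this, sub_self]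
  rcases smul_eq_zero.1 h7 with h | h
  · exact sub_eq_zero.1 h
  · exact absurd h hp0

/-- `q ≥ 4`, dimension at least 3. -/
theorem two_big (hPEL : PEL) (hJB : JB) (hLG : LGEO) (hN1 : LNUM1) [Finite F]
    [FiniteDimensional F V] (hn : 3 ≤ finrank F V) {K : Subgroup (V ≃ₗ[F] V)} (hF : FlagPL K)
    (al : Fˣ →* ℂˣ) (hal : 7 ≤ Nat.card F → al (-1) = 1)
    (h : ∀ P L : Submodule F V, Pt P → Ln L → P ≤ L →
          ∃ k ∈ K, ∃ a b : Fˣ, (∀ v ∈ P, k v = (a : F) • v) ∧
            (∀ v ∈ L, k v ∈ L ∧ k v - (b : F) • v ∈ P) ∧ al (a / b) ≠ 1) : TwoTrans K := by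
  -- a flag
  obtain ⟨P₀, hP₀⟩ : ∃ P : Submodule F V, Pt P := by
    have : (⊤ : Submodule F V) ≠ ⊥ := by
      intro he
      have := finrank_top F V
      rw [he, finrank_bot] at this
      omega
    obtain ⟨P, hP, -⟩ := exists_pt_le this
    exact ⟨P, hP⟩
  obtain ⟨L₀, hL₀, hPL₀⟩ : ∃ L : Submodule F V, Ln L ∧ P₀ ≤ L := by
    have h1 : ¬ (⊤ : Submodule F V) ≤ P₀ := by
      intro hc
      have : P₀ = ⊤ := top_le_iff.1 hc
      rw [Pt, this, finrank_top] at hP₀
      omega
    obtain ⟨z, hz, -, hzx⟩ := exists_pt_not_le h1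
    exact ⟨P₀ ⊔ z, ln_sup hP₀ hz (fun he => hzx (he ▸ le_rfl)), le_sup_left⟩
  have hne : ∀ a b : Fˣ, al (a / b) ≠ 1 → (a : F) ≠ b := by
    intro a b h1 he
    apply h1
    rw [Units.ext he, div_self', map_one]
  have hdvd : ringChar F ∣ Nat.card K := by
    by_contra hcon
    obtain ⟨k, hk, a, b, h1, h2, h3⟩ := h P₀ L₀ hP₀ hL₀ hPL₀
    obtain ⟨Q, hQ, hQL, hkQ⟩ := moves_of_ratio hP₀ hL₀ hPL₀ (hne a b h3) h1 h2
    refine hPEL F V K hn hF hcon ⟨P₀, L₀, Q, k, hk, hP₀, hL₀, hQ, hPL₀, hQL, ?_, ?_, hkQ⟩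
    · refine im_eq_of_maps fun v hv => ?_
      rw [h1 v hv]
      exact P₀.smul_mem _ hv
    · exact im_eq_of_maps fun v hv => (h2 v hv).1
  have hlines := lines_of_flag hF
  refine twoTrans_of_lines hlines fun L hL => ?_
  have hdL := hJB F V K hlines hdvd L hL
  obtain ⟨P, hP, hPL⟩ : ∃ P, Pt P ∧ P ≤ L := by
    refine exists_pt_le ?_
    rintro rfl
    rw [Ln, finrank_bot] at hL
    omega
  obtain ⟨k, hk, a, b, h1, h2, h3⟩ := h P L hP hL hPL
  refine two_of_ratio hLG hN1 hL (ptTrans_sGrp_of_flag hF hL) al hal (P.comap L.subtype)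
    (restr_pt hPL hP) ⟨a, b, ?_, h3⟩ hdL
  obtain ⟨g, hg, hgk⟩ := exists_sGrp hk (im_eq_of_maps fun v hv => (h2 v hv).1)
  refine ⟨g, hg, a, b, b.ne_zero, ?_, ?_, rfl⟩
  · intro v hv
    apply Subtype.ext
    rw [hgk v, h1 v hv]
    rfl
  · intro v
    have := (h2 v v.2).2
    change ((g v - (b : F) • v : L) : V) ∈ P
    rw [Submodule.coe_sub, hgk v, Submodule.coe_smul]
    exact this

/-- `q` even, at least 4, dimension 2. -/
theorem two_even (hLG : LGEO) (hN1 : LNUM1) (hN3 : LNUM3) [Finite F] {K : Subgroup (V ≃ₗ[F] V)}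
    (h2 : finrank F V = 2) (hPt : PtTrans K) (heven : 2 ∣ Nat.card F) (al : Fˣ →* ℂˣ)
    (hal : 7 ≤ Nat.card F → al (-1) = 1) (P : Submodule F V) (hP : Pt P)
    (hr : ∃ a b : Fˣ, IsRatio K P (a / b) ∧ al (a / b) ≠ 1) : TwoTrans K := by
  refine two_of_ratio hLG hN1 h2 hPt al hal P hP hr ?_
  by_contra hcon
  obtain ⟨w, c, D, hw1, hc1, hws, hwq, hw, hw', hwT, hcw, hcq, hrat, hD, hsum⟩ :=
    hLG F V K h2 hPt
  have hw1' : w = 1 := by
    by_contra hne
    exact hcon (hw' hne)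
  subst hw1'
  obtain ⟨a, b, hab, halr⟩ := hr
  have hrc := hrat P hP _ hab
  have hq1 : 1 < Nat.card F := Finite.one_lt_card
  have hcodd : ¬ 2 ∣ c := by
    intro h
    have := h.trans hcq
    omega
  have hD2 : ∀ d ∈ D, 2 ≤ d.1 ∧ d.1 ∣ Nat.card F + 1 ∧ d.2 = 1 := by
    intro d hd
    obtain ⟨e1, e2, e3, e4⟩ := hD d hd
    refine ⟨e1, e2, e3.resolve_right fun he => ?_⟩
    have := e4 he
    rw [mul_one, (Nat.prime_two).dvd_mul] at this
    rcases this with h | h
    · omega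
    · exact hcodd h
  have hc := hN3 (Nat.card F) c D (by omega) heven hc1 hcq hD2 (by
    rw [Nat.cast_one, mul_one, sub_self, zero_div, zero_add] at hsum
    exact hsum)
  subst hc
  apply halr
  have : (a / b : Fˣ) = 1 := by
    apply Units.ext
    rw [pow_one] at hrc
    rw [Units.val_div_eq_div_val]
    exact hrc
  rw [this, map_one]

/-- `q` odd, at least 7, dimension 2. -/
theorem two_odd (hLG : LGEO) (hN1 : LNUM1) (hN2 : LNUM2) [Finite F] {K : Subgroup (V ≃ₗ[F] V)}
    (h2 : finrank F V = 2) (hPt : PtTrans K) (hq : 7 ≤ Nat.card F) (al : Fˣ →* ℂˣ)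
    (hal : 7 ≤ Nat.card F → al (-1) = 1) (P : Submodule F V) (hP : Pt P)
    (hr : ∃ a b : Fˣ, IsRatio K P (a / b) ∧ al (a / b) ≠ 1)
    (hns : ∃ r, IsRatio K P r ∧ ¬ IsSquare r) : TwoTrans K := by
  refine two_of_ratio hLG hN1 h2 hPt al hal P hP hr ?_
  by_contra hcon
  obtain ⟨w, c, D, hw1, hc1, hws, hwq, hw, hw', hwT, hcw, hcq, hrat, hD, hsum⟩ :=
    hLG F V K h2 hPt
  have hw1' : w = 1 := by
    by_contra hne
    exact hcon (hw' hne)
  subst hw1'
  obtain ⟨a, b, hab, halr⟩ := hr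
  have hrc := hrat P hP _ hab
  have hne1 : ((a : F) / b) ≠ 1 := by
    intro he
    apply halr
    have : (a / b : Fˣ) = 1 := by
      apply Units.ext
      rw [Units.val_div_eq_div_val]
      exact he
    rw [this, map_one]
  have hnem1 : ((a : F) / b) ≠ -1 := by
    intro he
    apply halr
    have : (a / b : Fˣ) = -1 := by
      apply Units.ext
      rw [Units.val_div_eq_div_val]
      exact he
    rw [this]
    exact hal hq
  obtain ⟨r, hr, hrs⟩ := hns
  have hrc' := hrat P hP r hr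
  have hodd : ∀ j, c ≠ 2 * j + 1 := by
    intro j hj
    apply hrs
    refine ⟨r ^ (j + 1), ?_⟩
    rw [← pow_add, show j + 1 + (j + 1) = c + 1 by omega, pow_succ, hrc', one_mul]
  have hc := hN2 (Nat.card F) c D hq hc1 hcq
    (fun d hd => ⟨(hD d hd).1, (hD d hd).2.1, (hD d hd).2.2.1⟩) (by
    rw [Nat.cast_one, mul_one, sub_self, zero_div, zero_add] at hsum
    exact hsum)
  rcases hc with h | h | h | h
  · exact hodd 0 (by omega)
  · rw [h] at hrc
    rcases sq_one hrc with h' | h'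
    · exact hne1 h'
    · exact hnem1 h'
  · exact hodd 1 (by omega)
  · exact hodd 2 (by omega)

/-- `q = 5`, dimension 2. -/
theorem two_five (hLG : LGEO) [Finite F] {K : Subgroup (V ≃ₗ[F] V)}
    (h2 : finrank F V = 2) (hPt : PtTrans K) (hq : Nat.card F = 5) (h5 : 5 ∣ Nat.card K) :
    TwoTrans K := by
  obtain ⟨w, c, D, hw1, hc1, hws, hwq, hw, hw', hwT, hcw, hcq, hrat, hD, hsum⟩ :=
    hLG F V K h2 hPt
  apply hwT
  obtain ⟨hp, e, he⟩ := prime_pow_card F
  have hchar : ringChar F = 5 := by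
    have h1 : ringChar F ∣ 5 := by
      rw [← hq, he]
      refine dvd_pow_self _ ?_
      rintro rfl
      rw [pow_zero] at he
      omega
    exact ((Nat.prime_dvd_prime_iff_eq hp (by norm_num)).1 h1)
  have hwne : w ≠ 1 := fun h => hw h (by rw [hchar]; exact h5)
  rw [hq] at hwq
  rcases (Nat.dvd_prime (by norm_num)).1 hwq with h | h
  · exact absurd h hwne
  · rw [h, hq]

end

end GL4
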