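import Pool.Agent.Helper79.GL4.Asm4

/-!
# GL4: assembly, part 5 (MP_27a5f8_al): the case of `GL₄(2)`, and ratios from determinants
-/

set_option linter.unusedVariables false

namespace GL4

open Module Submodule

section
variable {F : Type} [Field F] {V : Type} [AddCommGroup V] [Module F V]

theorem card_lines_thr [Finite F] [FiniteDimensional F V] {x : Submodule F V} (hx : Pt x) :
    Nat.card {M : Submodule F V // Ln M ∧ x ≤ M} = br (Nat.card F) (finrank F V - 1) := by
  have h1 : finrank F (V ⧸ x) = finrank F V - 1 := by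
    have h := Submodule.finrank_quotient_add_finrank x
    have hx' : finrank F x = 1 := hx
    omega
  rw [← h1, ← card_pts (F := F) (V := V ⧸ x)]
  refine Nat.card_congr
    { toFun := fun M => ⟨M.1.map x.mkQ, M.2.1.down M.2.2 hx⟩
      invFun := fun y => ⟨y.1.comap x.mkQ, y.2.up hx, le_up y.1⟩
      left_inv := fun M => Subtype.ext (up_down M.2.2)
      right_inv := fun y => Subtype.ext (down_up y.1) }

/-- the number of lines of `F₂⁴` -/
theorem card_lns42 [Finite F] [FiniteDimensional F V] (h4 : finrank F V = 4)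
    (hq : Nat.card F = 2) : Nat.card (Lns F V) = 35 := by
  have e : (Σ P : Pts F V, {M : Submodule F V // Ln M ∧ P.1 ≤ M}) ≃
      (Σ L : Lns F V, {x : Submodule F V // Pt x ∧ x ≤ L.1}) :=
    { toFun := fun a => ⟨⟨a.2.1, a.2.2.1⟩, ⟨a.1.1, a.1.2, a.2.2.2⟩⟩
      invFun := fun a => ⟨⟨a.2.1, a.2.2.1⟩, ⟨a.1.1, a.1.2, a.2.2.2⟩⟩
      left_inv := fun a => rfl
      right_inv := fun a => rfl }
  have := Fintype.ofFinite (Pts F V)
  have := Fintype.ofFinite (Lns F V)
  have h := Nat.card_congr e
  rw [Nat.card_sigma, Nat.card_sigma] at h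
  have h1 : ∀ P : Pts F V, Nat.card {M : Submodule F V // Ln M ∧ P.1 ≤ M} = 7 := by
    intro P
    rw [card_lines_thr P.2, h4, hq]
    decide
  have h2 : ∀ L : Lns F V, Nat.card {x : Submodule F V // Pt x ∧ x ≤ L.1} = 3 := by
    intro L
    have hL : finrank F L.1 = 2 := L.2
    rw [card_pts_le, hL, hq]
    decide
  simp only [h1, h2, Finset.sum_const, smul_eq_mul, Finset.card_univ] at h
  have h3 : Nat.card (Pts F V) = 15 := by
    have := card_pts (F := F) (V := V)
    rw [h4, hq] at this
    exact this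
  rw [← Nat.card_eq_fintype_card, ← Nat.card_eq_fintype_card, h3] at h
  omega

theorem card_pts42 [Finite F] [FiniteDimensional F V] (h4 : finrank F V = 4)
    (hq : Nat.card F = 2) : Nat.card (Pts F V) = 15 := by
  have := card_pts (F := F) (V := V)
  rw [h4, hq] at this
  exact this

theorem ptTrans_q2 [Finite F] [FiniteDimensional F V] (h2 : finrank F V = 2)
    (hq : Nat.card F = 2) {K : Subgroup (V ≃ₗ[F] V)}
    {k g : V ≃ₗ[F] V} (hk : k ∈ K) (hg : g ∈ K) {P Q : Submodule F V} (hP : Pt P) (hQ : Pt Q)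
    (hkP : im k P = P) (hkQ : im k Q ≠ Q) (hgP : im g P ≠ P) : PtTrans K := by
  have hPQ : P ≠ Q := by rintro rfl; exact hkQ hkP
  have hPkQ : P ≠ im k Q := by
    intro he
    exact hPQ ((im_inj k).1 (by rw [hkP]; exact he))
  have hc : ∀ D, Pt D → D = P ∨ D = Q ∨ D = im k Q := fun D hD =>
    pt_cases2 h2 hq hP hQ hQ.im hD hPQ hPkQ hkQ.symm
  have hkk : im k (im k Q) = Q := by
    rcases hc (im k (im k Q)) hQ.im.im with h | h | h
    · exfalso
      apply hPkQ
      refine (im_inj k).1 ?_
      rw [h, hkP]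
    · exact h
    · exact absurd ((im_inj k).1 h) hkQ
  have key : ∀ y, Pt y → ∃ m ∈ K, im m P = y := by
    intro y hy
    rcases hc y hy with h | h | h
    · exact ⟨1, K.one_mem, by rw [im_one, h]⟩
    · rcases hc (im g P) hP.im with h' | h' | h'
      · exact absurd h' hgP
      · exact ⟨g, hg, by rw [h, h']⟩
      · exact ⟨k * g, K.mul_mem hk hg, by rw [im_mul, h', hkk, h]⟩
    · rcases hc (im g P) hP.im with h' | h' | h'
      · exact absurd h' hgP
      · exact ⟨k * g, K.mul_mem hk hg, by rw [im_mul, h', h]⟩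
      · exact ⟨g, hg, by rw [h, h']⟩
  intro x y hx hy
  obtain ⟨m, hm, hmx⟩ := key x hx
  obtain ⟨m', hm', hmy⟩ := key y hy
  refine ⟨m' * m⁻¹, K.mul_mem hm' (K.inv_mem hm), ?_⟩
  rw [im_mul, ← hmx, im_inv_im, hmy]

theorem pretrans_of_orb {G X : Type} [Group G] [MulAction G X] (h : orb G X = 1) :
    MulAction.IsPretransitive G X := by
  rw [MulAction.pretransitive_iff_subsingleton_quotient]
  exact (Nat.card_eq_one_iff_unique.1 h).1

/-- `GL₄(2)`: 2-transitivity from the sign character data. -/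
theorem two_42 (hOB : OB) [Finite F] [FiniteDimensional F V] (h4 : finrank F V = 4)
    (hq : Nat.card F = 2) {K : Subgroup (V ≃ₗ[F] V)} (hL1 : orb K (Lns F V) = 1)
    (hP1 : orb K (Pts F V) = 1)
    (h : ∀ L : Submodule F V, Ln L →
        ∃ k ∈ K, im k L = L ∧ ∃ P Q : Submodule F V, Pt P ∧ Pt Q ∧ P ≤ L ∧ Q ≤ L ∧
          im k P = P ∧ im k Q ≠ Q) : TwoTrans K := by
  have hlines := (hOB F V K).2.1 hL1
  refine two_q2 hq hlines (fun L hL => ?_) h
  obtain ⟨k, hk, hkL, P, Q, hP, hQ, hPL, hQL, hkP, hkQ⟩ := h L hL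
  obtain ⟨g, hg, hgk⟩ := restr_data hk hkL
  by_contra hcon
  have hfix : ∀ m ∈ K, im m L = L → im m P = P := by
    intro m hm hmL
    by_contra hmP
    obtain ⟨g', hg', hgk'⟩ := restr_data hm hmL
    exact hcon (ptTrans_q2 hL hq hg hg' (restr_pt hPL hP) (restr_pt hQL hQ)
      ((hgk P P hPL hPL).2 hkP) (fun he => hkQ ((hgk Q Q hQL hQL).1 he))
      (fun he => hmP ((hgk' P P hPL hPL).1 he)))
  have := pretrans_of_orb hL1
  have := pretrans_of_orb hP1
  let l : Lns F V := ⟨L, hL⟩
  let pp : Pts F V := ⟨P, hP⟩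
  have hle : MulAction.stabilizer K l ≤ MulAction.stabilizer K pp := by
    rintro ⟨m, hm⟩ hmem
    rw [MulAction.mem_stabilizer_iff] at hmem ⊢
    have h1 : im m L = L := congrArg Subtype.val hmem
    exact Subtype.ext (hfix m hm h1)
  have hd := Subgroup.index_dvd_of_le hle
  rw [MulAction.index_stabilizer_of_transitive, MulAction.index_stabilizer_of_transitive,
    card_pts42 h4 hq, card_lns42 h4 hq] at hd
  omega

/-- `GL₄(2)`: no subgroup of order 2520 is transitive on 28 points. -/
theorem no_2520 (hN : N45) [Finite F] [FiniteDimensional F V] (h4 : finrank F V = 4)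
    (hq : Nat.card F = 2) {K : Subgroup (V ≃ₗ[F] V)} (Z : Type) [Finite Z]
    [MulAction (V ≃ₗ[F] V) Z] (hZ : Nat.card Z = 28) (ho : orb K Z = 1) :
    Nat.card K ≠ 2520 := by
  intro hc
  have := pretrans_of_orb ho
  have : Nonempty Z := by
    by_contra hne
    rw [not_nonempty_iff] at hne
    rw [Nat.card_of_isEmpty] at hZ
    omega
  obtain ⟨z⟩ := this
  have h1 := Subgroup.card_mul_index (MulAction.stabilizer K z)
  rw [MulAction.index_stabilizer_of_transitive, hZ, hc] at h1
  have h2 : Nat.card (MulAction.stabilizer K z) = 90 := by omega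
  have h3 : Nat.card ((MulAction.stabilizer K z).map K.subtype) = 90 := by
    rw [Subgroup.card_map_of_injective K.subtype_injective, h2]
  exact (hN F V h4 hq _).2 h3

/-- ratio from the determinant -/
theorem ratio_of_det [FiniteDimensional F V] {K : Subgroup (V ≃ₗ[F] V)} (h2 : finrank F V = 2)
    {P : Submodule F V} (hP : Pt P) {k : V ≃ₗ[F] V} (hk : k ∈ K) (hkP : im k P = P)
    (hd : ¬ IsSquare (LinearMap.det (k : V →ₗ[F] V))) : ∃ r, IsRatio K P r ∧ ¬ IsSquare r := by
  obtain ⟨p, hp0, rfl⟩ := hP.exists_span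
  have hne : ¬ (⊤ : Submodule F V) ≤ F ∙ p := by
    intro hc
    have := Submodule.finrank_mono hc
    rw [finrank_top, hP, h2] at this
    omega
  obtain ⟨w, -, hwP⟩ := SetLike.not_le_iff_exists.1 hne
  have hli : LinearIndependent F ![p, w] := by
    rw [LinearIndependent.pair_iff]
    intro s t hst
    have ht : t = 0 := by
      by_contra ht
      apply hwP
      have : w = (-(t⁻¹ * s)) • p := by
        have h3 : t • w = -(s • p) := eq_neg_of_add_eq_zero_right hst
        calc w = t⁻¹ • (t • w) := by rw [smul_smul, inv_mul_cancel₀ ht, one_smul]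
          _ = _ := by rw [h3, smul_neg, smul_smul, neg_smul]
      rw [this]
      exact Submodule.smul_mem _ _ (mem_span_singleton_self p)
    subst ht
    rw [zero_smul, add_zero] at hst
    exact ⟨(smul_eq_zero.1 hst).resolve_right hp0, rfl⟩
  let b : Basis (Fin 2) F V := basisOfLinearIndependentOfCardEqFinrank hli (by simp [h2])
  have hb0 : b 0 = p := by simp [b]
  have hb1 : b 1 = w := by simp [b]
  obtain ⟨a, ha⟩ : ∃ a : F, k p = a • p := by
    have : k p ∈ F ∙ p := by
      rw [← hkP]; exact apply_mem_im (mem_span_singleton_self p)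
    obtain ⟨a, ha⟩ := mem_span_singleton.1 this
    exact ⟨a, ha.symm⟩
  set c := b.repr (k w) 0 with hc
  set d := b.repr (k w) 1 with hd'
  have hkw : k w = c • p + d • w := by
    have := b.sum_repr (k w)
    rw [Fin.sum_univ_two, hb0, hb1] at this
    exact this.symm
  have hdet : LinearMap.det (k : V →ₗ[F] V) = a * d := by
    rw [← LinearMap.det_toMatrix b, Matrix.det_fin_two]
    simp only [LinearMap.toMatrix_apply, hb0, hb1, LinearEquiv.coe_coe]
    rw [ha]
    have e1 : b.repr p = Finsupp.single 0 1 := by rw [← hb0, b.repr_self]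
    rw [map_smul, e1]
    simp [← hd']
  have hdne : d ≠ 0 := by
    intro h0
    apply hd
    rw [hdet, h0, mul_zero]
    exact ⟨0, by simp⟩
  refine ⟨a / d, ⟨k, hk, a, d, hdne, ?_, ?_, rfl⟩, ?_⟩
  · intro v hv
    obtain ⟨s, rfl⟩ := mem_span_singleton.1 hv
    rw [map_smul, ha, smul_comm]
  · intro v
    have hv := b.sum_repr v
    rw [Fin.sum_univ_two, hb0, hb1] at hv
    rw [← hv, map_add, map_smul, map_smul, ha, hkw]
    have : b.repr v 0 • a • p + b.repr v 1 • (c • p + d • w) -
        d • (b.repr v 0 • p + b.repr v 1 • w) =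
        (b.repr v 0 * a + b.repr v 1 * c - d * b.repr v 0) • p := by
      module
    rw [this]
    exact Submodule.smul_mem _ _ (mem_span_singleton_self p)
  · rintro ⟨s, hs⟩
    apply hd
    refine ⟨s * d, ?_⟩
    rw [hdet, (div_eq_iff hdne).1 hs]
    ring

end

end GL4
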