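import Pool.Agent.Helper79.GL4.Asm5

/-!
# GL4: assembly, part 6 (MP_27a5f8_al): four characters
-/

set_option linter.unusedVariables false
set_option linter.unusedSectionVars false

namespace GL4

open Module Submodule

/-- ingredients from representation theory, and on lines -/
structure RepH : Prop where
  sc : SC
  pel : PEL
  jb : JB
  lgeo : LGEO
  lnum1 : LNUM1
  lnum2 : LNUM2
  lnum3 : LNUM3
  al : AL
  ea : EA
  es2 : ES2
  es3 : ES3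
  n2 : N2
  q5 : Q5
  glo : GLO
  ob : OB
  f28 : F28
  n45 : N45

/-- four nontrivial irreducible characters mark all subgroups not containing SL -/
def Good (F : Type) [Field F] (V : Type) [AddCommGroup V] [Module F V] : Prop :=
  ∃ X : Set ((V ≃ₗ[F] V) → ℂ), X.Finite ∧ X.ncard ≤ 4 ∧ (∀ χ ∈ X, IsIrr χ ∧ χ ≠ 1) ∧
    ∀ K : Subgroup (V ≃ₗ[F] V), (∀ χ ∈ X, ¬ Marks χ K) → HasSL K

section
variable {F : Type} [Field F] [Finite F] {V : Type} [AddCommGroup V] [Module F V]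
  [FiniteDimensional F V]

theorem con_mem {G X : Type} [Group G] [MulAction G X] {χ : G → ℂ} (h : χ ∈ Con G X) :
    IsIrr χ ∧ χ ≠ 1 := ⟨h.1, h.2.1⟩

theorem sl_of_mt (hMT : ∀ n, 2 ≤ n → MT F n) (hn : 2 ≤ finrank F V)
    (hne : finrank F V ≠ 4 ∨ Nat.card F ≠ 2) {K : Subgroup (V ≃ₗ[F] V)} (hK : TwoTrans K) :
    HasSL K := by
  rcases hMT _ hn V rfl K hK with h | ⟨h1, h2, -⟩
  · exact h
  · rcases hne with h | h
    · exact absurd h1 h
    · exact absurd h2 h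

/-- dimension at least 3, one further character -/
theorem good_insert {X₀ : Set ((V ≃ₗ[F] V) → ℂ)} {χ : (V ≃ₗ[F] V) → ℂ} (h1 : X₀.Finite)
    (h2 : X₀.ncard ≤ 3) (h3 : ∀ χ ∈ X₀, IsIrr χ ∧ χ ≠ 1) (h4 : IsIrr χ ∧ χ ≠ 1)
    (h5 : ∀ K : Subgroup (V ≃ₗ[F] V), (∀ χ ∈ X₀, ¬ Marks χ K) → ¬ Marks χ K → HasSL K) :
    Good F V := by
  refine ⟨insert χ X₀, h1.insert χ, ?_, ?_, ?_⟩
  · have := Set.ncard_insert_le χ X₀
    omega
  · intro ψ hψ
    rcases Set.mem_insert_iff.1 hψ with h | h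
    · rw [h]; exact h4
    · exact h3 ψ h
  · intro K hK
    exact h5 K (fun ψ hψ => hK ψ (Set.mem_insert_of_mem _ hψ)) (hK χ (Set.mem_insert _ _))

theorem flag_data (h : RepH) (hn : 3 ≤ finrank F V) :
    (Con (V ≃ₗ[F] V) (Flg F V)).Finite ∧ (Con (V ≃ₗ[F] V) (Flg F V)).ncard ≤ 3 ∧
    ∀ K : Subgroup (V ≃ₗ[F] V), (∀ χ ∈ Con (V ≃ₗ[F] V) (Flg F V), ¬ Marks χ K) →
      FlagPL K := by
  obtain ⟨s1, s2, s3, s4, s5, s6⟩ := h.sc (V ≃ₗ[F] V)
  obtain ⟨g1, g2, g3, g4, g5, g6, g7⟩ := h.glo F V (by omega)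
  obtain ⟨g8, g9⟩ := g7 hn
  refine ⟨s1 _, s4 _ _ g4 g1 g2 g8 g5, fun K hK => ?_⟩
  exact (h.ob F V K).2.2 (s2 _ g4 K hK)

theorem pt_data (h : RepH) (hn : 2 ≤ finrank F V) :
    (Con (V ≃ₗ[F] V) (Pts F V)).Finite ∧ (Con (V ≃ₗ[F] V) (Pts F V)).ncard ≤ 1 ∧
    ∀ K : Subgroup (V ≃ₗ[F] V), (∀ χ ∈ Con (V ≃ₗ[F] V) (Pts F V), ¬ Marks χ K) →
      PtTrans K := by
  obtain ⟨s1, s2, s3, s4, s5, s6⟩ := h.sc (V ≃ₗ[F] V)
  obtain ⟨g1, g2, g3, g4, g5, g6, g7⟩ := h.glo F V (by omega)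
  refine ⟨s1 _, s5 _ g1 g2.le, fun K hK => ?_⟩
  exact (h.ob F V K).1 (s2 _ g1 K hK)

/-- `q ≥ 4`, dimension at least 3 -/
theorem good_big (h : RepH) (hMT : ∀ n, 2 ≤ n → MT F n) (hn : 3 ≤ finrank F V)
    (hq : 4 ≤ Nat.card F) : Good F V := by
  obtain ⟨f1, f2, f3⟩ := flag_data (V := V) h hn
  obtain ⟨al, hal1, hal2⟩ := h.al F hq
  obtain ⟨χ, hχ1, hχ2, hχ3⟩ := h.ea F V (by omega) al hal1
  refine good_insert f1 f2 (fun ψ hψ => con_mem hψ) ⟨hχ1, hχ2⟩ fun K hK hK' => ?_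
  exact sl_of_mt hMT (by omega) (Or.inr (by omega))
    (two_big h.pel h.jb h.lgeo h.lnum1 hn (f3 K hK) al hal2 (hχ3 K hK'))

/-- `q = 3`, dimension at least 3 -/
theorem good_q3 (h : RepH) (hMT : ∀ n, 2 ≤ n → MT F n) (hn : 3 ≤ finrank F V)
    (hq : Nat.card F = 3) : Good F V := by
  obtain ⟨f1, f2, f3⟩ := flag_data (V := V) h hn
  obtain ⟨χ, hχ1, hχ2, hχ3⟩ := h.es3 F V (by omega) hq
  refine good_insert f1 f2 (fun ψ hψ => con_mem hψ) ⟨hχ1, hχ2⟩ fun K hK hK' => ?_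
  have hF := f3 K hK
  exact sl_of_mt hMT (by omega) (Or.inr (by omega))
    (two_q3 hq (lines_of_flag hF) (fun L hL => ptTrans_sGrp_of_flag hF hL) (hχ3 K hK'))

/-- `q = 2`, dimension at least 3, not 4 -/
theorem good_q2 (h : RepH) (hMT : ∀ n, 2 ≤ n → MT F n) (hn : 3 ≤ finrank F V)
    (hn4 : finrank F V ≠ 4) (hq : Nat.card F = 2) : Good F V := by
  obtain ⟨f1, f2, f3⟩ := flag_data (V := V) h hn
  obtain ⟨χ, hχ1, hχ2, hχ3⟩ := h.es2 F V (by omega) hq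
  refine good_insert f1 f2 (fun ψ hψ => con_mem hψ) ⟨hχ1, hχ2⟩ fun K hK hK' => ?_
  have hF := f3 K hK
  exact sl_of_mt hMT (by omega) (Or.inl hn4)
    (two_q2 hq (lines_of_flag hF) (fun L hL => ptTrans_sGrp_of_flag hF hL) (hχ3 K hK'))

/-- `q = 2`, dimension 4 -/
theorem good_42 (h : RepH) (hMT : ∀ n, 2 ≤ n → MT F n) (hn : finrank F V = 4)
    (hq : Nat.card F = 2) : Good F V := by
  obtain ⟨Z, hZf, hZa, hZ28, hZ1, hZ3, hLZ⟩ := h.f28 F V hn hq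
  obtain ⟨s1, s2, s3, s4, s5, s6⟩ := h.sc (V ≃ₗ[F] V)
  obtain ⟨g1, g2, g3, g4, g5, g6, g7⟩ := h.glo F V (by omega)
  obtain ⟨g8, g9⟩ := g7 (by omega)
  obtain ⟨χ, hχ1, hχ2, hχ3⟩ := h.es2 F V (by omega) hq
  refine good_insert (X₀ := Con (V ≃ₗ[F] V) (Lns F V) ∪ Con (V ≃ₗ[F] V) Z)
    ((s1 _).union (s1 _)) (s6 _ _ g3 hZ1 g6 hZ3 hLZ) ?_ ⟨hχ1, hχ2⟩ fun K hK hK' => ?_
  · rintro ψ (hψ | hψ)
    · exact con_mem hψ
    · exact con_mem hψ
  have hL1 : orb K (Lns F V) = 1 := s2 _ g3 K fun ψ hψ => hK ψ (Or.inl hψ)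
  have hP1 : orb K (Pts F V) = 1 :=
    s2 _ g1 K fun ψ hψ => hK ψ (Or.inl (s3 _ _ g3 g1 g2 g9 hψ))
  have hZK : orb K Z = 1 := s2 _ hZ1 K fun ψ hψ => hK ψ (Or.inr hψ)
  have h2 := two_42 h.ob hn hq hL1 hP1 (hχ3 K hK')
  rcases hMT _ (by omega : 2 ≤ finrank F V) V rfl K h2 with h3 | ⟨-, -, h3⟩
  · exact h3
  · exact absurd h3 (no_2520 h.n45 hn hq Z hZ28 hZK)

theorem ratio_of_ea {K : Subgroup (V ≃ₗ[F] V)} (h2 : finrank F V = 2) {al : Fˣ →* ℂˣ}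
    (h : ∀ P L : Submodule F V, Pt P → Ln L → P ≤ L →
          ∃ k ∈ K, ∃ a b : Fˣ, (∀ v ∈ P, k v = (a : F) • v) ∧
            (∀ v ∈ L, k v ∈ L ∧ k v - (b : F) • v ∈ P) ∧ al (a / b) ≠ 1)
    {P : Submodule F V} (hP : Pt P) : ∃ a b : Fˣ, IsRatio K P (a / b) ∧ al (a / b) ≠ 1 := by
  obtain ⟨k, hk, a, b, h1, h3, h4⟩ := h P ⊤ hP (by rw [Ln, finrank_top, h2]) le_top
  exact ⟨a, b, ⟨k, hk, a, b, b.ne_zero, h1, fun v => (h3 v mem_top).2, rfl⟩, h4⟩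

theorem exists_pt' (hn : 1 ≤ finrank F V) : ∃ P : Submodule F V, Pt P := by
  have : (⊤ : Submodule F V) ≠ ⊥ := by
    intro he
    have := finrank_top F V
    rw [he, finrank_bot] at this
    omega
  obtain ⟨P, hP, -⟩ := exists_pt_le this
  exact ⟨P, hP⟩

/-- dimension 2, `q` even, at least 4 -/
theorem good_even (h : RepH) (hMT : ∀ n, 2 ≤ n → MT F n) (hn : finrank F V = 2)
    (hq : 4 ≤ Nat.card F) (he : 2 ∣ Nat.card F) : Good F V := by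
  obtain ⟨f1, f2, f3⟩ := pt_data (F := F) (V := V) h (by omega)
  obtain ⟨al, hal1, hal2⟩ := h.al F hq
  obtain ⟨χ, hχ1, hχ2, hχ3⟩ := h.ea F V (by omega) al hal1
  refine good_insert f1 (by omega) (fun ψ hψ => con_mem hψ) ⟨hχ1, hχ2⟩ fun K hK hK' => ?_
  obtain ⟨P, hP⟩ := exists_pt' (F := F) (V := V) (by omega)
  exact sl_of_mt hMT (by omega) (Or.inl (by omega))
    (two_even h.lgeo h.lnum1 h.lnum3 hn (f3 K hK) he al hal2 P hP
      (ratio_of_ea hn (hχ3 K hK') hP))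

/-- dimension 2, `q` odd, at least 7 -/
theorem good_odd (h : RepH) (hMT : ∀ n, 2 ≤ n → MT F n) (hn : finrank F V = 2)
    (hq : 7 ≤ Nat.card F) (he : ringChar F ≠ 2) : Good F V := by
  obtain ⟨f1, f2, f3⟩ := pt_data (F := F) (V := V) h (by omega)
  obtain ⟨al, hal1, hal2⟩ := h.al F (by omega)
  obtain ⟨χ, hχ1, hχ2, hχ3⟩ := h.ea F V (by omega) al hal1
  obtain ⟨S, hS1, hS2, hS3, hS4⟩ := h.n2 F V hn he
  refine good_insert (X₀ := Con (V ≃ₗ[F] V) (Pts F V) ∪ S) (f1.union hS1) ?_ ?_ ⟨hχ1, hχ2⟩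
    fun K hK hK' => ?_
  · have := Set.ncard_union_le (Con (V ≃ₗ[F] V) (Pts F V)) S
    omega
  · rintro ψ (hψ | hψ)
    · exact con_mem hψ
    · exact hS3 ψ hψ
  obtain ⟨P, hP⟩ := exists_pt' (F := F) (V := V) (by omega)
  have hPt := f3 K fun ψ hψ => hK ψ (Or.inl hψ)
  obtain ⟨k, hk, hkP, hkd⟩ := hS4 K hPt (fun ψ hψ => hK ψ (Or.inr hψ)) P hP
  exact sl_of_mt hMT (by omega) (Or.inl (by omega))
    (two_odd h.lgeo h.lnum1 h.lnum2 hn hPt hq al hal2 P hP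
      (ratio_of_ea hn (hχ3 K hK') hP) (ratio_of_det hn hP hk hkP hkd))

/-- dimension 2, `q = 5` -/
theorem good_five (h : RepH) (hMT : ∀ n, 2 ≤ n → MT F n) (hn : finrank F V = 2)
    (hq : Nat.card F = 5) : Good F V := by
  obtain ⟨f1, f2, f3⟩ := pt_data (F := F) (V := V) h (by omega)
  obtain ⟨χ, hχ1, hχ2, hχ3⟩ := h.q5 F V hn hq
  refine good_insert f1 (by omega) (fun ψ hψ => con_mem hψ) ⟨hχ1, hχ2⟩ fun K hK hK' => ?_
  exact sl_of_mt hMT (by omega) (Or.inl (by omega))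
    (two_five h.lgeo hn (f3 K hK) hq (hχ3 K hK'))

/-- dimension 2, `q = 3` -/
theorem good_three (h : RepH) (hMT : ∀ n, 2 ≤ n → MT F n) (hn : finrank F V = 2)
    (hq : Nat.card F = 3) : Good F V := by
  obtain ⟨f1, f2, f3⟩ := pt_data (F := F) (V := V) h (by omega)
  obtain ⟨χ, hχ1, hχ2, hχ3⟩ := h.es3 F V (by omega) hq
  refine good_insert f1 (by omega) (fun ψ hψ => con_mem hψ) ⟨hχ1, hχ2⟩ fun K hK hK' => ?_
  have hF := flag_of_ptTrans hn (f3 K hK)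
  exact sl_of_mt hMT (by omega) (Or.inl (by omega))
    (two_q3 hq (lines_of_flag hF) (fun L hL => ptTrans_sGrp_of_flag hF hL) (hχ3 K hK'))

/-- dimension 2, `q = 2` -/
theorem good_two (h : RepH) (hMT : ∀ n, 2 ≤ n → MT F n) (hn : finrank F V = 2)
    (hq : Nat.card F = 2) : Good F V := by
  obtain ⟨f1, f2, f3⟩ := pt_data (F := F) (V := V) h (by omega)
  obtain ⟨χ, hχ1, hχ2, hχ3⟩ := h.es2 F V (by omega) hq
  refine good_insert f1 (by omega) (fun ψ hψ => con_mem hψ) ⟨hχ1, hχ2⟩ fun K hK hK' => ?_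
  have hF := flag_of_ptTrans hn (f3 K hK)
  exact sl_of_mt hMT (by omega) (Or.inl (by omega))
    (two_q2 hq (lines_of_flag hF) (fun L hL => ptTrans_sGrp_of_flag hF hL) (hχ3 K hK'))

/-- four characters, for all `n ≥ 2` and all finite fields -/
theorem good_all (h : RepH) (hMT : ∀ n, 2 ≤ n → MT F n) (hn : 2 ≤ finrank F V) :
    Good F V := by
  have hq1 : 1 < Nat.card F := Finite.one_lt_card
  obtain ⟨hp, e, he⟩ := prime_pow_card F
  rcases Nat.lt_or_ge (finrank F V) 3 with h3 | h3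
  · have hn2 : finrank F V = 2 := by omega
    by_cases hev : ringChar F = 2
    · have h2 : 2 ∣ Nat.card F := by
        rw [he, hev]
        refine dvd_pow_self _ ?_
        rintro rfl
        rw [pow_zero] at he
        omega
      by_cases h2' : Nat.card F = 2
      · exact good_two h hMT hn2 h2'
      · exact good_even h hMT hn2 (by omega) h2
    · have h2 : ¬ 2 ∣ Nat.card F := by
        rw [he]
        intro hd
        have := Nat.prime_two.dvd_of_dvd_pow hd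
        exact hev ((Nat.prime_dvd_prime_iff_eq Nat.prime_two hp).1 this).symm
      rcases Nat.lt_or_ge (Nat.card F) 7 with h7 | h7
      · have : Nat.card F = 3 ∨ Nat.card F = 5 := by omega
        rcases this with h' | h'
        · exact good_three h hMT hn2 h'
        · exact good_five h hMT hn2 h'
      · exact good_odd h hMT hn2 h7 hev
  · rcases Nat.lt_or_ge (Nat.card F) 4 with h4 | h4
    · have : Nat.card F = 2 ∨ Nat.card F = 3 := by omega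
      rcases this with h' | h'
      · by_cases hn4 : finrank F V = 4
        · exact good_42 h hMT hn4 h'
        · exact good_q2 h hMT h3 hn4 h'
      · exact good_q3 h hMT h3 h'
    · exact good_big h hMT h3 h4

end

end GL4
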