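import Pool.Agent.Helper79.GL4.Asm2
import Pool.Agent.Helper79.GL4.Asm6
import Pool.Agent.Helper31.GL4.BR1
import Pool.Agent.Helper69.GL4.BR2
import Pool.Agent.Helper61.GL4.SLG
import Pool.Agent.Helper32.GL4.TRV
import Pool.Agent.Helper49.GL4.MT2
import Pool.Agent.Helper93.GL4.Tra
import Pool.Agent.Helper13.GL4.ANT
import Pool.Agent.Helper37.GL4.MT3
import Pool.Agent.Helper62.GL4.TT
import Pool.Agent.Helper54.GL4.SLT
import Pool.Agent.Helper8.GL4.TRZ
import Pool.Agent.Helper3.GL4.PEL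
import Pool.Agent.Helper23.GL4.JB
import Pool.Agent.Helper59.GL4.LNum
import Pool.Agent.Helper96.GL4.S5A
import Pool.Agent.Helper6.GL4.S5B1
import Pool.Agent.Helper5.GL4.S5B2
import Pool.Agent.Helper39.GL4.S5B3
import Pool.Agent.Helper16.GL4.S5C
import Pool.Agent.Helper25.GL4.CH
import Pool.Agent.Helper96.GL4.PCH
import Pool.Agent.Helper35.GL4.SCp
import Pool.Agent.Helper15.GL4.ML
import Pool.Agent.Helper83.GL4.AL
import Pool.Agent.Helper20.GL4.EA
import Pool.Agent.Helper72.GL4.ES2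
import Pool.Agent.Helper74.GL4.ES3
import Pool.Agent.Helper73.GL4.N2
import Pool.Agent.Helper41.GL4.Q5
import Pool.Agent.Helper4.GL4.GLO
import Pool.Agent.Helper46.GL4.OB
import Pool.Agent.Helper71.GL4.N45
import Pool.Agent.Helper33.GL4.F28
import Pool.Agent.Helper30.GL4.LGEO
import Pool.Agent.Helper89.GL4.M2
import Pool.Agent.Helper49.GL4.CANB
import Pool.Agent.Helper69.GL4.M7
import Pool.Agent.Helper31.GL4.CANN
import Pool.Agent.Helper85.GL4.NAT
import Pool.Agent.Helper8.GL4.LINK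
import Pool.Agent.Helper29.GL4.LTW
import Pool.Agent.Helper6.GL4.E1
import Pool.Agent.Helper27.GL4.E2
import Pool.Agent.Helper86.GL4.E3
import Pool.Agent.Helper13.GL4.PGF
import Pool.Agent.Helper62.GL4.Symc
import Pool.Agent.Helper32.GL4.POL1
import Pool.Agent.Helper5.GL4.POL2
import Pool.Agent.Helper17.GL4.SPEC1
import Pool.Agent.Helper61.GL4.SPEC2
import Pool.Agent.Helper11.GL4.PFIN
import Pool.Agent.Helper96.GL4.BLK
import Pool.Agent.Helper74.GL4.STB
import Pool.Agent.Helper3.GL4.SP1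
import Pool.Agent.Helper75.GL4.SP2
import Pool.Agent.Helper53.GL4.SP3
import Pool.Agent.Helper77.GL4.SP4
import Pool.Agent.Helper63.GL4.NPOL
import Pool.Agent.Helper26.GL4.GLUE
import Pool.Agent.Helper73.GL4.NTri
import Pool.Agent.Helper34.GL4.D12
import Pool.Agent.Helper87.GL4.PCU
import Pool.Agent.Helper15.GL4.CST

/-!
# GL4: assembly, part 7 (MP_27a5f8_al): all ingredients hold
-/

set_option linter.unusedVariables false

namespace GL4.Fin79

open Module Submodule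

theorem spec : SPEC := by
  intro q k hq hk Om _ _ M h1 h2 h3 h4 h5 h6 h7
  obtain ⟨a1, a2, a3⟩ := GL4.SPEC2Proof.spec2 q k hq hk _ rfl
  obtain ⟨mu, hmu⟩ := _root_.Pool.Agent.Helper17.GL4.spec1 q k hq hk Om M h1 h2 h3 h4 h5 h6 h7
    _ a1 a2
  exact a3 mu hmu

theorem br2 : BR2 := GL4.H69.br2 (fun F _ _ V _ _ _ g => GL4.fix_eq g)

theorem ant : ANT := GL4.H13.ant br2

theorem mt3 : MT3 := _root_.Pool.Agent.Helper37.GL4P.mt3 br2
  _root_.Pool.Agent.Helper32.GL4TRV.trv GL4.SLGProof.slg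

theorem trz : TRZ := _root_.Pool.Agent.Helper8.GL4T.trz (GL4.tt GL4.br1 br2 ant GL4.tra mt3) GL4.slt

theorem blk : BLK := GL4.PkBLK.thm trz

theorem all : AllH where
  br1 := GL4.br1
  br2 := br2
  slg := GL4.SLGProof.slg
  trv := _root_.Pool.Agent.Helper32.GL4TRV.trv
  mt2 := GL4.mt2 GL4.SLGProof.slg
  ant := ant
  mt3 := mt3
  trz := trz
  s5a := GL4.PkS5A.thm
  s5b1 := GL4.s5b1
  s5b2 := GL4.PkS5B2.s5B2
  s5b3 := GL4.H39.s5b3 GL4.SLGProof.slg
  s5c := _root_.Pool.Agent.Helper16.S5CProof.s5c br2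
  m2 := Helper89M2.m2 GL4.br1
  canb := GL4.canb
  m7 := GL4.H69m7.m7 GL4.br1 GL4.tra
  cann := GL4.cann
  nat := GL4.nat_85
  lft := GL4.lft_85
  link := _root_.Pool.Agent.Helper8.GL4L.link
  ltw := GL4.ltw
  e1 := GL4.e1
  e2 := _root_.Pool.Agent.Helper27.GL4E2.e2
  e3 := GL4.H86.e3
  pgf := GL4.H13.pgf
  symc := GL4.symc
  pol1 := _root_.Pool.Agent.Helper32.GL4POL1.pol1 GL4.symc
  pol2 := GL4.PkPOL2.pol2 GL4.symc
  pfin := _root_.Pool.Agent.Helper11.PFIN.pfin spec GL4.symc GL4.cann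
  blk := blk
  stb := _root_.Pool.Agent.Helper74.GL4STB.stb blk GL4.nat_85 GL4.lft_85 GL4.symc GL4.slt
  sp1 := _root_.Pool.Agent.Helper3.GL4SP1.sp1
  sp2 := GL4.sp2
  sp4 := GL4.sp4 _root_.Pool.Agent.Helper53.GL4sp.sp3
  glue := GL4.glue26 _root_.Pool.Agent.Helper63.GL4NPOL.npol
  ntri := GL4.ntri
  d1 := GL4.D1_holds
  d2 := GL4.D2_holds
  pcb := GL4.pcb
  pun := GL4.pun
  cst := _root_.Pool.Agent.Helper15.GL4CST.cst GL4.canb GL4.nat_85 GL4.lft_85

theorem mt (F : Type) [Field F] [Finite F] : ∀ n, 2 ≤ n → MT F n := mt_all all F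

theorem rep : RepH where
  sc := _root_.Pool.Agent.Helper35.GL4P.sc GL4.PkCH.ch GL4.PkPCH.thm
  pel := _root_.Pool.Agent.Helper3.GL4PEL.pel
  jb := _root_.Pool.Agent.Helper23.GL4JB.jB
  lgeo := GL4.H30.lgeo
  lnum1 := GL4.lnum1
  lnum2 := GL4.lnum2
  lnum3 := GL4.lnum3
  al := _root_.Pool.Agent.Helper83.GL4.al
  ea := _root_.Pool.Agent.Helper20.GL4EA.thm _root_.Pool.Agent.Helper15.GL4ML.ml
  es2 := GL4.es2 _root_.Pool.Agent.Helper15.GL4ML.ml
  es3 := _root_.Pool.Agent.Helper74.GL4ES3.es3 _root_.Pool.Agent.Helper15.GL4ML.ml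
  n2 := GL4.n2
  q5 := _root_.Pool.Agent.Helper41.GL4Q5.q5
  glo := GL4.H4.glo
  ob := _root_.Pool.Agent.Helper46.GL4OB.ob
  f28 := _root_.Pool.Agent.Helper33.F28.f28
  n45 := GL4.n45

/-- four characters, for all `n ≥ 2` and all finite fields -/
theorem good (F : Type) [Field F] [Finite F] (V : Type) [AddCommGroup V] [Module F V]
    [FiniteDimensional F V] (hn : 2 ≤ finrank F V) : Good F V :=
  good_all rep (mt F) hn

end GL4.Fin79

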