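import Mathlib

/-!
# GL4: basic definitions (MP_27a5f8_al)

Projective geometry of a vector space over a finite field, groups of linear automorphisms.
-/

set_option linter.unusedVariables false

namespace GL4

open Module

section basic
variable {F : Type} [Field F] {V : Type} [AddCommGroup V] [Module F V]

/-- image of a subspace under a linear automorphism -/
abbrev im (g : V ≃ₗ[F] V) (P : Submodule F V) : Submodule F V := P.map (g : V →ₗ[F] V)

theorem im_one (P : Submodule F V) : im (1 : V ≃ₗ[F] V) P = P := by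
  ext v
  constructor
  · rintro ⟨w, hw, rfl⟩; exact hw
  · intro hv; exact ⟨v, hv, rfl⟩

theorem im_mul (g h : V ≃ₗ[F] V) (P : Submodule F V) : im (g * h) P = im g (im h P) := by
  ext v
  constructor
  · rintro ⟨w, hw, rfl⟩; exact ⟨h w, ⟨w, hw, rfl⟩, rfl⟩
  · rintro ⟨w, ⟨u, hu, rfl⟩, rfl⟩; exact ⟨u, hu, rfl⟩

theorem im_inv_im (g : V ≃ₗ[F] V) (P : Submodule F V) : im g⁻¹ (im g P) = P := by
  rw [← im_mul, inv_mul_cancel, im_one]

theorem im_im_inv (g : V ≃ₗ[F] V) (P : Submodule F V) : im g (im g⁻¹ P) = P := by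
  rw [← im_mul, mul_inv_cancel, im_one]

theorem im_inv_of_eq {g : V ≃ₗ[F] V} {P Q : Submodule F V} (h : im g P = Q) : im g⁻¹ Q = P := by
  rw [← h, im_inv_im]

/-- points, lines, planes, hyperplanes (as subspaces) -/
def Pt (P : Submodule F V) : Prop := finrank F P = 1
def Ln (P : Submodule F V) : Prop := finrank F P = 2
def Pl (P : Submodule F V) : Prop := finrank F P = 3
def Hy (P : Submodule F V) : Prop := finrank F P + 1 = finrank F V

/-- transitive on points -/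
def PtTrans (G : Subgroup (V ≃ₗ[F] V)) : Prop :=
  ∀ x y : Submodule F V, Pt x → Pt y → ∃ g ∈ G, im g x = y

/-- transitive on hyperplanes -/
def HyTrans (G : Subgroup (V ≃ₗ[F] V)) : Prop :=
  ∀ x y : Submodule F V, Hy x → Hy y → ∃ g ∈ G, im g x = y

/-- transitive on ordered pairs of distinct points -/
def TwoTrans (G : Subgroup (V ≃ₗ[F] V)) : Prop :=
  ∀ x y x' y' : Submodule F V, Pt x → Pt y → Pt x' → Pt y' → x ≠ y → x' ≠ y' →
    ∃ g ∈ G, im g x = x' ∧ im g y = y'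

/-- transitive on ordered pairs of distinct hyperplanes -/
def TwoTransHy (G : Subgroup (V ≃ₗ[F] V)) : Prop :=
  ∀ x y x' y' : Submodule F V, Hy x → Hy y → Hy x' → Hy y' → x ≠ y → x' ≠ y' →
    ∃ g ∈ G, im g x = x' ∧ im g y = y'

/-- transitive on incident (point, hyperplane) pairs -/
def FlagPH (G : Subgroup (V ≃ₗ[F] V)) : Prop :=
  ∀ x H x' H' : Submodule F V, Pt x → Hy H → Pt x' → Hy H' → x ≤ H → x' ≤ H' →
    ∃ g ∈ G, im g x = x' ∧ im g H = H'

/-- transitive on non-incident (point, hyperplane) pairs -/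
def AntiTrans (G : Subgroup (V ≃ₗ[F] V)) : Prop :=
  ∀ x H x' H' : Submodule F V, Pt x → Hy H → Pt x' → Hy H' → ¬ x ≤ H → ¬ x' ≤ H' →
    ∃ g ∈ G, im g x = x' ∧ im g H = H'

/-- transitive on incident (point, line) pairs -/
def FlagPL (G : Subgroup (V ≃ₗ[F] V)) : Prop :=
  ∀ x L x' L' : Submodule F V, Pt x → Ln L → Pt x' → Ln L' → x ≤ L → x' ≤ L' →
    ∃ g ∈ G, im g x = x' ∧ im g L = L'

/-- `G` contains the special linear group -/
def HasSL (G : Subgroup (V ≃ₗ[F] V)) : Prop :=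
  ∀ g : V ≃ₗ[F] V, LinearMap.det (g : V →ₗ[F] V) = 1 → g ∈ G

/-- nontrivial transvections -/
def IsTransv (g : V ≃ₗ[F] V) : Prop :=
  g ≠ 1 ∧ ∃ (f : Module.Dual F V) (u : V), f u = 0 ∧ ∀ v, g v = v + f v • u

/-- the group induced on `V/P` by the stabiliser of `P` in `K` -/
def qGrp (K : Subgroup (V ≃ₗ[F] V)) (P : Submodule F V) : Subgroup ((V ⧸ P) ≃ₗ[F] (V ⧸ P)) where
  carrier := {g | ∃ k ∈ K, im k P = P ∧ ∀ v, g (P.mkQ v) = P.mkQ (k v)}
  one_mem' := ⟨1, K.one_mem, im_one _, fun v => rfl⟩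
  mul_mem' := by
    rintro a b ⟨k, hk, hP, h⟩ ⟨k', hk', hP', h'⟩
    refine ⟨k * k', K.mul_mem hk hk', ?_, fun v => ?_⟩
    · rw [im_mul, hP', hP]
    · rw [LinearEquiv.mul_apply, LinearEquiv.mul_apply, h', h]
  inv_mem' := by
    rintro a ⟨k, hk, hP, h⟩
    refine ⟨k⁻¹, K.inv_mem hk, im_inv_of_eq hP, fun v => ?_⟩
    have : k (k⁻¹ v) = v := k.apply_symm_apply v
    have h2 := h (k⁻¹ v)
    rw [this] at h2
    rw [← h2]
    exact a.symm_apply_apply _

/-- the group induced on `U` by the stabiliser of `U` in `K` -/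
def sGrp (K : Subgroup (V ≃ₗ[F] V)) (U : Submodule F V) : Subgroup (U ≃ₗ[F] U) where
  carrier := {g | ∃ k ∈ K, im k U = U ∧ ∀ u : U, ((g u : U) : V) = k u}
  one_mem' := ⟨1, K.one_mem, im_one _, fun v => rfl⟩
  mul_mem' := by
    rintro a b ⟨k, hk, hP, h⟩ ⟨k', hk', hP', h'⟩
    refine ⟨k * k', K.mul_mem hk hk', ?_, fun v => ?_⟩
    · rw [im_mul, hP', hP]
    · rw [LinearEquiv.mul_apply, LinearEquiv.mul_apply, h, h']
  inv_mem' := by
    rintro a ⟨k, hk, hP, h⟩
    refine ⟨k⁻¹, K.inv_mem hk, im_inv_of_eq hP, fun v => ?_⟩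
    have h2 := h (a⁻¹ v)
    have h3 : a (a⁻¹ v) = v := a.apply_symm_apply v
    rw [h3] at h2
    rw [h2]
    exact (k.symm_apply_apply _).symm

end basic

/-- the `q`-number `[k] = 1 + q + ... + q^(k-1)` -/
def br (q k : ℕ) : ℕ := ∑ i ∈ Finset.range k, q ^ i

/-- The main theorem on 2-transitive linear groups in dimension `n` over `F`. -/
def MT (F : Type) [Field F] (n : ℕ) : Prop :=
  ∀ (V : Type) [AddCommGroup V] [Module F V] [FiniteDimensional F V], finrank F V = n →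
    ∀ K : Subgroup (V ≃ₗ[F] V), TwoTrans K →
      HasSL K ∨ (n = 4 ∧ Nat.card F = 2 ∧ Nat.card K = 2520)

end GL4
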