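import Pool.Agent.Helper79.GL4.Lib2

/-!
# GL4: definitions, part B (MP_27a5f8_al)
-/

set_option linter.unusedVariables false

namespace GL4

open Module Submodule

section
variable {F : Type} [Field F] {W : Type} [AddCommGroup W] [Module F W]

/-- the join of all proper subspaces invariant under the stabiliser of `x` -/
def Bc (G : Subgroup (W ≃ₗ[F] W)) (x : Submodule F W) : Submodule F W :=
  sSup {Z | Z ≠ ⊤ ∧ ∀ g ∈ G, im g x = x → im g Z = Z}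

/-- the intersection of all nonzero subspaces invariant under the stabiliser of `H` -/
def Cc (G : Subgroup (W ≃ₗ[F] W)) (H : Submodule F W) : Submodule F W :=
  sInf {Z | Z ≠ ⊥ ∧ ∀ g ∈ G, im g H = H → im g Z = Z}

/-- the intersection of all subspaces properly containing `x` and invariant under the stabiliser
of `x` -/
def Nc (G : Subgroup (W ≃ₗ[F] W)) (x : Submodule F W) : Submodule F W :=
  sInf {Z | x < Z ∧ ∀ g ∈ G, im g x = x → im g Z = Z}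

/-- The structure attached to an antiflag-transitive group `G` on `W`: `B x` (for points `x`) has
codimension `c`, `C H` (for hyperplanes `H`) has dimension `c`. -/
structure BC (G : Subgroup (W ≃ₗ[F] W)) (c : ℕ) (B C : Submodule F W → Submodule F W) : Prop where
  c1 : 1 ≤ c
  cm : c + 1 ≤ finrank F W
  dimB : ∀ x, Pt x → finrank F (B x) + c = finrank F W
  dimC : ∀ H, Hy H → finrank F (C H) = c
  selfB : ∀ x, Pt x → x ≤ B x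
  symB : ∀ x y, Pt x → Pt y → y ≤ B x → x ≤ B y
  adj : ∀ x H, Pt x → Hy H → (x ≤ C H ↔ B x ≤ H)
  eqB : ∀ g ∈ G, ∀ x, Pt x → B (im g x) = im g (B x)
  eqC : ∀ g ∈ G, ∀ H, Hy H → C (im g H) = im g (C H)
  ptT : PtTrans G
  hyT : HyTrans G
  trB : ∀ x y z, Pt x → Pt y → Pt z → ¬ y ≤ B x → ¬ z ≤ B x → ∃ g ∈ G, im g x = x ∧ im g y = z
  trC : ∀ H H₁ H₂, Hy H → Hy H₁ → Hy H₂ → ¬ C H ≤ H₁ → ¬ C H ≤ H₂ →
    ∃ g ∈ G, im g H = H ∧ im g H₁ = H₂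
  trBH : ∀ x H₁ H₂, Pt x → Hy H₁ → Hy H₂ → B x ≤ H₁ → B x ≤ H₂ →
    ∃ g ∈ G, im g x = x ∧ im g H₁ = H₂
  trCx : ∀ H x y, Hy H → Pt x → Pt y → x ≤ C H → y ≤ C H → ∃ g ∈ G, im g H = H ∧ im g x = y

/-- The subspaces `N x` spanned by the special lines through `x`. -/
structure NN (G : Subgroup (W ≃ₗ[F] W)) (n : ℕ) (N : Submodule F W → Submodule F W) : Prop where
  n1 : 1 ≤ n
  dimN : ∀ x, Pt x → finrank F (N x) = n + 1
  selfN : ∀ x, Pt x → x ≤ N x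
  symN : ∀ x y, Pt x → Pt y → y ≤ N x → x ≤ N y
  eqN : ∀ g ∈ G, ∀ x, Pt x → N (im g x) = im g (N x)
  trN : ∀ x y z, Pt x → Pt y → Pt z → y ≤ N x → z ≤ N x → y ≠ x → z ≠ x →
    ∃ g ∈ G, im g x = x ∧ im g y = z
  trNH : ∀ x H₁ H₂, Pt x → Hy H₁ → Hy H₂ → x ≤ H₁ → x ≤ H₂ → ¬ N x ≤ H₁ → ¬ N x ≤ H₂ →
    ∃ g ∈ G, im g x = x ∧ im g H₁ = H₂

/-- The full structure on `W = V/P`. -/
structure WS (G : Subgroup (W ≃ₗ[F] W)) (c n : ℕ) (B C N L : Submodule F W → Submodule F W) :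
    Prop where
  bc : BC G c B C
  nn : NN G n N
  dimL : ∀ H, Hy H → finrank F (L H) + n + 1 = finrank F W
  adjN : ∀ x H, Pt x → Hy H → (x ≤ L H ↔ N x ≤ H)
  trL : ∀ H y z, Hy H → Pt y → Pt z → y ≤ H → z ≤ H → ¬ y ≤ L H → ¬ z ≤ L H →
    ∃ g ∈ G, im g H = H ∧ im g y = z

/-- `g ↦ φ g φ⁻¹` maps `G` onto `G'`. -/
def Conj {W' : Type} [AddCommGroup W'] [Module F W'] (φ : W ≃ₗ[F] W')
    (G : Subgroup (W ≃ₗ[F] W)) (G' : Subgroup (W' ≃ₗ[F] W')) : Prop :=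
  ∀ g : W ≃ₗ[F] W, g ∈ G ↔ (φ.symm.trans g).trans φ ∈ G'

/-- the chain `β₀ = ⊤`, `β₁ = B`, `β_{i+1}(x) = ⋂_{w ∈ N(x)} β_i(w)` -/
def Be (B N : Submodule F W → Submodule F W) : ℕ → Submodule F W → Submodule F W
  | 0 => fun _ => ⊤
  | 1 => B
  | (i + 2) => fun x => ⨅ w : {w : Submodule F W // Pt w ∧ w ≤ N x}, Be B N (i + 1) w.1

/-- polygon geometry -/
structure PG (B N : Submodule F W → Submodule F W) : Prop where
  dimB : ∀ x, Pt x → finrank F (B x) + 2 = finrank F W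
  dimN : ∀ x, Pt x → finrank F (N x) = 3
  selfN : ∀ x, Pt x → x ≤ N x
  NB : ∀ x, Pt x → N x ≤ B x
  symB : ∀ x y, Pt x → Pt y → y ≤ B x → x ≤ B y
  symN : ∀ x y, Pt x → Pt y → y ≤ N x → x ≤ N y
  supB : ∀ x y, Pt x → Pt y → y ≤ N x → y ≠ x → finrank F ↥(B x ⊔ B y) + 1 = finrank F W
  sNB : ∀ x y, Pt x → Pt y → N x ≤ B y → N y ≤ B x
  ne : ∀ x y, Pt x → Pt y → y ≤ N x → y ≠ x → N y ≠ N x
  linB : ∀ x y z, Pt x → Pt y → Pt z → y ≤ N x → y ≠ x → z ≤ x ⊔ y → B z ≤ B x ⊔ B y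
  injH : ∀ x y z, Pt x → Pt y → Pt z → y ≤ N x → y ≠ x → z ≤ N x → B z ≤ B x ⊔ B y → z ≤ x ⊔ y

/-- the counting statement `A_i` -/
def Ai (B N : Submodule F W → Submodule F W) (i : ℕ) : Prop :=
  ∀ x y : Submodule F W, Pt x → Pt y →
    (¬ y ≤ Be B N (i - 1) x → N y ⊓ Be B N i x = ⊥) ∧
    (y ≤ Be B N (i - 1) x → ¬ y ≤ Be B N i x → finrank F ↥(N y ⊓ Be B N i x) = 1) ∧
    (y ≤ Be B N i x → ¬ y ≤ Be B N (i + 1) x → finrank F ↥(N y ⊓ Be B N i x) = 2) ∧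
    (y ≤ Be B N (i + 1) x ↔ N y ≤ Be B N i x)

/-- spread geometry -/
structure SG (a : ℕ) (B N D : Submodule F W → Submodule F W) : Prop where
  a3 : 3 ≤ a
  dimN : ∀ x, Pt x → finrank F (N x) = a
  selfN : ∀ x, Pt x → x ≤ N x
  spr : ∀ x y, Pt x → Pt y → y ≤ N x → N y = N x
  symB : ∀ x y, Pt x → Pt y → y ≤ B x → x ≤ B y
  dimB : ∀ x, Pt x → finrank F (B x) + a = finrank F W + 1
  dimD : ∀ x, Pt x → finrank F (D x) + a = finrank F W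
  DB : ∀ x y, Pt x → Pt y → y ≤ N x → D x ≤ B y
  Dspr : ∀ x y, Pt x → Pt y → y ≤ N x → D y = D x
  memD : ∀ x w, Pt x → Pt w → (∀ y, Pt y → y ≤ N x → w ≤ B y) → w ≤ D x
  ND : ∀ x, Pt x → N x ≤ D x
  uniq : ∀ x w, Pt x → Pt w → ¬ w ≤ D x → ∃! z, Pt z ∧ z ≤ N x ∧ w ≤ B z
  dich : ∀ x y, Pt x → Pt y → N y ≤ D x ∨ N y ⊓ D x = ⊥
  linN : ∀ u x y z, Pt u → Pt x → Pt y → Pt z → x ≤ N u → y ≤ N u → z ≤ x ⊔ y →
    B z ≤ B x ⊔ B y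
  supD : ∀ x y, Pt x → Pt y → N x ≠ N y → D x ⊔ D y = ⊤

/-- invariance data of a flag `P ≤ H` -/
def ParC {V : Type} [AddCommGroup V] [Module F V] (K : Subgroup (V ≃ₗ[F] V)) (c : ℕ) : Prop :=
  ∀ P H : Submodule F V, Pt P → Hy H → P ≤ H →
    ∃ Z : Submodule F V, P ≤ Z ∧ Z ≤ H ∧ finrank F Z = c + 1 ∧
      (∀ g ∈ K, im g P = P → im g H = H → im g Z = Z) ∧
      ∀ H₁ H₂, Hy H₁ → Hy H₂ → P ≤ H₁ → P ≤ H₂ → ¬ Z ≤ H₁ → ¬ Z ≤ H₂ →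
        ∃ g ∈ K, im g P = P ∧ im g H = H ∧ im g H₁ = H₂

def ParB {V : Type} [AddCommGroup V] [Module F V] (K : Subgroup (V ≃ₗ[F] V)) (c : ℕ) : Prop :=
  ∀ P H : Submodule F V, Pt P → Hy H → P ≤ H →
    ∃ Z : Submodule F V, P ≤ Z ∧ Z ≤ H ∧ finrank F Z + c + 1 = finrank F V ∧
      (∀ g ∈ K, im g P = P → im g H = H → im g Z = Z) ∧
      ∀ x y, Pt x → Pt y → x ≤ H → y ≤ H → ¬ x ≤ Z → ¬ y ≤ Z →
        ∃ g ∈ K, im g P = P ∧ im g H = H ∧ im g x = y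

/-- the contragredient group on the dual space -/
def dGrp {V : Type} [AddCommGroup V] [Module F V] (K : Subgroup (V ≃ₗ[F] V)) :
    Subgroup (Module.Dual F V ≃ₗ[F] Module.Dual F V) where
  carrier := {g | ∃ k ∈ K, ∀ f v, (g f) (k v) = f v}
  one_mem' := ⟨1, K.one_mem, fun f v => rfl⟩
  mul_mem' := by
    rintro a b ⟨k, hk, h⟩ ⟨k', hk', h'⟩
    refine ⟨k * k', K.mul_mem hk hk', fun f v => ?_⟩
    rw [LinearEquiv.mul_apply, LinearEquiv.mul_apply, h, h']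
  inv_mem' := by
    rintro a ⟨k, hk, h⟩
    refine ⟨k⁻¹, K.inv_mem hk, fun f v => ?_⟩
    have h2 := h (a⁻¹ f) (k⁻¹ v)
    have h3 : a (a⁻¹ f) = f := a.apply_symm_apply f
    have h4 : k (k⁻¹ v) = v := k.apply_symm_apply v
    rw [h3, h4] at h2
    exact h2.symm

end

end GL4
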