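import Pool.Agent.Helper79.GL4.Defs

/-!
# GL4: basic lemmas on subspaces (MP_27a5f8_al)
-/

set_option linter.unusedVariables false

namespace GL4

open Module Submodule

variable {F : Type} [Field F] {V : Type} [AddCommGroup V] [Module F V]

/-! ### images -/

theorem finrank_im (g : V ≃ₗ[F] V) (P : Submodule F V) : finrank F (im g P) = finrank F P :=
  LinearEquiv.finrank_map_eq g P

theorem im_mono (g : V ≃ₗ[F] V) {P Q : Submodule F V} (h : P ≤ Q) : im g P ≤ im g Q :=
  Submodule.map_mono h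

theorem im_le_im_iff (g : V ≃ₗ[F] V) {P Q : Submodule F V} : im g P ≤ im g Q ↔ P ≤ Q := by
  refine ⟨fun h => ?_, im_mono g⟩
  have := im_mono g⁻¹ h
  rwa [im_inv_im, im_inv_im] at this

theorem im_inj (g : V ≃ₗ[F] V) {P Q : Submodule F V} : im g P = im g Q ↔ P = Q := by
  refine ⟨fun h => ?_, fun h => by rw [h]⟩
  have := congrArg (im g⁻¹) h
  rwa [im_inv_im, im_inv_im] at this

theorem im_sup (g : V ≃ₗ[F] V) (P Q : Submodule F V) : im g (P ⊔ Q) = im g P ⊔ im g Q :=
  Submodule.map_sup _ _ _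

theorem im_inf (g : V ≃ₗ[F] V) (P Q : Submodule F V) : im g (P ⊓ Q) = im g P ⊓ im g Q :=
  Submodule.map_inf _ g.injective

theorem im_top (g : V ≃ₗ[F] V) : im g (⊤ : Submodule F V) = ⊤ := by
  have : (⊤ : Submodule F V).map (g : V →ₗ[F] V) = ⊤ := by
    rw [Submodule.map_top]; exact LinearEquiv.range g
  exact this

theorem im_bot (g : V ≃ₗ[F] V) : im g (⊥ : Submodule F V) = ⊥ := Submodule.map_bot _

theorem im_span_singleton (g : V ≃ₗ[F] V) (v : V) : im g (F ∙ v) = F ∙ (g v) := by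
  rw [im, Submodule.map_span, Set.image_singleton]; rfl

theorem mem_im {g : V ≃ₗ[F] V} {P : Submodule F V} {v : V} : v ∈ im g P ↔ g⁻¹ v ∈ P := by
  constructor
  · rintro ⟨w, hw, rfl⟩
    have : g⁻¹ (g w) = w := g.symm_apply_apply w
    change g⁻¹ (g w) ∈ P
    rwa [this]
  · intro h
    exact ⟨g⁻¹ v, h, g.apply_symm_apply v⟩

theorem apply_mem_im {g : V ≃ₗ[F] V} {P : Submodule F V} {v : V} (h : v ∈ P) : g v ∈ im g P :=
  ⟨v, h, rfl⟩

theorem im_eq_of_le [FiniteDimensional F V] {g : V ≃ₗ[F] V} {P : Submodule F V}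
    (h : im g P ≤ P) : im g P = P :=
  Submodule.eq_of_le_of_finrank_eq h (finrank_im g P)

theorem Pt.im {g : V ≃ₗ[F] V} {P : Submodule F V} (h : Pt P) : Pt (im g P) := by
  rw [Pt, finrank_im]; exact h

theorem Ln.im {g : V ≃ₗ[F] V} {P : Submodule F V} (h : Ln P) : Ln (GL4.im g P) := by
  rw [Ln, finrank_im]; exact h

theorem Pl.im {g : V ≃ₗ[F] V} {P : Submodule F V} (h : Pl P) : Pl (GL4.im g P) := by
  rw [Pl, finrank_im]; exact h

theorem Hy.im {g : V ≃ₗ[F] V} {P : Submodule F V} (h : Hy P) : Hy (GL4.im g P) := by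
  rw [Hy, finrank_im]; exact h

/-! ### points -/

theorem pt_span {v : V} (hv : v ≠ 0) : Pt (F ∙ v) := finrank_span_singleton hv

theorem Pt.exists_span {P : Submodule F V} (h : Pt P) : ∃ v : V, v ≠ 0 ∧ P = F ∙ v := by
  obtain ⟨v, hv, hs⟩ := finrank_eq_one_iff'.1 h
  refine ⟨v, fun h0 => hv (Subtype.ext h0), le_antisymm ?_ ?_⟩
  · intro w hw
    obtain ⟨c, hc⟩ := hs ⟨w, hw⟩
    rw [mem_span_singleton]
    exact ⟨c, congrArg Subtype.val hc⟩
  · rw [span_singleton_le_iff_mem]; exact v.2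

theorem Pt.ne_bot {P : Submodule F V} (h : Pt P) : P ≠ ⊥ := by
  rintro rfl
  rw [Pt, finrank_bot] at h
  exact zero_ne_one h

theorem Pt.ne_zero_of_span {v : V} (h : Pt (F ∙ v)) : v ≠ 0 := by
  rintro rfl
  apply h.ne_bot
  simp

theorem le_of_pts {U U' : Submodule F V} (h : ∀ x, Pt x → x ≤ U → x ≤ U') : U ≤ U' := by
  intro v hv
  by_cases h0 : v = 0
  · rw [h0]; exact zero_mem _
  · have := h (F ∙ v) (pt_span h0) (by rw [span_singleton_le_iff_mem]; exact hv)
    exact this (mem_span_singleton_self v)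

theorem Pt.le_or_inf_eq_bot {x : Submodule F V} (hx : Pt x) (U : Submodule F V) :
    x ≤ U ∨ x ⊓ U = ⊥ := by
  obtain ⟨v, hv, rfl⟩ := hx.exists_span
  by_cases h : v ∈ U
  · left; rwa [span_singleton_le_iff_mem]
  · right
    rw [eq_bot_iff]
    rintro w ⟨h1, h2⟩
    obtain ⟨c, rfl⟩ := mem_span_singleton.1 h1
    by_cases hc : c = 0
    · simp [hc]
    · exfalso; apply h
      have := U.smul_mem c⁻¹ h2
      rwa [smul_smul, inv_mul_cancel₀ hc, one_smul] at this

theorem Pt.eq_of_le {x y : Submodule F V} (hx : Pt x) (hy : Pt y) (h : x ≤ y) : x = y := by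
  have : FiniteDimensional F y := FiniteDimensional.of_finrank_pos (by rw [hy]; exact one_pos)
  exact Submodule.eq_of_le_of_finrank_eq h (by rw [hx, hy])

theorem exists_pt_le {U : Submodule F V} (h : U ≠ ⊥) : ∃ x, Pt x ∧ x ≤ U := by
  obtain ⟨v, hv, h0⟩ := exists_mem_ne_zero_of_ne_bot h
  exact ⟨F ∙ v, pt_span h0, by rwa [span_singleton_le_iff_mem]⟩

theorem exists_pt_not_le {U U' : Submodule F V} (h : ¬ U ≤ U') : ∃ x, Pt x ∧ x ≤ U ∧ ¬ x ≤ U' := by
  by_contra hc
  push Not at hc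
  exact h (le_of_pts hc)

/-- two subspaces `A`, `B` not containing `U` do not cover `U` -/
theorem exists_pt_not_le₂ {U A B : Submodule F V} (hA : ¬ U ≤ A) (hB : ¬ U ≤ B) :
    ∃ x, Pt x ∧ x ≤ U ∧ ¬ x ≤ A ∧ ¬ x ≤ B := by
  obtain ⟨v, hv, hvA⟩ := Set.not_subset.1 hA
  obtain ⟨w, hw, hwB⟩ := Set.not_subset.1 hB
  have key : ∃ u ∈ U, u ∉ A ∧ u ∉ B := by
    by_cases h1 : v ∈ B
    · by_cases h2 : w ∈ A
      · refine ⟨v + w, U.add_mem hv hw, fun h => hvA ?_, fun h => hwB ?_⟩
        · have := A.sub_mem h h2; rwa [add_sub_cancel_right] at this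
        · have := B.sub_mem h h1; rwa [add_sub_cancel_left] at this
      · exact ⟨w, hw, h2, hwB⟩
    · exact ⟨v, hv, hvA, h1⟩
  obtain ⟨u, hu, h1, h2⟩ := key
  refine ⟨F ∙ u, pt_span ?_, ?_, ?_, ?_⟩
  · rintro rfl; exact h1 (zero_mem _)
  · rwa [span_singleton_le_iff_mem]
  · rwa [span_singleton_le_iff_mem]
  · rwa [span_singleton_le_iff_mem]

/-! ### hyperplanes -/

section hyp
variable [FiniteDimensional F V]

omit [FiniteDimensional F V] in
theorem Hy.ne_top {H : Submodule F V} (h : Hy H) : H ≠ ⊤ := by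
  rintro rfl
  rw [Hy, finrank_top] at h
  omega

theorem hy_ker {f : Module.Dual F V} (hf : f ≠ 0) : Hy (LinearMap.ker f) := by
  have h1 := LinearMap.finrank_range_add_finrank_ker f
  have h2 : LinearMap.range f = ⊤ := LinearMap.range_eq_top.2 (LinearMap.surjective hf)
  rw [h2, finrank_top, finrank_self] at h1
  rw [Hy]; omega

theorem Hy.exists_ker {H : Submodule F V} (h : Hy H) :
    ∃ f : Module.Dual F V, f ≠ 0 ∧ H = LinearMap.ker f := by
  obtain ⟨v, hv⟩ : ∃ v, v ∉ H := by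
    by_contra hc; push Not at hc
    exact h.ne_top (eq_top_iff.2 fun v _ => hc v)
  obtain ⟨f, hf, hH⟩ := Submodule.exists_le_ker_of_notMem hv
  have hf0 : f ≠ 0 := by rintro rfl; exact hf rfl
  refine ⟨f, hf0, Submodule.eq_of_le_of_finrank_eq hH ?_⟩
  have := hy_ker hf0
  rw [Hy] at this h
  omega

theorem Hy.eq_of_le {H H' : Submodule F V} (h : Hy H) (h' : Hy H') (hle : H ≤ H') : H = H' :=
  Submodule.eq_of_le_of_finrank_eq hle (by rw [Hy] at h h'; omega)

theorem Hy.sup_pt {H x : Submodule F V} (h : Hy H) (hx : ¬ x ≤ H) : H ⊔ x = ⊤ := by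
  have h1 : H < H ⊔ x := by
    refine lt_of_le_of_ne le_sup_left fun he => hx ?_
    rw [he]; exact le_sup_right
  have h2 := Submodule.finrank_lt_finrank_of_lt h1
  apply Submodule.eq_top_of_finrank_eq
  have h3 := Submodule.finrank_le (H ⊔ x)
  rw [Hy] at h
  omega

/-- if `v ∉ T` there is a hyperplane containing `T` and not `v`. -/
theorem exists_hy_of_notMem {T : Submodule F V} {v : V} (hv : v ∉ T) :
    ∃ H, Hy H ∧ T ≤ H ∧ v ∉ H := by
  obtain ⟨f, hf, hT⟩ := Submodule.exists_le_ker_of_notMem hv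
  have hf0 : f ≠ 0 := by rintro rfl; exact hf rfl
  exact ⟨_, hy_ker hf0, hT, by simpa using hf⟩

theorem exists_hy_not_ge {T U : Submodule F V} (h : ¬ U ≤ T) : ∃ H, Hy H ∧ T ≤ H ∧ ¬ U ≤ H := by
  obtain ⟨v, hv, hvT⟩ := Set.not_subset.1 h
  obtain ⟨H, h1, h2, h3⟩ := exists_hy_of_notMem hvT
  exact ⟨H, h1, h2, fun hc => h3 (hc hv)⟩

theorem le_of_hys {T U : Submodule F V} (h : ∀ H, Hy H → T ≤ H → U ≤ H) : U ≤ T := by
  by_contra hc
  obtain ⟨H, h1, h2, h3⟩ := exists_hy_not_ge hc
  exact h3 (h H h1 h2)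

/-- If `A ⊄ T` and `B ⊄ T` there is a hyperplane containing `T` but neither `A` nor `B`. -/
theorem exists_hy_not_ge₂ {T A B : Submodule F V} (hA : ¬ A ≤ T) (hB : ¬ B ≤ T) :
    ∃ H, Hy H ∧ T ≤ H ∧ ¬ A ≤ H ∧ ¬ B ≤ H := by
  obtain ⟨v, hv, hvT⟩ := Set.not_subset.1 hA
  obtain ⟨w, hw, hwT⟩ := Set.not_subset.1 hB
  obtain ⟨f, hf, hTf⟩ := Submodule.exists_le_ker_of_notMem hvT
  obtain ⟨g, hg, hTg⟩ := Submodule.exists_le_ker_of_notMem hwT
  have key : ∃ e : Module.Dual F V, T ≤ LinearMap.ker e ∧ e v ≠ 0 ∧ e w ≠ 0 := by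
    by_cases h1 : f w = 0
    · by_cases h2 : g v = 0
      · refine ⟨f + g, ?_, ?_, ?_⟩
        · intro t ht
          have a1 : f t = 0 := hTf ht
          have a2 : g t = 0 := hTg ht
          simp [a1, a2]
        · simp only [LinearMap.add_apply, h2, add_zero]; exact hf
        · simp only [LinearMap.add_apply, h1, zero_add]; exact hg
      · exact ⟨g, hTg, h2, hg⟩
    · exact ⟨f, hTf, hf, h1⟩
  obtain ⟨e, h1, h2, h3⟩ := key
  refine ⟨LinearMap.ker e, hy_ker (by rintro rfl; exact h2 rfl), h1, fun hc => h2 (hc hv),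
    fun hc => h3 (hc hw)⟩

theorem finrank_sup_pt {U x : Submodule F V} (hx : Pt x) (h : ¬ x ≤ U) :
    finrank F ↥(U ⊔ x) = finrank F U + 1 := by
  have h1 := Submodule.finrank_sup_add_finrank_inf_eq U x
  have h2 : U ⊓ x = ⊥ := by
    rw [inf_comm]; exact (hx.le_or_inf_eq_bot U).resolve_left h
  rw [h2, finrank_bot, hx] at h1
  omega

theorem finrank_inf_hy {U H : Submodule F V} (hH : Hy H) (h : ¬ U ≤ H) :
    finrank F ↥(U ⊓ H) + 1 = finrank F U := by
  have h1 := Submodule.finrank_sup_add_finrank_inf_eq H U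
  have h2 : H ⊔ U = ⊤ := hH.sup_pt h
  rw [h2, finrank_top, inf_comm] at h1
  rw [Hy] at hH
  omega

theorem ln_sup {x y : Submodule F V} (hx : Pt x) (hy : Pt y) (h : x ≠ y) : Ln (x ⊔ y) := by
  rw [Ln, finrank_sup_pt hy (fun hle => h (hy.eq_of_le hx hle).symm), hx]

end hyp

/-! ### finiteness -/

section fin
variable [Finite F] [FiniteDimensional F V]

instance finite_submodule : Finite (Submodule F V) := by
  have : Finite V := Module.finite_of_finite F
  exact Finite.of_injective (fun p : Submodule F V => (p : Set V)) SetLike.coe_injective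

instance finite_equiv : Finite (V ≃ₗ[F] V) := by
  have : Finite V := Module.finite_of_finite F
  exact Finite.of_injective (fun g : V ≃ₗ[F] V => (g : V → V)) DFunLike.coe_injective

instance finite_dual : Finite (Module.Dual F V) := by
  have : Finite V := Module.finite_of_finite F
  exact Finite.of_injective (fun g : Module.Dual F V => (g : V → F)) DFunLike.coe_injective

end fin

/-! ### counting points and hyperplanes -/

section count

theorem br_zero (q : ℕ) : br q 0 = 0 := by simp [br]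
theorem br_one (q : ℕ) : br q 1 = 1 := by simp [br]
theorem br_succ (q k : ℕ) : br q (k + 1) = br q k + q ^ k := by
  rw [br, Finset.sum_range_succ]; rfl
theorem br_succ' (q k : ℕ) : br q (k + 1) = q * br q k + 1 := by
  induction k with
  | zero => simp [br]
  | succ k ih =>
    have h3 : br q k + q ^ k = q * br q k + 1 := by rw [← br_succ]; exact ih
    have h4 : br q (k + 1 + 1) = (q * br q k + 1) + q ^ (k + 1) := by rw [br_succ q (k + 1), ih]
    have h5 : q * br q (k + 1) + 1 = q * (br q k + q ^ k) + 1 := by rw [br_succ]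
    rw [h4, h5, pow_succ]; ring
theorem br_add (q a b : ℕ) : br q (a + b) = br q a + q ^ a * br q b := by
  induction b with
  | zero => simp [br]
  | succ b ih => rw [← add_assoc, br_succ, ih, br_succ, pow_add]; ring
theorem br_mul (q k : ℕ) : (q - 1 : ℤ) * br q k = q ^ k - 1 := by
  induction k with
  | zero => simp [br]
  | succ k ih => rw [br_succ]; push_cast; rw [mul_add, ih]; ring
theorem br_pos {q k : ℕ} (hk : 1 ≤ k) : 1 ≤ br q k := by
  obtain ⟨j, rfl⟩ := Nat.exists_eq_add_of_le hk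
  rw [add_comm, br_succ']; omega
theorem br_mono {q a b : ℕ} (h : a ≤ b) : br q a ≤ br q b := by
  obtain ⟨j, rfl⟩ := Nat.exists_eq_add_of_le h
  rw [br_add]; omega
theorem br_strictMono {q a b : ℕ} (hq : 1 ≤ q) (h : a < b) : br q a < br q b := by
  obtain ⟨j, rfl⟩ := Nat.exists_eq_add_of_lt h
  rw [show a + j + 1 = a + (j + 1) from rfl, br_add]
  have h1 : 1 ≤ br q (j + 1) := br_pos (by omega)
  have h2 : 1 ≤ q ^ a := Nat.one_le_pow _ _ hq
  nlinarith
theorem br_lt_pow {q k : ℕ} (hq : 2 ≤ q) : br q k < q ^ k := by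
  induction k with
  | zero => simp [br]
  | succ k ih => rw [br_succ, pow_succ]; nlinarith

theorem card_pts [Finite F] [FiniteDimensional F V] :
    Nat.card {x : Submodule F V // Pt x} = br (Nat.card F) (finrank F V) := by
  have h := Nat.card_congr (Projectivization.equivSubmodule F V)
  rw [Projectivization.card_of_finrank F V rfl] at h
  exact h.symm

theorem card_pts_le [Finite F] [FiniteDimensional F V] (U : Submodule F V) :
    Nat.card {x : Submodule F V // Pt x ∧ x ≤ U} = br (Nat.card F) (finrank F U) := by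
  rw [← card_pts (F := F) (V := U)]
  refine Nat.card_congr ?_
  refine { toFun := fun x => ⟨x.1.comap U.subtype, ?_⟩
           invFun := fun x => ⟨x.1.map U.subtype, ?_, ?_⟩
           left_inv := ?_, right_inv := ?_ }
  · have h : (x.1.comap U.subtype).map U.subtype = x.1 :=
      Submodule.map_comap_eq_of_le (by simpa using x.2.2)
    have h2 := (U.equivSubtypeMap (x.1.comap U.subtype)).finrank_eq
    rw [h, x.2.1] at h2
    exact h2
  · have h2 := (U.equivSubtypeMap x.1).finrank_eq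
    rw [x.2] at h2
    exact h2.symm
  · exact Submodule.map_subtype_le U x.1
  · rintro ⟨x, hx, hxU⟩
    exact Subtype.ext (Submodule.map_comap_eq_of_le (by simpa using hxU))
  · rintro ⟨x, hx⟩
    exact Subtype.ext (Submodule.comap_map_eq_of_injective U.subtype_injective x)

theorem card_hys_ge [Finite F] [FiniteDimensional F V] (U : Submodule F V) :
    Nat.card {H : Submodule F V // Hy H ∧ U ≤ H} = br (Nat.card F) (finrank F V - finrank F U) := by
  have hd : finrank F (U.dualAnnihilator) = finrank F V - finrank F U := by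
    have := Subspace.finrank_add_finrank_dualAnnihilator_eq U
    omega
  rw [← hd, ← card_pts_le (F := F) (V := Module.Dual F V)]
  refine Nat.card_congr ?_
  refine { toFun := fun x => ⟨x.1.dualAnnihilator, ?_, ?_⟩
           invFun := fun x => ⟨x.1.dualCoannihilator, ?_, ?_⟩
           left_inv := ?_, right_inv := ?_ }
  · have := Subspace.finrank_add_finrank_dualAnnihilator_eq x.1
    have h2 := x.2.1
    rw [Hy] at h2
    rw [Pt]; omega
  · exact Submodule.dualAnnihilator_anti x.2.2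
  · have := Subspace.finrank_add_finrank_dualCoannihilator_eq x.1
    have h2 := x.2.1
    rw [Pt] at h2
    rw [Hy]; omega
  · have h3 := Submodule.dualCoannihilator_anti x.2.2
    rwa [Subspace.dualAnnihilator_dualCoannihilator_eq] at h3
  · rintro ⟨x, hx, hxU⟩
    exact Subtype.ext Subspace.dualAnnihilator_dualCoannihilator_eq
  · rintro ⟨x, hx, hxU⟩
    exact Subtype.ext Subspace.dualCoannihilator_dualAnnihilator_eq

end count

/-! ### quotients: `Submodule F (V ⧸ P)` versus subspaces of `V` containing `P` -/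

section quot
variable {P : Submodule F V}

theorem le_up (Z' : Submodule F (V ⧸ P)) : P ≤ Z'.comap P.mkQ := by
  intro v hv
  rw [mem_comap]
  have : P.mkQ v = 0 := by simpa using hv
  rw [this]; exact zero_mem _

theorem down_up (Z' : Submodule F (V ⧸ P)) : (Z'.comap P.mkQ).map P.mkQ = Z' :=
  Submodule.map_comap_eq_of_surjective P.mkQ_surjective Z'

theorem up_down {Z : Submodule F V} (h : P ≤ Z) : (Z.map P.mkQ).comap P.mkQ = Z := by
  rw [Submodule.comap_map_mkQ]; exact sup_eq_right.2 h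

theorem down_le_iff {Z : Submodule F V} {Z' : Submodule F (V ⧸ P)} :
    Z.map P.mkQ ≤ Z' ↔ Z ≤ Z'.comap P.mkQ := Submodule.map_le_iff_le_comap

theorem down_le_down {Z Y : Submodule F V} (h : P ≤ Y) :
    Z.map P.mkQ ≤ Y.map P.mkQ ↔ Z ≤ Y := by
  rw [down_le_iff, up_down h]

theorem up_le_up {Z Y : Submodule F (V ⧸ P)} :
    Z.comap P.mkQ ≤ Y.comap P.mkQ ↔ Z ≤ Y := by
  rw [← down_le_iff, down_up]

theorem down_inj {Z Y : Submodule F V} (hZ : P ≤ Z) (hY : P ≤ Y) :
    Z.map P.mkQ = Y.map P.mkQ ↔ Z = Y := by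
  rw [le_antisymm_iff, down_le_down hY, down_le_down hZ, le_antisymm_iff]

theorem finrank_up [FiniteDimensional F V] (Z' : Submodule F (V ⧸ P)) :
    finrank F (Z'.comap P.mkQ) = finrank F Z' + finrank F P := by
  have h1 := LinearMap.finrank_range_add_finrank_ker (P.mkQ.domRestrict (Z'.comap P.mkQ))
  have h2 : LinearMap.range (P.mkQ.domRestrict (Z'.comap P.mkQ)) = Z' := by
    rw [LinearMap.range_domRestrict, down_up]
  have h3 : finrank F (LinearMap.ker (P.mkQ.domRestrict (Z'.comap P.mkQ))) = finrank F P := by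
    rw [LinearMap.ker_domRestrict, ker_mkQ]
    exact (Submodule.comapSubtypeEquivOfLe (le_up Z')).finrank_eq
  rw [h2, h3] at h1
  exact h1.symm

theorem finrank_down [FiniteDimensional F V] {Z : Submodule F V} (h : P ≤ Z) :
    finrank F (Z.map P.mkQ) + finrank F P = finrank F Z := by
  rw [← finrank_up, up_down h]

theorem Hy.down [FiniteDimensional F V] {H : Submodule F V} (h : Hy H) (hP : P ≤ H) :
    Hy (H.map P.mkQ) := by
  have h1 := finrank_down hP
  have h2 := Submodule.finrank_quotient_add_finrank P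
  rw [Hy] at h ⊢
  omega

theorem Hy.up [FiniteDimensional F V] {H' : Submodule F (V ⧸ P)} (h : Hy H') :
    Hy (H'.comap P.mkQ) := by
  have h1 := finrank_up H'
  have h2 := Submodule.finrank_quotient_add_finrank P
  rw [Hy] at h ⊢
  omega

theorem Ln.down [FiniteDimensional F V] {L : Submodule F V} (h : Ln L) (hP : P ≤ L) (h1 : Pt P) :
    Pt (L.map P.mkQ) := by
  have h2 := finrank_down hP
  rw [Ln] at h
  rw [Pt] at h1 ⊢
  omega

theorem Pt.up [FiniteDimensional F V] {x : Submodule F (V ⧸ P)} (h : Pt x) (h1 : Pt P) :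
    Ln (x.comap P.mkQ) := by
  have h2 := finrank_up x
  rw [Pt] at h h1
  rw [Ln]; omega

theorem exists_qGrp [FiniteDimensional F V] {K : Subgroup (V ≃ₗ[F] V)} {k : V ≃ₗ[F] V} (hk : k ∈ K)
    (hP : im k P = P) : ∃ g ∈ qGrp K P, ∀ v, g (P.mkQ v) = P.mkQ (k v) :=
  ⟨Submodule.Quotient.equiv P P k hP, ⟨k, hk, hP, fun v => rfl⟩, fun v => rfl⟩

theorem im_down {g : (V ⧸ P) ≃ₗ[F] (V ⧸ P)} {k : V ≃ₗ[F] V}
    (h : ∀ v, g (P.mkQ v) = P.mkQ (k v)) (Z : Submodule F V) :
    im g (Z.map P.mkQ) = (im k Z).map P.mkQ := by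
  ext w
  constructor
  · rintro ⟨_, ⟨v, hv, rfl⟩, rfl⟩
    exact ⟨k v, ⟨v, hv, rfl⟩, (h v).symm⟩
  · rintro ⟨_, ⟨v, hv, rfl⟩, rfl⟩
    exact ⟨P.mkQ v, ⟨v, hv, rfl⟩, h v⟩

theorem im_up {g : (V ⧸ P) ≃ₗ[F] (V ⧸ P)} {k : V ≃ₗ[F] V} (hP : im k P = P)
    (h : ∀ v, g (P.mkQ v) = P.mkQ (k v)) (Z' : Submodule F (V ⧸ P)) :
    (im g Z').comap P.mkQ = im k (Z'.comap P.mkQ) := by
  have h1 : P ≤ im k (Z'.comap P.mkQ) := by
    conv_lhs => rw [← hP]
    exact im_mono k (le_up Z')
  rw [← down_inj (P := P) (le_up _) h1, down_up, ← im_down h, down_up]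

end quot

/-! ### subspaces of `U` -/

section sub
variable {U : Submodule F V}

theorem finrank_incl (Z' : Submodule F U) : finrank F (Z'.map U.subtype) = finrank F Z' :=
  ((U.equivSubtypeMap Z').finrank_eq).symm

theorem incl_le (Z' : Submodule F U) : Z'.map U.subtype ≤ U := Submodule.map_subtype_le U Z'

theorem restr_incl (Z' : Submodule F U) : (Z'.map U.subtype).comap U.subtype = Z' :=
  Submodule.comap_map_eq_of_injective U.subtype_injective Z'

theorem incl_restr {Z : Submodule F V} (h : Z ≤ U) : (Z.comap U.subtype).map U.subtype = Z :=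
  Submodule.map_comap_eq_of_le (by simpa using h)

theorem finrank_restr {Z : Submodule F V} (h : Z ≤ U) :
    finrank F (Z.comap U.subtype) = finrank F Z := by
  rw [← finrank_incl, incl_restr h]

theorem incl_le_incl {Y Z : Submodule F U} : Y.map U.subtype ≤ Z.map U.subtype ↔ Y ≤ Z := by
  rw [Submodule.map_le_iff_le_comap, restr_incl]

theorem restr_le_restr {Y Z : Submodule F V} (h : Y ≤ U) :
    Y.comap U.subtype ≤ Z.comap U.subtype ↔ Y ≤ Z := by
  rw [← Submodule.map_le_iff_le_comap, incl_restr h]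

theorem exists_sGrp {K : Subgroup (V ≃ₗ[F] V)} {k : V ≃ₗ[F] V} (hk : k ∈ K)
    (hU : im k U = U) : ∃ g ∈ sGrp K U, ∀ u : U, ((g u : U) : V) = k u := by
  refine ⟨k.ofSubmodules U U hU, ⟨k, hk, hU, fun v => rfl⟩, fun v => rfl⟩

theorem im_incl {g : U ≃ₗ[F] U} {k : V ≃ₗ[F] V}
    (h : ∀ u : U, ((g u : U) : V) = k u) (Z' : Submodule F U) :
    (im g Z').map U.subtype = im k (Z'.map U.subtype) := by
  ext w
  constructor
  · rintro ⟨_, ⟨v, hv, rfl⟩, rfl⟩
    exact ⟨v, ⟨v, hv, rfl⟩, (h v).symm⟩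
  · rintro ⟨_, ⟨v, hv, rfl⟩, rfl⟩
    exact ⟨g v, ⟨v, hv, rfl⟩, h v⟩

theorem im_restr {g : U ≃ₗ[F] U} {k : V ≃ₗ[F] V} (hU : im k U = U)
    (h : ∀ u : U, ((g u : U) : V) = k u) {Z : Submodule F V} (hZ : Z ≤ U) :
    im g (Z.comap U.subtype) = (im k Z).comap U.subtype := by
  have h1 := im_incl h (Z.comap U.subtype)
  rw [incl_restr hZ] at h1
  rw [← h1, restr_incl]

end sub

/-! ### dual spaces -/

section dual
variable [FiniteDimensional F V]

theorem Hy.ann {H : Submodule F V} (h : Hy H) : Pt H.dualAnnihilator := by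
  have := Subspace.finrank_add_finrank_dualAnnihilator_eq H
  rw [Hy] at h; rw [Pt]; omega

theorem Pt.ann {x : Submodule F V} (h : Pt x) : Hy x.dualAnnihilator := by
  have := Subspace.finrank_add_finrank_dualAnnihilator_eq x
  rw [Pt] at h; rw [Hy, Subspace.dual_finrank_eq]; omega

theorem Pt.coann {x : Submodule F (Module.Dual F V)} (h : Pt x) : Hy x.dualCoannihilator := by
  have := Subspace.finrank_add_finrank_dualCoannihilator_eq x
  rw [Pt] at h; rw [Hy]; omega

theorem Hy.coann {H : Submodule F (Module.Dual F V)} (h : Hy H) : Pt H.dualCoannihilator := by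
  have := Subspace.finrank_add_finrank_dualCoannihilator_eq H
  rw [Hy, Subspace.dual_finrank_eq] at h; rw [Pt]; omega

end dual

end GL4
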